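import Pool.Agent.H56.PD.Div1

/-! The values of polynomials in several variables at integers without concentration in residue classes. -/

set_option autoImplicit false

namespace Pool.Agent.H56.PD

open Finset

lemma pi_split {n : ℕ} (W : Fin (n + 1) → Finset ℕ) (P : (Fin (n + 1) → ℕ) → Prop) [DecidablePred P] :
    ((Fintype.piFinset W).filter P).card =
      ∑ x' ∈ Fintype.piFinset (fun i : Fin n => W i.succ), ((W 0).filter (fun t => P (Fin.cons t x'))).card := by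
  classical
  rw [card_eq_sum_card_fiberwise (f := fun x : Fin (n + 1) → ℕ => (fun i : Fin n => x i.succ))
    (t := Fintype.piFinset (fun i : Fin n => W i.succ))]
  · apply sum_congr rfl
    intro x' hx'
    apply card_bij (fun x _ => x 0)
    · intro x hx
      rw [mem_filter, mem_filter, Fintype.mem_piFinset] at hx
      rw [mem_filter]
      refine ⟨hx.1.1 0, ?_⟩
      have : Fin.cons (x 0) x' = x := by
        rw [← hx.2]
        exact Fin.cons_self_tail x
      rw [this]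
      exact hx.1.2
    · intro x hx y hy hxy
      rw [mem_filter] at hx hy
      have e1 : Fin.cons (x 0) x' = x := by
        rw [← hx.2]
        exact Fin.cons_self_tail x
      have e2 : Fin.cons (y 0) x' = y := by
        rw [← hy.2]
        exact Fin.cons_self_tail y
      rw [← e1, ← e2, hxy]
    · intro t ht
      rw [mem_filter] at ht
      refine ⟨Fin.cons t x', ?_, rfl⟩
      rw [mem_filter, mem_filter, Fintype.mem_piFinset]
      refine ⟨⟨?_, ht.2⟩, ?_⟩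
      · intro i
        rw [Fintype.mem_piFinset] at hx'
        refine Fin.cases ?_ ?_ i
        · exact ht.1
        · intro j
          rw [Fin.cons_succ]
          exact hx' j
      · funext i
        rw [Fin.cons_succ]
  · intro x hx
    rw [mem_coe, mem_filter, Fintype.mem_piFinset] at hx
    rw [mem_coe, Fintype.mem_piFinset]
    exact fun i => hx.1 i.succ

lemma pi_card {n : ℕ} (W : Fin (n + 1) → Finset ℕ) :
    (Fintype.piFinset W).card = (W 0).card * (Fintype.piFinset (fun i : Fin n => W i.succ)).card := by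
  rw [Fintype.card_piFinset, Fin.prod_univ_succ, Fintype.card_piFinset]

/-- the bound for one polynomial -/
def Bd {n : ℕ} (C δ C' δ' : ℝ) (g : (Fin n → ℕ) → ℤ) : Prop :=
  ∀ (R : ℝ) (W : Fin n → Finset ℕ), (∀ i, Conc (W i) C δ R) → ∀ q : ℕ, 1 ≤ q → (q : ℝ) ≤ R →
    (((Fintype.piFinset W).filter (fun x => (q : ℤ) ∣ g x)).card : ℝ) ≤ C' * (q : ℝ) ^ (-δ') * (Fintype.piFinset W).card

/-- the step from the leading coefficient to the polynomial -/
lemma bd_step {n : ℕ} (C δ : ℝ) (hC : 0 ≤ C) (hδ : 0 < δ) (D : ℕ) (a : MvPolynomial (Fin n) ℤ)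
    (C₁ δ₁ : ℝ) (hC₁ : 0 < C₁) (hδ₁ : 0 < δ₁) (ha : Bd C δ C₁ δ₁ (fun x => MvPolynomial.eval (fun i => (x i : ℤ)) a)) :
    ∃ C' δ' : ℝ, 0 < C' ∧ 0 < δ' ∧ ∀ f : Polynomial (MvPolynomial (Fin n) ℤ), f.natDegree = D → f.leadingCoeff = a →
      Bd (n := n + 1) C δ C' δ' (fun x =>
        (f.map (MvPolynomial.eval (fun i : Fin n => (x i.succ : ℤ)))).eval (x 0 : ℤ)) := by
  classical
  have hD0 : (0 : ℝ) < D + 1 := by positivity
  obtain ⟨ε, hε⟩ : ∃ ε : ℝ, ε = min (δ₁ / 4) (δ / (4 * (D + 1) ^ 2)) := ⟨_, rfl⟩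
  have hε0 : 0 < ε := by rw [hε]; positivity
  have hε1 : ε ≤ δ₁ / 4 := by rw [hε]; exact min_le_left _ _
  have hε2 : ε ≤ δ / (4 * (D + 1) ^ 2) := by rw [hε]; exact min_le_right _ _
  obtain ⟨Ce, hCe0, hCe⟩ := Pool.Agent.Helper112.divisor_bound ε hε0
  obtain ⟨δ', hδ'⟩ : ∃ δ' : ℝ, δ' = min (δ₁ / 4) (δ / (4 * (D + 1))) := ⟨_, rfl⟩
  have hδ'0 : 0 < δ' := by rw [hδ']; positivity
  have hδ'1 : δ' ≤ δ₁ / 4 := by rw [hδ']; exact min_le_left _ _
  have hδ'2 : δ' ≤ δ / (4 * (D + 1)) := by rw [hδ']; exact min_le_right _ _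
  refine ⟨Ce * C₁ + Ce ^ D * C, δ', by positivity, hδ'0, fun f hfD hfa R W hW q hq hqR => ?_⟩
  have hq1 : (1 : ℝ) ≤ q := by exact_mod_cast hq
  have hq0 : (0 : ℝ) < q := by linarith
  obtain ⟨Ω', hΩ'⟩ : ∃ Ω', Ω' = Fintype.piFinset (fun i : Fin n => W i.succ) := ⟨_, rfl⟩
  obtain ⟨av, hav⟩ : ∃ av : (Fin n → ℕ) → ℤ, av = fun x => MvPolynomial.eval (fun i => (x i : ℤ)) a := ⟨_, rfl⟩
  rw [pi_split W, pi_card W, ← hΩ']
  push_cast
  -- the exceptional part
  obtain ⟨X, hX⟩ : ∃ X, X = Ω'.filter (fun x' => (q : ℝ) ^ (1 / 2 : ℝ) ≤ (Int.gcd (av x') q : ℝ)) := ⟨_, rfl⟩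
  have hXc : (X.card : ℝ) ≤ Ce * C₁ * (q : ℝ) ^ (-δ') * Ω'.card := by
    have hcov : X ⊆ (q.divisors.filter (fun r : ℕ => (q : ℝ) ^ (1 / 2 : ℝ) ≤ r)).biUnion
        (fun r => Ω'.filter (fun x' => (r : ℤ) ∣ av x')) := by
      intro x' hx'
      rw [hX, mem_filter] at hx'
      rw [mem_biUnion]
      refine ⟨Int.gcd (av x') q, ?_, ?_⟩
      · rw [mem_filter, Nat.mem_divisors]
        refine ⟨⟨?_, by omega⟩, hx'.2⟩
        have := Int.gcd_dvd_right (av x') (q : ℤ)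
        exact_mod_cast this
      · rw [mem_filter]
        exact ⟨hx'.1, Int.gcd_dvd_left (av x') (q : ℤ)⟩
    have h1 : (X.card : ℝ) ≤ ∑ r ∈ q.divisors.filter (fun r : ℕ => (q : ℝ) ^ (1 / 2 : ℝ) ≤ r),
        ((Ω'.filter (fun x' => (r : ℤ) ∣ av x')).card : ℝ) := by
      exact_mod_cast (card_le_card hcov).trans card_biUnion_le
    have h2 : ∀ r ∈ q.divisors.filter (fun r : ℕ => (q : ℝ) ^ (1 / 2 : ℝ) ≤ r),
        ((Ω'.filter (fun x' => (r : ℤ) ∣ av x')).card : ℝ) ≤ C₁ * (q : ℝ) ^ (-(δ₁ / 2)) * Ω'.card := by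
      intro r hr
      rw [mem_filter, Nat.mem_divisors] at hr
      have hr0 : 0 < r := Nat.pos_of_dvd_of_pos hr.1.1 (by omega)
      have hrq : (r : ℝ) ≤ q := by exact_mod_cast Nat.le_of_dvd (by omega) hr.1.1
      have h3 := ha R (fun i => W i.succ) (fun i => hW i.succ) r hr0 (hrq.trans hqR)
      rw [← hΩ'] at h3
      rw [hav]
      refine h3.trans ?_
      apply mul_le_mul_of_nonneg_right _ (Nat.cast_nonneg _)
      apply mul_le_mul_of_nonneg_left _ hC₁.le
      calc (r : ℝ) ^ (-δ₁) ≤ ((q : ℝ) ^ (1 / 2 : ℝ)) ^ (-δ₁) :=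
            Real.rpow_le_rpow_of_nonpos (Real.rpow_pos_of_pos hq0 _) hr.2 (by linarith)
        _ = (q : ℝ) ^ (-(δ₁ / 2)) := by
            rw [← Real.rpow_mul hq0.le]
            congr 1
            ring
    refine (h1.trans (sum_le_sum h2)).trans ?_
    rw [sum_const, nsmul_eq_mul]
    have h3 : (((q.divisors.filter (fun r : ℕ => (q : ℝ) ^ (1 / 2 : ℝ) ≤ r)).card : ℕ) : ℝ) ≤ Ce * (q : ℝ) ^ ε := by
      refine le_trans ?_ (hCe q hq)
      exact_mod_cast card_filter_le _ _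
    have h4 : 0 ≤ C₁ * (q : ℝ) ^ (-(δ₁ / 2)) * Ω'.card := by positivity
    refine (mul_le_mul_of_nonneg_right h3 h4).trans ?_
    have h5 : (q : ℝ) ^ ε * (q : ℝ) ^ (-(δ₁ / 2)) ≤ (q : ℝ) ^ (-δ') := by
      rw [← Real.rpow_add hq0]
      exact Real.rpow_le_rpow_of_exponent_le hq1 (by linarith)
    calc Ce * (q : ℝ) ^ ε * (C₁ * (q : ℝ) ^ (-(δ₁ / 2)) * Ω'.card) =
          Ce * C₁ * ((q : ℝ) ^ ε * (q : ℝ) ^ (-(δ₁ / 2))) * Ω'.card := by ring
      _ ≤ _ := by gcongr
  -- the main part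
  obtain ⟨Z, hZ⟩ : ∃ Z : ℝ, Z = (q : ℝ) ^ (1 / (2 * ((D : ℝ) + 1))) := ⟨_, rfl⟩
  have hZ1 : 1 ≤ Z := by rw [hZ]; exact Real.one_le_rpow hq1 (by positivity)
  have hfib : ∀ x' ∈ Ω', ¬ x' ∈ X → (((W 0).filter (fun t : ℕ => (q : ℤ) ∣
      (f.map (MvPolynomial.eval (fun i : Fin n => (((Fin.cons t x' : Fin (n + 1) → ℕ) i.succ : ℕ) : ℤ)))).eval
        (((Fin.cons t x' : Fin (n + 1) → ℕ) 0 : ℕ) : ℤ))).card : ℝ) ≤
      Ce ^ D * C * (q : ℝ) ^ (-δ') * (W 0).card := by
    intro x' hx' hxX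
    have hg : (Int.gcd (av x') q : ℝ) < (q : ℝ) ^ (1 / 2 : ℝ) := by
      by_contra hcon
      push Not at hcon
      exact hxX (by rw [hX, mem_filter]; exact ⟨hx', hcon⟩)
    have hav0 : av x' ≠ 0 := by
      intro h0
      rw [h0, Int.gcd_zero_left, Int.natAbs_natCast] at hg
      have : (q : ℝ) ^ (1 / 2 : ℝ) ≤ (q : ℝ) ^ (1 : ℝ) := Real.rpow_le_rpow_of_exponent_le hq1 (by norm_num)
      rw [Real.rpow_one] at this
      linarith
    obtain ⟨ev, hev⟩ : ∃ ev : MvPolynomial (Fin n) ℤ →+* ℤ, ev = MvPolynomial.eval (fun i => (x' i : ℤ)) := ⟨_, rfl⟩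
    have hlc : ev f.leadingCoeff ≠ 0 := by
      rw [hfa, hev]
      rw [hav] at hav0
      exact hav0
    have hnd : (f.map ev).natDegree = D := by
      rw [Polynomial.natDegree_map_of_leadingCoeff_ne_zero ev hlc, hfD]
    have hlead : (f.map ev).leadingCoeff = av x' := by
      rw [Polynomial.leadingCoeff_map_of_leadingCoeff_ne_zero ev hlc, hfa, hev, hav]
    have hT : ∀ r ∈ q.divisors, r.divisors.card ≤ q.divisors.card := by
      intro r hr
      rw [Nat.mem_divisors] at hr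
      exact card_le_card (Nat.divisors_subset_of_dvd (by omega) hr.1)
    have h1 := conc_one (W 0) C δ R hC hδ (hW 0) D (f.map ev) hnd q hq hqR q.divisors.card hT Z hZ1 (by
      rw [hlead]
      have hZD : Z ^ D ≤ (q : ℝ) ^ (1 / 2 : ℝ) := by
        rw [hZ, ← Real.rpow_natCast, ← Real.rpow_mul hq0.le]
        apply Real.rpow_le_rpow_of_exponent_le hq1
        rw [div_mul_eq_mul_div, one_mul, div_le_div_iff₀ (by positivity) (by norm_num)]
        linarith
      have hZD0 : 0 < Z ^ D := by positivity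
      calc (Int.gcd (av x') q : ℝ) * Z ^ D < (q : ℝ) ^ (1 / 2 : ℝ) * Z ^ D := mul_lt_mul_of_pos_right hg hZD0
        _ ≤ (q : ℝ) ^ (1 / 2 : ℝ) * (q : ℝ) ^ (1 / 2 : ℝ) := by gcongr
        _ = q := by rw [← Real.rpow_add hq0]; norm_num)
    have e1 : (W 0).filter (fun t : ℕ => (q : ℤ) ∣
      (f.map (MvPolynomial.eval (fun i : Fin n => (((Fin.cons t x' : Fin (n + 1) → ℕ) i.succ : ℕ) : ℤ)))).eval
        (((Fin.cons t x' : Fin (n + 1) → ℕ) 0 : ℕ) : ℤ)) = (W 0).filter (fun t : ℕ => (q : ℤ) ∣ (f.map ev).eval (t : ℤ)) := by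
      apply filter_congr
      intro t _
      simp only [Fin.cons_succ, Fin.cons_zero]
      rw [hev]
    rw [e1]
    refine h1.trans ?_
    apply mul_le_mul_of_nonneg_right _ (Nat.cast_nonneg _)
    have h2 : ((q.divisors.card : ℕ) : ℝ) ^ D ≤ Ce ^ D * (q : ℝ) ^ (D * ε) := by
      calc ((q.divisors.card : ℕ) : ℝ) ^ D ≤ (Ce * (q : ℝ) ^ ε) ^ D := pow_le_pow_left₀ (Nat.cast_nonneg _) (hCe q hq) _
        _ = Ce ^ D * (q : ℝ) ^ (D * ε) := by
            rw [mul_pow]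
            congr 1
            rw [← Real.rpow_natCast, ← Real.rpow_mul hq0.le]
            congr 1
            ring
    have h3 : Z ^ (-δ) = (q : ℝ) ^ (-(δ / (2 * ((D : ℝ) + 1)))) := by
      rw [hZ, ← Real.rpow_mul hq0.le]
      congr 1
      ring
    have h4 : (q : ℝ) ^ (D * ε) * (q : ℝ) ^ (-(δ / (2 * ((D : ℝ) + 1)))) ≤ (q : ℝ) ^ (-δ') := by
      rw [← Real.rpow_add hq0]
      apply Real.rpow_le_rpow_of_exponent_le hq1
      have h5 : (D : ℝ) * ε ≤ δ / (4 * (D + 1)) := by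
        calc (D : ℝ) * ε ≤ (D + 1) * (δ / (4 * (D + 1) ^ 2)) := by
              apply mul_le_mul (by linarith) hε2 hε0.le (by positivity)
          _ = δ / (4 * (D + 1)) := by field_simp
      have h6 : δ / (2 * ((D : ℝ) + 1)) = 2 * (δ / (4 * (D + 1))) := by
        field_simp
        norm_num
      rw [h6]
      linarith
    rw [h3]
    have h7 : 0 ≤ C * (q : ℝ) ^ (-(δ / (2 * ((D : ℝ) + 1)))) := by positivity
    calc ((q.divisors.card : ℕ) : ℝ) ^ D * (C * (q : ℝ) ^ (-(δ / (2 * ((D : ℝ) + 1))))) ≤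
          Ce ^ D * (q : ℝ) ^ (D * ε) * (C * (q : ℝ) ^ (-(δ / (2 * ((D : ℝ) + 1))))) := mul_le_mul_of_nonneg_right h2 h7
      _ = Ce ^ D * C * ((q : ℝ) ^ (D * ε) * (q : ℝ) ^ (-(δ / (2 * ((D : ℝ) + 1))))) := by ring
      _ ≤ _ := by gcongr
  obtain ⟨cn, hcn⟩ : ∃ cn : (Fin n → ℕ) → ℕ, cn = fun x' => ((W 0).filter (fun t : ℕ => (q : ℤ) ∣
      (f.map (MvPolynomial.eval (fun i : Fin n => (((Fin.cons t x' : Fin (n + 1) → ℕ) i.succ : ℕ) : ℤ)))).eval
        (((Fin.cons t x' : Fin (n + 1) → ℕ) 0 : ℕ) : ℤ))).card := ⟨_, rfl⟩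
  have hfib' : ∀ x' ∈ Ω', ¬ x' ∈ X → (cn x' : ℝ) ≤ Ce ^ D * C * (q : ℝ) ^ (-δ') * (W 0).card := by
    rw [hcn]; exact hfib
  have htot : ∑ x' ∈ Ω', (cn x' : ℝ) ≤ ∑ x' ∈ Ω', ((if x' ∈ X then ((W 0).card : ℝ) else 0) +
      Ce ^ D * C * (q : ℝ) ^ (-δ') * (W 0).card) := by
    apply sum_le_sum
    intro x' hx'
    have hnn : 0 ≤ Ce ^ D * C * (q : ℝ) ^ (-δ') * (W 0).card := by positivity
    by_cases h : x' ∈ X
    · rw [if_pos h]
      have : (cn x' : ℝ) ≤ (W 0).card := by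
        rw [hcn]
        exact_mod_cast card_filter_le _ _
      linarith
    · rw [if_neg h, zero_add]
      exact hfib' x' hx' h
  have hgoal : ∑ x' ∈ Ω', (cn x' : ℝ) ≤ (Ce * C₁ + Ce ^ D * C) * (q : ℝ) ^ (-δ') * (((W 0).card : ℝ) * Ω'.card) := by
    refine htot.trans ?_
    rw [sum_add_distrib, sum_const, nsmul_eq_mul, ← sum_filter]
    have e1 : Ω'.filter (fun x' => x' ∈ X) = X := by
      ext x'
      rw [mem_filter]
      constructor
      · exact fun h => h.2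
      · intro h
        refine ⟨?_, h⟩
        rw [hX, mem_filter] at h
        exact h.1
    rw [e1, sum_const, nsmul_eq_mul]
    have h1 : (X.card : ℝ) * (W 0).card ≤ Ce * C₁ * (q : ℝ) ^ (-δ') * Ω'.card * (W 0).card :=
      mul_le_mul_of_nonneg_right hXc (Nat.cast_nonneg _)
    calc (X.card : ℝ) * (W 0).card + Ω'.card * (Ce ^ D * C * (q : ℝ) ^ (-δ') * (W 0).card) ≤
          Ce * C₁ * (q : ℝ) ^ (-δ') * Ω'.card * (W 0).card + Ω'.card * (Ce ^ D * C * (q : ℝ) ^ (-δ') * (W 0).card) := by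
            linarith
      _ = _ := by ring
  rw [hcn] at hgoal
  exact hgoal

/-- the values of a nonzero polynomial -/
theorem mv_conc (C δ : ℝ) (hC : 0 ≤ C) (hδ : 0 < δ) (n : ℕ) : ∀ F : MvPolynomial (Fin n) ℤ, F ≠ 0 →
    ∃ C' δ' : ℝ, 0 < C' ∧ 0 < δ' ∧ Bd C δ C' δ' (fun x => MvPolynomial.eval (fun i => (x i : ℤ)) F) := by
  induction n with
  | zero =>
    intro F hF
    obtain ⟨c, hc⟩ : ∃ c : ℤ, F = MvPolynomial.C c := ⟨_, MvPolynomial.eq_C_of_isEmpty F⟩
    have hc0 : c ≠ 0 := by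
      rintro rfl
      exact hF (by rw [hc, MvPolynomial.C_0])
    have hcn : 0 < c.natAbs := Int.natAbs_pos.2 hc0
    refine ⟨c.natAbs, 1, by exact_mod_cast hcn, one_pos, fun R W hW q hq hqR => ?_⟩
    have hq0 : (0 : ℝ) < q := by exact_mod_cast hq
    have hnn : 0 ≤ (c.natAbs : ℝ) * (q : ℝ) ^ (-1 : ℝ) * (Fintype.piFinset W).card := by positivity
    by_cases h : (q : ℤ) ∣ c
    · have h1 : (q : ℝ) ≤ c.natAbs := by
        exact_mod_cast Nat.le_of_dvd hcn (Int.natCast_dvd.1 h)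
      have h2 : 1 ≤ (c.natAbs : ℝ) * (q : ℝ) ^ (-1 : ℝ) := by
        rw [Real.rpow_neg_one, ← div_eq_mul_inv, le_div_iff₀ hq0, one_mul]
        exact h1
      have h3 : (((Fintype.piFinset W).filter (fun x => (q : ℤ) ∣ MvPolynomial.eval (fun i => (x i : ℤ)) F)).card : ℝ) ≤
          (Fintype.piFinset W).card := by exact_mod_cast card_filter_le _ _
      have h4 : (0 : ℝ) ≤ (Fintype.piFinset W).card := Nat.cast_nonneg _
      nlinarith
    · have h1 : (Fintype.piFinset W).filter (fun x => (q : ℤ) ∣ MvPolynomial.eval (fun i => (x i : ℤ)) F) = ∅ := by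
        rw [filter_eq_empty_iff]
        intro x _ hx
        rw [hc, MvPolynomial.eval_C] at hx
        exact h hx
      rw [h1, card_empty, Nat.cast_zero]
      exact hnn
  | succ n ih =>
    intro F hF
    obtain ⟨f, hf⟩ : ∃ f, f = MvPolynomial.finSuccEquiv ℤ n F := ⟨_, rfl⟩
    have hf0 : f ≠ 0 := by
      rw [hf]
      intro h
      exact hF ((MvPolynomial.finSuccEquiv ℤ n).injective (by rw [h, map_zero]))
    obtain ⟨C₁, δ₁, hC₁, hδ₁, h1⟩ := ih f.leadingCoeff (Polynomial.leadingCoeff_ne_zero.2 hf0)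
    obtain ⟨C', δ', hC', hδ', h2⟩ := bd_step C δ hC hδ f.natDegree f.leadingCoeff C₁ δ₁ hC₁ hδ₁ h1
    refine ⟨C', δ', hC', hδ', ?_⟩
    have h3 := h2 f rfl rfl
    have e : (fun x : Fin (n + 1) → ℕ => MvPolynomial.eval (fun i => (x i : ℤ)) F) = (fun x =>
        (f.map (MvPolynomial.eval (fun i : Fin n => (x i.succ : ℤ)))).eval (x 0 : ℤ)) := by
      funext x
      have e1 : (fun i => (x i : ℤ)) = (Fin.cons (x 0 : ℤ) (fun i : Fin n => (x i.succ : ℤ)) : Fin (n + 1) → ℤ) := by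
        funext i
        refine Fin.cases ?_ ?_ i
        · rfl
        · intro j; rfl
      rw [e1, MvPolynomial.eval_eq_eval_mv_eval', ← hf]
    rw [e]
    exact h3

/-- the values of a polynomial which is not constant, uniformly in the constant term -/
theorem mv_conc_shift (C δ : ℝ) (hC : 0 ≤ C) (hδ : 0 < δ) (n : ℕ) : ∀ F : MvPolynomial (Fin n) ℤ,
    (∀ c, F ≠ MvPolynomial.C c) → ∃ C' δ' : ℝ, 0 < C' ∧ 0 < δ' ∧ ∀ c₀ : ℤ,
      Bd C δ C' δ' (fun x => MvPolynomial.eval (fun i => (x i : ℤ)) F + c₀) := by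
  classical
  induction n with
  | zero =>
    intro F hF
    exact absurd (MvPolynomial.eq_C_of_isEmpty F) (hF _)
  | succ n ih =>
    intro F hF
    obtain ⟨f, hf⟩ : ∃ f, f = MvPolynomial.finSuccEquiv ℤ n F := ⟨_, rfl⟩
    have hf0 : f ≠ 0 := by
      rw [hf]
      intro h
      exact hF 0 ((MvPolynomial.finSuccEquiv ℤ n).injective (by rw [h, map_zero, map_zero]))
    have hev : ∀ x : Fin (n + 1) → ℕ, MvPolynomial.eval (fun i => (x i : ℤ)) F =
        (f.map (MvPolynomial.eval (fun i : Fin n => (x i.succ : ℤ)))).eval (x 0 : ℤ) := by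
      intro x
      have e1 : (fun i => (x i : ℤ)) = (Fin.cons (x 0 : ℤ) (fun i : Fin n => (x i.succ : ℤ)) : Fin (n + 1) → ℤ) := by
        funext i
        refine Fin.cases ?_ ?_ i
        · rfl
        · intro j; rfl
      rw [e1, MvPolynomial.eval_eq_eval_mv_eval', ← hf]
    rcases Nat.eq_zero_or_pos f.natDegree with hD | hD
    · -- no dependence on the first variable
      have hfC : f = Polynomial.C (f.coeff 0) := Polynomial.eq_C_of_natDegree_eq_zero hD
      obtain ⟨C', δ', hC', hδ', h1⟩ := ih (f.coeff 0) (by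
        intro c hc
        apply hF c
        apply (MvPolynomial.finSuccEquiv ℤ n).injective
        rw [← hf, hfC, hc, MvPolynomial.finSuccEquiv_apply, MvPolynomial.eval₂Hom_C]
        rfl)
      refine ⟨C', δ', hC', hδ', fun c₀ R W hW q hq hqR => ?_⟩
      have h2 := h1 c₀ R (fun i => W i.succ) (fun i => hW i.succ) q hq hqR
      rw [pi_split W, pi_card W]
      have h3 : ∀ x' ∈ Fintype.piFinset (fun i : Fin n => W i.succ), ((W 0).filter (fun t : ℕ => (q : ℤ) ∣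
          MvPolynomial.eval (fun i => (((Fin.cons t x' : Fin (n + 1) → ℕ) i : ℕ) : ℤ)) F + c₀)).card =
          if (q : ℤ) ∣ MvPolynomial.eval (fun i => (x' i : ℤ)) (f.coeff 0) + c₀ then (W 0).card else 0 := by
        intro x' _
        have e2 : ∀ t : ℕ, MvPolynomial.eval (fun i => (((Fin.cons t x' : Fin (n + 1) → ℕ) i : ℕ) : ℤ)) F =
            MvPolynomial.eval (fun i => (x' i : ℤ)) (f.coeff 0) := by
          intro t
          rw [hev]
          have e3 : Polynomial.map (MvPolynomial.eval (fun i : Fin n => (((Fin.cons t x' : Fin (n + 1) → ℕ) i.succ : ℕ) : ℤ))) f =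
              Polynomial.C (MvPolynomial.eval (fun i => (x' i : ℤ)) (f.coeff 0)) := by
            conv_lhs => rw [hfC]
            rw [Polynomial.map_C]
            simp only [Fin.cons_succ]
          rw [e3, Polynomial.eval_C]
        simp only [e2]
        split_ifs with h
        · rw [filter_true_of_mem (fun _ _ => h)]
        · rw [filter_false_of_mem (fun _ _ => h), card_empty]
      rw [sum_congr rfl h3, ← sum_filter, sum_const, smul_eq_mul]
      push_cast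
      calc _ ≤ (C' * (q : ℝ) ^ (-δ') * ((Fintype.piFinset (fun i : Fin n => W i.succ)).card : ℝ)) * (W 0).card :=
            mul_le_mul_of_nonneg_right h2 (Nat.cast_nonneg _)
        _ = _ := by ring
    · obtain ⟨C₁, δ₁, hC₁, hδ₁, h1⟩ := mv_conc C δ hC hδ n f.leadingCoeff (Polynomial.leadingCoeff_ne_zero.2 hf0)
      obtain ⟨C', δ', hC', hδ', h2⟩ := bd_step C δ hC hδ f.natDegree f.leadingCoeff C₁ δ₁ hC₁ hδ₁ h1
      refine ⟨C', δ', hC', hδ', fun c₀ => ?_⟩
      have h3 := h2 (f + Polynomial.C (MvPolynomial.C c₀)) (Polynomial.natDegree_add_C) (by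
        rw [Polynomial.leadingCoeff_add_of_degree_lt']
        refine lt_of_le_of_lt Polynomial.degree_C_le ?_
        exact Polynomial.natDegree_pos_iff_degree_pos.1 hD)
      have e : (fun x : Fin (n + 1) → ℕ => MvPolynomial.eval (fun i => (x i : ℤ)) F + c₀) = (fun x =>
          ((f + Polynomial.C (MvPolynomial.C c₀)).map (MvPolynomial.eval (fun i : Fin n => (x i.succ : ℤ)))).eval
            (x 0 : ℤ)) := by
        funext x
        rw [hev, Polynomial.map_add, Polynomial.map_C, MvPolynomial.eval_C, Polynomial.eval_add, Polynomial.eval_C]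
      rw [e]
      exact h3

end Pool.Agent.H56.PD
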