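import Pool.Agent.H56.PD.Nest

/-! Blocks of digits. -/

set_option autoImplicit false

namespace Pool.Agent.H56.PD

open Finset
open Pool.Agent.H807R2.Dav
open Pool.Agent.Y885

lemma dig_abs (b : ℕ) (hb : 2 ≤ b) (e : ℕ → ℤ) (he : ∀ j, |e j| ≤ (b : ℤ) - 1) (lo hi : ℕ) (h : lo ≤ hi) :
    |∑ j ∈ Ico lo hi, e j * (b : ℤ) ^ j| < (b : ℤ) ^ hi := by
  have hb0 : (0 : ℤ) < b := by exact_mod_cast (by omega : 0 < b)
  induction hi, h using Nat.le_induction with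
  | base => simpa using pow_pos hb0 lo
  | succ hi h ih =>
    rw [sum_Ico_succ_top h]
    refine (abs_add_le _ _).trans_lt ?_
    rw [abs_mul, abs_of_pos (pow_pos hb0 hi)]
    have h1 := mul_le_mul_of_nonneg_right (he hi) (pow_pos hb0 hi).le
    rw [pow_succ]
    linarith

lemma dig_dvd (b : ℕ) (e : ℕ → ℤ) (lo hi : ℕ) : (b : ℤ) ^ lo ∣ ∑ j ∈ Ico lo hi, e j * (b : ℤ) ^ j := by
  apply dvd_sum
  intro j hj
  rw [mem_Ico] at hj
  exact Dvd.dvd.mul_left (pow_dvd_pow _ hj.1) _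

lemma dig_zero (b : ℕ) (hb : 2 ≤ b) (e : ℕ → ℤ) (he : ∀ j, |e j| ≤ (b : ℤ) - 1) (lo hi : ℕ) (h : lo ≤ hi)
    (h0 : ∑ j ∈ Ico lo hi, e j * (b : ℤ) ^ j = 0) : ∀ j ∈ Ico lo hi, e j = 0 := by
  have hb0 : (0 : ℤ) < b := by exact_mod_cast (by omega : 0 < b)
  induction hi, h using Nat.le_induction with
  | base => intro j hj; simp at hj
  | succ hi h ih =>
    rw [sum_Ico_succ_top h] at h0
    have h1 := dig_abs b hb e he lo hi h
    have h2 : e hi = 0 := by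
      have h3 : ∑ j ∈ Ico lo hi, e j * (b : ℤ) ^ j = - (e hi * (b : ℤ) ^ hi) := by linarith
      rw [h3, abs_neg, abs_mul, abs_of_pos (pow_pos hb0 hi)] at h1
      have h4 : |e hi| < 1 := by
        by_contra hcon
        push Not at hcon
        have := mul_le_mul_of_nonneg_right hcon (pow_pos hb0 hi).le
        linarith
      exact Int.abs_lt_one_iff.1 h4
    rw [h2, zero_mul, add_zero] at h0
    intro j hj
    rw [mem_Ico] at hj
    rcases Nat.lt_or_ge j hi with h3 | h3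
    · exact ih h0 j (mem_Ico.2 ⟨hj.1, h3⟩)
    · rw [show j = hi by omega]; exact h2

variable {n k : ℕ}

/-- the digits of the variable `w` in positions `lo ≤ j < hi` -/
def blk (w : Fin n) (lo hi : ℕ) : Finset (Fin n × Fin k) := univ.filter (fun i => i.1 = w ∧ lo ≤ (i.2 : ℕ) ∧ (i.2 : ℕ) < hi)

lemma mem_blk (w : Fin n) (lo hi : ℕ) (i : Fin n × Fin k) : i ∈ blk (k := k) w lo hi ↔ i.1 = w ∧ lo ≤ (i.2 : ℕ) ∧ (i.2 : ℕ) < hi := by
  unfold blk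
  rw [mem_filter]
  exact ⟨fun h => h.2, fun h => ⟨mem_univ _, h⟩⟩

lemma sum_blk {M : Type*} [AddCommMonoid M] (w : Fin n) (lo hi : ℕ) (hhi : hi ≤ k) (f : Fin n × Fin k → M) (g : ℕ → M)
    (hg : ∀ j (h : j < k), g j = f (w, ⟨j, h⟩)) : ∑ i ∈ blk w lo hi, f i = ∑ j ∈ Ico lo hi, g j := by
  refine sum_bij (fun i _ => (i.2 : ℕ)) ?_ ?_ ?_ ?_
  · intro i hi
    rw [mem_blk] at hi
    exact mem_Ico.2 hi.2
  · intro i hi i' hi' h
    rw [mem_blk] at hi hi'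
    exact Prod.ext (hi.1.trans hi'.1.symm) (Fin.ext h)
  · intro j hj
    rw [mem_Ico] at hj
    exact ⟨(w, ⟨j, by omega⟩), (mem_blk _ _ _ _).2 ⟨rfl, hj⟩, rfl⟩
  · intro i hi
    rw [mem_blk] at hi
    rw [hg i.2 i.2.2]
    congr 1
    exact Prod.ext hi.1 rfl

lemma card_blk (w : Fin n) (lo hi : ℕ) (hhi : hi ≤ k) : (blk (k := k) w lo hi).card = hi - lo := by
  rw [card_eq_sum_ones, sum_blk w lo hi hhi (fun _ => 1) (fun _ => 1) (fun _ _ => rfl), sum_const, Nat.card_Ico]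
  simp

/-- the weights -/
def wtb (b : ℕ) (i : Fin n × Fin k) : ℤ := (b : ℤ) ^ (i.2 : ℕ)

/-- the differences of a block of digits -/
lemma ws_blk (b : ℕ) (hb : 2 ≤ b) (A : Fin n × Fin k → Finset ℤ) (hA : ∀ i, ∀ x ∈ A i, 0 ≤ x ∧ x < b) (w : Fin n) (lo hi : ℕ) (hlo : lo ≤ hi) (hhi : hi ≤ k)
    (a : Fin n × Fin k → ℤ) (ha : a ∈ Fintype.piFinset A) (a' : Fin n × Fin k → ℤ) (ha' : a' ∈ Fintype.piFinset A) :
    (ws (wtb b) (blk w lo hi) a - ws (wtb b) (blk w lo hi) a' ≠ 0 →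
      (b : ℤ) ^ lo ≤ |ws (wtb b) (blk w lo hi) a - ws (wtb b) (blk w lo hi) a'| ∧
      |ws (wtb b) (blk w lo hi) a - ws (wtb b) (blk w lo hi) a'| ≤ (b : ℤ) ^ hi) ∧
    (ws (wtb b) (blk w lo hi) a - ws (wtb b) (blk w lo hi) a' = 0 → ∀ i ∈ blk w lo hi, a i = a' i) := by
  have hb0 : (0 : ℤ) < b := by exact_mod_cast (by omega : 0 < b)
  obtain ⟨e, he⟩ : ∃ e : ℕ → ℤ, e = fun j => if h : j < k then a (w, ⟨j, h⟩) - a' (w, ⟨j, h⟩) else 0 := ⟨_, rfl⟩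
  have h1 : ws (wtb b) (blk w lo hi) a - ws (wtb b) (blk w lo hi) a' = ∑ j ∈ Ico lo hi, e j * (b : ℤ) ^ j := by
    unfold ws
    rw [← sum_sub_distrib]
    apply sum_blk w lo hi hhi
    intro j h
    rw [he]
    simp only [dif_pos h, wtb]
    ring
  rw [Fintype.mem_piFinset] at ha ha'
  have h2 : ∀ j, |e j| ≤ (b : ℤ) - 1 := by
    intro j
    rw [he]
    simp only
    split_ifs with h
    · have h3 := hA _ _ (ha (w, ⟨j, h⟩))
      have h4 := hA _ _ (ha' (w, ⟨j, h⟩))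
      rw [abs_le]
      constructor <;> linarith [h3.1, h3.2, h4.1, h4.2]
    · rw [abs_zero]
      linarith [(by exact_mod_cast hb : (2 : ℤ) ≤ b)]
  rw [h1]
  refine ⟨fun h0 => ⟨?_, (dig_abs b hb e h2 lo hi hlo).le⟩, fun h0 i hi' => ?_⟩
  · exact Int.le_of_dvd (abs_pos.2 h0) ((dvd_abs _ _).2 (dig_dvd b e lo hi))
  · rw [mem_blk] at hi'
    have h3 := dig_zero b hb e h2 lo hi hlo h0 i.2 (mem_Ico.2 hi'.2)
    rw [he] at h3
    simp only [dif_pos i.2.2] at h3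
    have h4 : i = (w, i.2) := Prod.ext hi'.1 rfl
    rw [h4]
    linarith

end Pool.Agent.H56.PD
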