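import Pool.Agent.H56.PD.Piece

/-! Unions of thin sets; the far positions of the common differences. -/

set_option autoImplicit false

namespace Pool.Agent.H56.PD

open Finset
open Pool.Agent.H807R2.Dav
open Pool.Agent.Y885

lemma thin_union (b E Q₁ Q₂ k m : ℕ) (S₁ S₂ : Finset ℕ) (h₁ : Thin b E Q₁ k m S₁) (h₂ : Thin b E Q₂ k m S₂) :
    Thin b E (Q₁ + Q₂) k m (S₁ ∪ S₂) := by
  refine ⟨?_, ?_, ?_, ?_⟩
  · intro t ht
    rcases mem_union.1 ht with h | h
    · exact h₁.lt t h
    · exact h₂.lt t h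
  · intro i hi
    rw [image_union, add_mul]
    calc _ ≤ ((S₁.image (fun t => t / b ^ (k - 2 * i))).card + (S₂.image (fun t => t / b ^ (k - 2 * i))).card) * b ^ (i / E) :=
          Nat.mul_le_mul_right _ (card_union_le _ _)
      _ = (S₁.image (fun t => t / b ^ (k - 2 * i))).card * b ^ (i / E) + (S₂.image (fun t => t / b ^ (k - 2 * i))).card * b ^ (i / E) := by ring
      _ ≤ _ := Nat.add_le_add (h₁.bot i hi) (h₂.bot i hi)
  · intro j x hj
    rw [filter_union, add_mul]
    calc _ ≤ ((S₁.filter (fun t => x ≤ t ∧ t < x + b ^ j)).card + (S₂.filter (fun t => x ≤ t ∧ t < x + b ^ j)).card) * b ^ (j / E) :=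
          Nat.mul_le_mul_right _ (card_union_le _ _)
      _ = (S₁.filter (fun t => x ≤ t ∧ t < x + b ^ j)).card * b ^ (j / E) + (S₂.filter (fun t => x ≤ t ∧ t < x + b ^ j)).card * b ^ (j / E) := by ring
      _ ≤ _ := Nat.add_le_add (h₁.top j x hj) (h₂.top j x hj)
  · rw [add_mul]
    calc _ ≤ (S₁.card + S₂.card) * b ^ (k / E) := Nat.mul_le_mul_right _ (card_union_le _ _)
      _ = S₁.card * b ^ (k / E) + S₂.card * b ^ (k / E) := by ring
      _ ≤ _ := Nat.add_le_add h₁.all h₂.all

lemma thin_mono (b E Q Q' k m : ℕ) (hQ : Q ≤ Q') (S : Finset ℕ) (h : Thin b E Q k m S) : Thin b E Q' k m S :=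
  ⟨h.lt, fun i hi => (h.bot i hi).trans (Nat.mul_le_mul_right _ hQ), fun j x hj => (h.top j x hj).trans (Nat.mul_le_mul_right _ hQ),
    h.all.trans (Nat.mul_le_mul_right _ hQ)⟩

/-- a set all of whose subsets have large thin subsets is thin -/
lemma thin_pieces (b E Q k m R : ℕ) (hb : 2 ≤ b) (hR : 1 ≤ R) (S : Finset ℕ) (hS : ∀ t ∈ S, t < b ^ (k + 1))
    (h : ∀ T ⊆ S, ∃ T' ⊆ T, T.card ≤ R * T'.card ∧ Thin b E Q k m T') : Thin b E (R * (b * (k + 2)) * Q) k m S := by
  have hRr : (1 : ℝ) ≤ R := by exact_mod_cast hR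
  have hR0 : (0 : ℝ) < R := by linarith
  have hq0 : (0 : ℝ) ≤ 1 - 1 / R := by
    have : 1 / (R : ℝ) ≤ 1 := by rw [div_le_one hR0]; exact hRr
    linarith
  have claim : ∀ j : ℕ, ∃ T ⊆ S, Thin b E (j * Q) k m (S \ T) ∧ (T.card : ℝ) ≤ S.card * (1 - 1 / R) ^ j := by
    intro j
    induction j with
    | zero =>
      refine ⟨S, Subset.refl _, ?_, by simp⟩
      rw [sdiff_self]
      exact ⟨by simp, by simp, by simp, by simp⟩
    | succ j ih =>
      obtain ⟨T, hT, h1, h2⟩ := ih
      obtain ⟨T', hT', h3, h4⟩ := h T hT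
      refine ⟨T \ T', sdiff_subset.trans hT, ?_, ?_⟩
      · have h5 := thin_union b E (j * Q) Q k m _ _ h1 h4
        have h6 : S \ (T \ T') = (S \ T) ∪ T' := by
          ext x
          simp only [mem_sdiff, mem_union]
          constructor
          · rintro ⟨g1, g2⟩
            by_cases hx : x ∈ T
            · right
              by_contra g3
              exact g2 ⟨hx, g3⟩
            · exact Or.inl ⟨g1, hx⟩
          · rintro (⟨g1, g2⟩ | g1)
            · exact ⟨g1, fun g3 => g2 g3.1⟩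
            · exact ⟨hT (hT' g1), fun g3 => g3.2 g1⟩
        rw [h6, Nat.succ_mul]
        exact h5
      · have h5 : ((T \ T').card : ℝ) = T.card - T'.card := by
          rw [card_sdiff_of_subset hT', Nat.cast_sub (card_le_card hT')]
        have h6 : (T.card : ℝ) ≤ R * T'.card := by exact_mod_cast h3
        have h7 : (T.card : ℝ) / R ≤ T'.card := by
          rw [div_le_iff₀ hR0]; linarith
        calc ((T \ T').card : ℝ) = T.card - T'.card := h5
          _ ≤ T.card - T.card / R := by linarith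
          _ = T.card * (1 - 1 / R) := by ring
          _ ≤ S.card * (1 - 1 / R) ^ j * (1 - 1 / R) := mul_le_mul_of_nonneg_right h2 hq0
          _ = _ := by ring
  obtain ⟨T, hT, h1, h2⟩ := claim (R * (b * (k + 2)))
  have hcard : (S.card : ℝ) ≤ (b : ℝ) ^ (k + 1) := by
    have h3 : S ⊆ range (b ^ (k + 1)) := fun t ht => mem_range.2 (hS t ht)
    have h4 := card_le_card h3
    rw [card_range] at h4
    exact_mod_cast h4
  have hbr : (2 : ℝ) ≤ b := by exact_mod_cast hb
  have h3 : (1 - 1 / (R : ℝ)) ^ (R * (b * (k + 2))) ≤ Real.exp (-((b : ℝ) * (k + 2))) := by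
    have h4 : 1 - 1 / (R : ℝ) ≤ Real.exp (-(1 / R)) := by
      have := Real.add_one_le_exp (-(1 / (R : ℝ)))
      linarith
    refine (pow_le_pow_left₀ hq0 h4 _).trans (le_of_eq ?_)
    rw [← Real.exp_nat_mul]
    congr 1
    push_cast
    field_simp
  have h4 : (b : ℝ) ^ (k + 1) ≤ Real.exp ((b : ℝ) * (k + 1)) := by
    have h5 : (b : ℝ) ≤ Real.exp b := by
      have := Real.add_one_le_exp (b : ℝ)
      linarith
    refine (pow_le_pow_left₀ (by linarith) h5 _).trans (le_of_eq ?_)
    rw [← Real.exp_nat_mul]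
    congr 1
    push_cast
    ring
  have h5 : (T.card : ℝ) < 1 := by
    calc (T.card : ℝ) ≤ S.card * (1 - 1 / R) ^ (R * (b * (k + 2))) := h2
      _ ≤ Real.exp ((b : ℝ) * (k + 1)) * Real.exp (-((b : ℝ) * (k + 2))) := by
          apply mul_le_mul (hcard.trans h4) h3 (by positivity) (Real.exp_pos _).le
      _ = Real.exp (-b) := by rw [← Real.exp_add]; congr 1; ring
      _ < 1 := by rw [Real.exp_lt_one_iff]; linarith
  have h6 : T = ∅ := by
    rw [← card_eq_zero]
    have : T.card < 1 := by exact_mod_cast h5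
    omega
  rw [h6, sdiff_empty] at h1
  exact h1

/-- the used positions -/
def Jp (d k a : ℕ) : Finset ℕ := (range ((d + 1) * k)).filter (fun j => a ≤ j % k ∧ j % k + a < k)

lemma jp_compl (d k e a : ℕ) (x : Finset ℕ) (hx : ∀ j ∈ x, j < (d + 1) * k + e + 1) :
    x.card ≤ ((Jp d k a).filter (fun j => j ∈ x)).card + (e + 1 + (d + 1) * (2 * a + 1)) := by
  have h1 : x ⊆ (Jp d k a).filter (fun j => j ∈ x) ∪ (Ico ((d + 1) * k) ((d + 1) * k + e + 1) ∪
      (range (d + 1)).biUnion (fun r => Ico (r * k) (r * k + a) ∪ Ico (r * k + k - a) (r * k + k + 1))) := by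
    intro j hj
    rw [mem_union, mem_filter]
    by_cases h2 : j ∈ Jp d k a
    · exact Or.inl ⟨h2, hj⟩
    · right
      rw [mem_union]
      unfold Jp at h2
      rw [mem_filter, mem_range] at h2
      rcases Nat.lt_or_ge j ((d + 1) * k) with h3 | h3
      · right
        rw [mem_biUnion]
        have hk : 0 < k := by
          rcases Nat.eq_zero_or_pos k with h | h
          · subst h; omega
          · exact h
        refine ⟨j / k, mem_range.2 ((Nat.div_lt_iff_lt_mul hk).2 h3), ?_⟩
        have h4 := Nat.div_add_mod j k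
        have h5 := Nat.mod_lt j hk
        have h6 : k * (j / k) = j / k * k := Nat.mul_comm _ _
        rw [mem_union, mem_Ico, mem_Ico]
        by_cases h7 : a ≤ j % k
        · right
          have h8 : ¬ (j % k + a < k) := fun h => h2 ⟨h3, h7, h⟩
          omega
        · left
          omega
      · left
        rw [mem_Ico]
        exact ⟨h3, hx j hj⟩
  refine (card_le_card h1).trans ((card_union_le _ _).trans (Nat.add_le_add_left ((card_union_le _ _).trans (Nat.add_le_add ?_ ?_)) _))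
  · rw [Nat.card_Ico]; omega
  · refine card_biUnion_le.trans ?_
    calc _ ≤ ∑ _r ∈ range (d + 1), (2 * a + 1) := by
          apply sum_le_sum
          intro r _
          refine (card_union_le _ _).trans ?_
          rw [Nat.card_Ico, Nat.card_Ico]
          omega
      _ = _ := by rw [sum_const, card_range, smul_eq_mul]

lemma jp_dense (d k e a K : ℕ) (hK : K = (d + 1) * k + e) (c₀ : ℝ)
    (h : ((e + 1 + (d + 1) * (2 * a + 1) : ℕ) : ℝ) ≤ c₀ * Real.log K) : Dense 8 c₀ K (Jp d k a) := by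
  refine ⟨?_, ?_, ?_⟩
  · intro w hw
    have h1 := jp_compl d k e a (range w) (fun j hj => by rw [mem_range] at hj; omega)
    rw [card_range] at h1
    have h2 : (Jp d k a).filter (fun j => j ∈ range w) = (Jp d k a).filter (fun i => 0 ≤ i ∧ i < w) := by
      ext j; rw [mem_filter, mem_filter, mem_range]; simp
    rw [h2] at h1
    have h3 : (w : ℝ) ≤ ((Jp d k a).filter (fun i => 0 ≤ i ∧ i < w)).card + ((e + 1 + (d + 1) * (2 * a + 1) : ℕ) : ℝ) := by exact_mod_cast h1
    have h4 : (0 : ℝ) ≤ w := Nat.cast_nonneg _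
    push_cast
    push_cast at h h3
    linarith
  · intro w hw
    have h1 := jp_compl d k e a (Ico (K + 1 - w) (K + 1)) (fun j hj => by rw [mem_Ico] at hj; omega)
    rw [Nat.card_Ico] at h1
    have h2 : (Jp d k a).filter (fun j => j ∈ Ico (K + 1 - w) (K + 1)) = (Jp d k a).filter (fun i => K + 1 - w ≤ i ∧ i < K + 1) := by
      ext j; rw [mem_filter, mem_filter, mem_Ico]
    rw [h2] at h1
    have h3 : (w : ℝ) ≤ ((Jp d k a).filter (fun i => K + 1 - w ≤ i ∧ i < K + 1)).card + ((e + 1 + (d + 1) * (2 * a + 1) : ℕ) : ℝ) := by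
      have : w ≤ ((Jp d k a).filter (fun i => K + 1 - w ≤ i ∧ i < K + 1)).card + (e + 1 + (d + 1) * (2 * a + 1)) := by omega
      exact_mod_cast this
    have h4 : (0 : ℝ) ≤ w := Nat.cast_nonneg _
    push_cast
    push_cast at h h3
    linarith
  · have h1 := jp_compl d k e a (range (K + 1)) (fun j hj => by rw [mem_range] at hj; omega)
    rw [card_range] at h1
    have h2 : (Jp d k a).filter (fun j => j ∈ range (K + 1)) = (Jp d k a).filter (fun i => 0 ≤ i ∧ i < K + 1) := by
      ext j; rw [mem_filter, mem_filter, mem_range]; simp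
    rw [h2] at h1
    have h3 : ((K + 1 : ℕ) : ℝ) ≤ ((Jp d k a).filter (fun i => 0 ≤ i ∧ i < K + 1)).card + ((e + 1 + (d + 1) * (2 * a + 1) : ℕ) : ℝ) := by exact_mod_cast h1
    have h4 : (0 : ℝ) ≤ K := Nat.cast_nonneg _
    push_cast
    push_cast at h h3
    linarith

end Pool.Agent.H56.PD
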