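import Mathlib

/-! Integer valued polynomial functions in several variables: differences in the directions of the coordinates. -/

set_option autoImplicit false

namespace Pool.Agent.H56.PD

open Finset

variable {n : ℕ}

/-- degree at most `l`, in terms of differences -/
def DegLE : ℕ → ((Fin n → ℤ) → ℤ) → Prop
  | 0, H => ∀ x y, H x = H y
  | l + 1, H => ∀ h, DegLE l (fun x => H (x + h) - H x)

lemma DegLE.shift {l : ℕ} {H : (Fin n → ℤ) → ℤ} (hH : DegLE l H) (a : Fin n → ℤ) : DegLE l (fun x => H (x + a)) := by
  induction l generalizing H with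
  | zero => intro x y; exact hH _ _
  | succ l ih =>
    intro h
    have h1 := ih (hH h)
    refine (congrArg (DegLE l) ?_).mp h1
    funext x
    rw [add_right_comm]

lemma DegLE.add {l : ℕ} {H G : (Fin n → ℤ) → ℤ} (hH : DegLE l H) (hG : DegLE l G) : DegLE l (fun x => H x + G x) := by
  induction l generalizing H G with
  | zero => intro x y; exact congrArg₂ (· + ·) (hH x y) (hG x y)
  | succ l ih =>
    intro h
    refine (congrArg (DegLE l) ?_).mp (ih (hH h) (hG h))
    funext x
    ring

lemma DegLE.neg {l : ℕ} {H : (Fin n → ℤ) → ℤ} (hH : DegLE l H) : DegLE l (fun x => - H x) := by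
  induction l generalizing H with
  | zero => intro x y; exact congrArg (- ·) (hH x y)
  | succ l ih =>
    intro h
    refine (congrArg (DegLE l) ?_).mp (ih (hH h))
    funext x
    ring

lemma degLE_const (l : ℕ) (c : ℤ) : DegLE l (fun _ : Fin n → ℤ => c) := by
  induction l generalizing c with
  | zero => intro x y; rfl
  | succ l ih =>
    intro h
    refine (congrArg (DegLE l) ?_).mp (ih 0)
    funext x
    ring

lemma DegLE.succ {l : ℕ} {H : (Fin n → ℤ) → ℤ} (hH : DegLE l H) : DegLE (l + 1) H := by
  induction l generalizing H with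
  | zero =>
    intro h
    refine (congrArg (DegLE 0) ?_).mp (degLE_const 0 0)
    funext x
    rw [hH (x + h) x, sub_self]
  | succ l ih => exact fun h => ih (hH h)

lemma DegLE.mono {l m : ℕ} (hlm : l ≤ m) {H : (Fin n → ℤ) → ℤ} (hH : DegLE l H) : DegLE m H := by
  induction hlm with
  | refl => exact hH
  | step _ ih => exact ih.succ

lemma DegLE.mul {a b : ℕ} {H G : (Fin n → ℤ) → ℤ} (hH : DegLE a H) (hG : DegLE b G) : DegLE (a + b) (fun x => H x * G x) := by
  obtain ⟨m, hm⟩ : ∃ m, m = a + b := ⟨_, rfl⟩
  rw [← hm]
  induction m generalizing a b H G with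
  | zero =>
    have ha : a = 0 := by omega
    have hb : b = 0 := by omega
    subst ha; subst hb
    intro x y
    exact congrArg₂ (· * ·) (hH x y) (hG x y)
  | succ m ih =>
    intro h
    -- `H(x+h) G(x+h) - H x G x = (ΔH)(x) G(x+h) + H x (ΔG)(x)`
    have h1 : DegLE m (fun x => (H (x + h) - H x) * G (x + h)) := by
      rcases a with _ | a
      · refine (congrArg (DegLE m) ?_).mp (degLE_const m 0)
        funext x
        rw [hH (x + h) x]; ring
      · exact ih (hH h) (hG.shift h) (by omega)
    have h2 : DegLE m (fun x => H x * (G (x + h) - G x)) := by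
      rcases b with _ | b
      · refine (congrArg (DegLE m) ?_).mp (degLE_const m 0)
        funext x
        rw [hG (x + h) x]; ring
      · exact ih hH (hG h) (by omega)
    refine (congrArg (DegLE m) ?_).mp (h1.add h2)
    funext x
    ring

lemma degLE_coord (i : Fin n) : DegLE 1 (fun x : Fin n → ℤ => x i) := by
  intro h x y
  simp

lemma degLE_prod (m : Fin n →₀ ℕ) : DegLE (m.sum fun _ e => e) (fun x : Fin n → ℤ => ∏ i, x i ^ m i) := by
  have h1 : ∀ s : Finset (Fin n), DegLE (∑ i ∈ s, m i) (fun x : Fin n → ℤ => ∏ i ∈ s, x i ^ m i) := by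
    intro s
    classical
    induction s using Finset.induction_on with
    | empty => simpa using degLE_const 0 1
    | insert i s hi ih =>
      have h2 : ∀ e : ℕ, DegLE e (fun x : Fin n → ℤ => x i ^ e) := by
        intro e
        induction e with
        | zero => simpa using degLE_const 0 1
        | succ e ihe =>
          have := ihe.mul (degLE_coord i)
          refine (congrArg (DegLE (e + 1)) ?_).mp this
          funext x
          exact (pow_succ _ _).symm
      rw [sum_insert hi]
      refine (congrArg (DegLE _) ?_).mp ((h2 (m i)).mul ih)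
      funext x
      rw [prod_insert hi]
  have h2 : (m.sum fun _ e => e) = ∑ i, m i := Finsupp.sum_fintype _ _ (fun _ => rfl)
  rw [h2]
  exact h1 univ

lemma degLE_sum {ι : Type*} (s : Finset ι) (l : ℕ) (H : ι → (Fin n → ℤ) → ℤ) (h : ∀ i ∈ s, DegLE l (H i)) :
    DegLE l (fun x => ∑ i ∈ s, H i x) := by
  classical
  induction s using Finset.induction_on with
  | empty => simpa using degLE_const l 0
  | insert i s hi ih =>
    refine (congrArg (DegLE _) ?_).mp ((h i (mem_insert_self _ _)).add (ih fun j hj => h j (mem_insert_of_mem hj)))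
    funext x
    rw [sum_insert hi]

lemma degLE_eval (F : MvPolynomial (Fin n) ℤ) : DegLE F.totalDegree (fun x => MvPolynomial.eval x F) := by
  have h1 : (fun x => MvPolynomial.eval x F) = fun x => ∑ m ∈ F.support, F.coeff m * ∏ i, x i ^ m i := by
    funext x
    exact MvPolynomial.eval_eq' x F
  rw [h1]
  apply degLE_sum
  intro m hm
  have h2 := (degLE_const (n := n) 0 (F.coeff m)).mul (degLE_prod m)
  rw [Nat.zero_add] at h2
  exact h2.mono (MvPolynomial.le_totalDegree hm)

/-- iterated differences with step `1` in coordinate directions -/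
def itd : List (Fin n) → ((Fin n → ℤ) → ℤ) → ((Fin n → ℤ) → ℤ)
  | [], H => H
  | i :: is, H => itd is (fun x => H (x + Pi.single i 1) - H x)

lemma itd_add (is : List (Fin n)) (H G : (Fin n → ℤ) → ℤ) : itd is (fun x => H x + G x) = fun x => itd is H x + itd is G x := by
  induction is generalizing H G with
  | nil => rfl
  | cons i is ih =>
    unfold itd
    rw [← ih]
    congr 1
    funext x
    ring

lemma itd_zero (is : List (Fin n)) : itd is (fun _ : Fin n → ℤ => (0 : ℤ)) = fun _ => 0 := by
  induction is with
  | nil => rfl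
  | cons i is ih =>
    unfold itd
    simpa using ih

lemma itd_shift (is : List (Fin n)) (H : (Fin n → ℤ) → ℤ) (a : Fin n → ℤ) : itd is (fun x => H (x + a)) = fun x => itd is H (x + a) := by
  induction is generalizing H with
  | nil => rfl
  | cons i is ih =>
    unfold itd
    rw [← ih]
    congr 1
    funext x
    rw [add_right_comm]

lemma itd_const (is : List (Fin n)) (H : (Fin n → ℤ) → ℤ) (hH : DegLE is.length H) (x : Fin n → ℤ) : itd is H x = itd is H 0 := by
  induction is generalizing H with
  | nil => exact hH _ _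
  | cons i is ih => exact ih _ (hH _)

/-- the leading constant of a difference in a coordinate direction -/
lemma itd_diff (i : Fin n) (is : List (Fin n)) (H : (Fin n → ℤ) → ℤ) (hH : DegLE (is.length + 1) H) (s : Fin n → ℤ) (w : ℤ) :
    itd is (fun x => H (x + (s + Pi.single i w)) - H (x + s)) 0 = w * itd (i :: is) H 0 := by
  have hstep : ∀ w : ℤ, itd is (fun x => H (x + (s + Pi.single i (w + 1))) - H (x + (s + Pi.single i w))) 0 = itd (i :: is) H 0 := by
    intro w
    have h1 : (fun x => H (x + (s + Pi.single i (w + 1))) - H (x + (s + Pi.single i w))) =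
        fun x => (fun y => H (y + Pi.single i 1) - H y) (x + (s + Pi.single i w)) := by
      funext x
      simp only
      congr 2
      rw [add_assoc x, add_assoc s, ← Pi.single_add]
    rw [h1]
    refine (congrFun (itd_shift is (fun y => H (y + Pi.single i 1) - H y) (s + Pi.single i w)) 0).trans ?_
    exact itd_const is (fun y => H (y + Pi.single i 1) - H y) (hH _) _
  induction w using Int.induction_on with
  | zero =>
    have h1 : (fun x => H (x + (s + Pi.single i 0)) - H (x + s)) = fun _ => (0 : ℤ) := by
      funext x; simp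
    rw [h1, itd_zero]; ring
  | succ w ih =>
    have h1 : (fun x => H (x + (s + Pi.single i ((w : ℤ) + 1))) - H (x + s)) =
        fun x => (H (x + (s + Pi.single i ((w : ℤ) + 1))) - H (x + (s + Pi.single i (w : ℤ)))) + (H (x + (s + Pi.single i (w : ℤ))) - H (x + s)) := by
      funext x; ring
    rw [h1, itd_add]
    simp only
    rw [hstep, ih]; ring
  | pred w ih =>
    have h1 : (fun x => H (x + (s + Pi.single i (-(w : ℤ)))) - H (x + s)) =
        fun x => (H (x + (s + Pi.single i ((-(w : ℤ) - 1) + 1))) - H (x + (s + Pi.single i (-(w : ℤ) - 1)))) +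
          (H (x + (s + Pi.single i (-(w : ℤ) - 1))) - H (x + s)) := by
      funext x
      rw [sub_add_cancel]; ring
    rw [h1, itd_add] at ih
    simp only at ih
    rw [hstep] at ih
    linarith

/-- coordinate differences detect the degree -/
lemma degLE_of_coord (l : ℕ) (H : (Fin n → ℤ) → ℤ) (h : ∀ i, DegLE l (fun x => H (x + Pi.single i 1) - H x)) : DegLE (l + 1) H := by
  -- the good directions form a subgroup
  let G : AddSubgroup (Fin n → ℤ) :=
    { carrier := {a | DegLE l (fun x => H (x + a) - H x)}
      zero_mem' := by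
        refine (congrArg (DegLE l) ?_).mp (degLE_const l 0)
        funext x; simp
      add_mem' := by
        intro a b ha hb
        refine (congrArg (DegLE l) ?_).mp ((DegLE.shift hb a).add ha)
        funext x
        rw [add_assoc]; ring
      neg_mem' := by
        intro a ha
        refine (congrArg (DegLE l) ?_).mp (DegLE.neg (DegLE.shift ha (-a)))
        funext x
        simp }
  intro a
  have h1 : a = ∑ i, a i • (Pi.single i 1 : Fin n → ℤ) := by
    funext j
    rw [Finset.sum_apply]
    simp [Pi.single_apply]
  have h2 : a ∈ G := by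
    rw [h1]
    exact G.sum_mem fun i _ => G.zsmul_mem (h i) _
  exact h2

lemma exists_itd (l : ℕ) (H : (Fin n → ℤ) → ℤ) (h1 : DegLE (l + 1) H) (h2 : ¬ DegLE l H) :
    ∃ is : List (Fin n), is.length = l + 1 ∧ itd is H 0 ≠ 0 := by
  induction l generalizing H with
  | zero =>
    by_contra hcon
    push Not at hcon
    apply h2
    have h3 : ∀ i, ∀ x, H (x + Pi.single i 1) - H x = 0 := by
      intro i x
      have h4 := hcon [i] rfl
      rw [← itd_const [i] H h1 x] at h4
      exact h4
    let G : AddSubgroup (Fin n → ℤ) :=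
      { carrier := {a | ∀ x, H (x + a) = H x}
        zero_mem' := fun x => by simp
        add_mem' := by
          intro a b ha hb x
          rw [← add_assoc, hb, ha]
        neg_mem' := by
          intro a ha x
          rw [← ha (x + -a)]; simp }
    have h5 : ∀ a : Fin n → ℤ, a ∈ G := by
      intro a
      have h1 : a = ∑ i, a i • (Pi.single i 1 : Fin n → ℤ) := by
        funext j
        rw [Finset.sum_apply]
        simp [Pi.single_apply]
      rw [h1]
      exact G.sum_mem fun i _ => G.zsmul_mem (fun x => by have := h3 i x; linarith) _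
    intro x y
    have h6 := h5 (x - y) y
    rw [add_sub_cancel] at h6
    exact h6
  | succ l ih =>
    by_cases h3 : ∀ i, DegLE l (fun x => H (x + Pi.single i 1) - H x)
    · exact absurd (degLE_of_coord l H h3) h2
    · push Not at h3
      obtain ⟨i, hi⟩ := h3
      obtain ⟨is, h4, h5⟩ := ih _ (h1 (Pi.single i 1)) hi
      exact ⟨i :: is, by simp [h4], h5⟩

lemma degLE_line (m : ℕ) (H : (Fin n → ℤ) → ℤ) (hH : DegLE m H) (a : Fin n → ℤ) :
    (fwdDiff (1 : ℤ))^[m + 1] (fun t : ℤ => H (t • a)) = 0 := by
  have hg : ∀ m (H : (Fin n → ℤ) → ℤ), DegLE m H → ∀ s, (fwdDiff (1 : ℤ))^[m + 1] (fun t : ℤ => H (s + t • a)) = 0 := by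
    intro m
    induction m with
    | zero =>
      intro H hH s
      funext t
      simp only [zero_add, Function.iterate_one, fwdDiff]
      rw [hH (s + (t + 1) • a) (s + t • a), sub_self]; rfl
    | succ m ih =>
      intro H hH s
      rw [Function.iterate_succ_apply]
      have h1 : fwdDiff (1 : ℤ) (fun t : ℤ => H (s + t • a)) = fun t => (fun x => H (x + a) - H x) (s + t • a) := by
        funext t
        simp only [fwdDiff]
        rw [add_smul, one_smul, ← add_assoc]
      rw [h1]
      exact ih _ (hH a) s
  have h1 := hg m H hH 0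
  simpa using h1

/-- a polynomial of total degree `d + 1` has not the degree `≤ d` in the sense of differences -/
lemma not_degLE (F : MvPolynomial (Fin n) ℤ) (d : ℕ) (hF : F.totalDegree = d + 1) : ¬ DegLE d (fun x => MvPolynomial.eval x F) := by
  intro hcon
  -- the leading form
  obtain ⟨F', hF'⟩ : ∃ F', F' = MvPolynomial.homogeneousComponent (d + 1) F := ⟨_, rfl⟩
  have hne : F' ≠ 0 := by
    intro h0
    have h1 : F ≠ 0 := by
      intro h; rw [h, MvPolynomial.totalDegree_zero] at hF; omega
    obtain ⟨m, hm, hmd⟩ := Finset.exists_mem_eq_sup F.support (MvPolynomial.support_nonempty.2 h1) (fun s => s.sum fun _ e => e)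
    have h2 : (m.sum fun _ e => e) = d + 1 := by rw [← hF]; exact hmd.symm
    have h3 : MvPolynomial.coeff m F' = MvPolynomial.coeff m F := by
      rw [hF', MvPolynomial.coeff_homogeneousComponent]
      rw [if_pos]
      rw [← h2]
      exact Finsupp.degree_apply m |>.trans (by simp [Finsupp.sum])
    rw [h0, MvPolynomial.coeff_zero] at h3
    exact (MvPolynomial.mem_support_iff.1 hm) h3.symm
  obtain ⟨a, ha⟩ : ∃ a : Fin n → ℤ, MvPolynomial.eval a F' ≠ 0 := by
    by_contra hc
    push Not at hc
    exact hne (MvPolynomial.funext fun x => by rw [hc x, map_zero])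
  obtain ⟨c, hc⟩ : ∃ c : ℕ → ℤ, c = fun e => MvPolynomial.eval a (MvPolynomial.homogeneousComponent e F) := ⟨_, rfl⟩
  have hhom : ∀ (e : ℕ) (t : ℤ), MvPolynomial.eval (t • a) (MvPolynomial.homogeneousComponent e F) = c e * t ^ e := by
    intro e t
    rw [hc]
    simp only
    rw [MvPolynomial.eval_eq', MvPolynomial.eval_eq', sum_mul]
    apply sum_congr rfl
    intro m hm
    have h1 : (∑ i, m i) = e := by
      have h2 := (MvPolynomial.homogeneousComponent_isHomogeneous e F).degree_eq_sum_deg_support hm
      rw [h2]
      exact (sum_subset (subset_univ _) fun i _ hi => Finsupp.notMem_support_iff.1 hi).symm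
    rw [mul_assoc, ← h1, ← prod_pow_eq_pow_sum, ← prod_mul_distrib]
    congr 1
    apply prod_congr rfl
    intro i _
    rw [Pi.smul_apply, smul_eq_mul, mul_pow, mul_comm]
  have hg : ∀ t : ℤ, MvPolynomial.eval (t • a) F = ∑ e ∈ range (d + 1 + 1), c e * t ^ e := by
    intro t
    conv_lhs => rw [← MvPolynomial.sum_homogeneousComponent F, map_sum, hF]
    exact sum_congr rfl fun e _ => hhom e t
  have h1 := degLE_line d _ hcon a
  simp only [hg] at h1
  have h2 : (fwdDiff (1 : ℤ))^[d + 1] (fun t : ℤ => ∑ e ∈ range (d + 1 + 1), c e * t ^ e) = fun _ => c (d + 1) * ((d + 1).factorial : ℤ) := by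
    have h3 : (fun t : ℤ => ∑ e ∈ range (d + 1 + 1), c e * t ^ e) =
        (fun t : ℤ => ∑ e ∈ range (d + 1), c e * t ^ e) + c (d + 1) • (fun t : ℤ => t ^ (d + 1)) := by
      funext t
      rw [sum_range_succ]; rfl
    rw [h3, fwdDiff_iter_add, fwdDiff_iter_sum_mul_pow_eq_zero, fwdDiff_iter_const_smul, fwdDiff_iter_eq_factorial]
    funext t
    simp
  rw [h2] at h1
  have h3 := congrFun h1 0
  simp only [Pi.zero_apply, mul_eq_zero, Nat.cast_eq_zero] at h3
  rcases h3 with h3 | h3
  · apply ha
    rw [hF', ← h3, hc]
  · exact Nat.factorial_ne_zero _ h3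

/-- the constant of a nonconstant polynomial -/
theorem exists_dirs (F : MvPolynomial (Fin n) ℤ) (d : ℕ) (hF : F.totalDegree = d + 1) :
    DegLE (d + 1) (fun x => MvPolynomial.eval x F) ∧
    ∃ is : List (Fin n), is.length = d + 1 ∧ itd is (fun x => MvPolynomial.eval x F) 0 ≠ 0 := by
  have h1 : DegLE (d + 1) (fun x => MvPolynomial.eval x F) := by
    rw [← hF]; exact degLE_eval F
  exact ⟨h1, exists_itd d _ h1 (not_degLE F d hF)⟩

end Pool.Agent.H56.PD
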