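import Pool.Agent.H56.PD.Fin
import Pool.Graph.R_pool_sql_team_seeded_64922ed1.X31.K3
import Pool.Graph.R_seed8.Y883.T6.One6

/-! Integers with restricted digits are not concentrated in residue classes; the same for the values of polynomials. -/

set_option autoImplicit false

namespace Pool.Agent.H56.PD

open Finset
open Pool.Agent.X31.CT (DS KK sh mem_KK card_split card_pos' DS_sh)

/-- the sets of allowed digits, filled up -/
def fillD (b k : ℕ) (A : ℕ → Finset ℕ) : ℕ → Finset ℕ := fun j => if j < k then A j else range b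

lemma fill_DS (b k : ℕ) (hb : 2 ≤ b) (A : ℕ → Finset ℕ) (hA : ∀ j < k, A j ⊆ range b ∧ 2 ≤ (A j).card) :
    DS b (fillD b k A) := by
  intro j
  unfold fillD
  by_cases h : j < k
  · rw [if_pos h]; exact hA j h
  · rw [if_neg h]; exact ⟨subset_rfl, by rw [card_range]; exact hb⟩

lemma wd_eq (b k : ℕ) (hb : 2 ≤ b) (A : ℕ → Finset ℕ) (hA : ∀ j < k, A j ⊆ range b ∧ 2 ≤ (A j).card) :
    withDigits b k A = KK b (fillD b k A) k := by
  ext x
  rw [mem_KK hb k (fill_DS b k hb A hA)]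
  unfold withDigits
  rw [mem_filter, mem_range]
  apply and_congr Iff.rfl
  constructor
  · intro h i hi
    unfold fillD
    rw [if_pos hi]
    exact h i hi
  · intro h i hi
    have := h i hi
    unfold fillD at this
    rwa [if_pos hi] at this

/-- one class -/
lemma wd_class (b k : ℕ) (hb : 2 ≤ b) (A : ℕ → Finset ℕ) (hA : ∀ j < k, A j ⊆ range b ∧ 2 ≤ (A j).card)
    (j : ℕ) (hj : j ≤ k) (r : ℕ) (hr : b ^ j ≤ r) (v : ℤ) :
    ((withDigits b k A).filter (fun x : ℕ => (r : ℤ) ∣ (x : ℤ) - v)).card * 2 ^ j ≤ (withDigits b k A).card := by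
  obtain ⟨n, rfl⟩ : ∃ n, k = j + n := ⟨k - j, by omega⟩
  have hDS := fill_DS b (j + n) hb A hA
  rw [wd_eq b (j + n) hb A hA, card_split hb hDS j n, mul_comm ((KK b (fillD b (j + n) A) j).card)]
  apply Nat.mul_le_mul _ (card_pos' hb j hDS)
  have hbj : 0 < b ^ j := Nat.pow_pos (by omega)
  apply card_le_card_of_injOn (fun x => x / b ^ j)
  · intro x hx
    rw [mem_coe, mem_filter, mem_KK hb _ hDS] at hx
    rw [mem_coe, mem_KK hb n (DS_sh hDS j)]
    obtain ⟨⟨h1, h2⟩, _⟩ := hx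
    refine ⟨?_, ?_⟩
    · rw [Nat.div_lt_iff_lt_mul hbj, ← pow_add, add_comm n j]
      exact h1
    · intro i hi
      have := h2 (j + i) (by omega)
      rw [Nat.div_div_eq_div_mul, ← pow_add]
      exact this
  · intro x hx y hy hxy
    rw [mem_coe, mem_filter] at hx hy
    simp only at hxy
    have h1 : (r : ℤ) ∣ (x : ℤ) - y := by
      have := dvd_sub hx.2 hy.2
      have e : (x : ℤ) - v - (y - v) = x - y := by ring
      rwa [e] at this
    have h2 := Nat.mod_add_div x (b ^ j)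
    have h3 := Nat.mod_add_div y (b ^ j)
    have h4 := Nat.mod_lt x hbj
    have h5 := Nat.mod_lt y hbj
    rw [hxy] at h2
    generalize b ^ j * (y / b ^ j) = P at h2 h3
    generalize x % b ^ j = u at h2 h4
    generalize y % b ^ j = w at h3 h5
    have h6 : |(x : ℤ) - y| < r := by
      rw [abs_lt]
      constructor <;> omega
    have h7 := Int.eq_zero_of_abs_lt_dvd h1 h6
    omega

/-- the set `W` is not concentrated in residue classes to moduli up to `R` -/
def Conc (W : Finset ℕ) (C δ R : ℝ) : Prop :=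
  ∀ r : ℕ, 1 ≤ r → (r : ℝ) ≤ R → ∀ v : ℤ, ((W.filter (fun x : ℕ => (r : ℤ) ∣ (x : ℤ) - v)).card : ℝ) ≤
    C * (r : ℝ) ^ (-δ) * W.card

/-- integers with restricted digits are not concentrated -/
lemma wd_conc (b m : ℕ) (hb : 2 ≤ b) (hm : 1 ≤ m) : ∃ δ : ℝ, 0 < δ ∧ ∀ (k : ℕ) (A : ℕ → Finset ℕ),
    (∀ j < k, A j ⊆ range b ∧ 2 ≤ (A j).card) → Conc (withDigits b k A) 2 δ ((b : ℝ) ^ (m * k)) := by
  have hb2 : (2 : ℝ) ≤ b := by exact_mod_cast hb
  have hlb : 0 < Real.log b := Real.log_pos (by linarith)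
  have hl2 : 0 < Real.log 2 := Real.log_pos (by norm_num)
  have hm0 : (0 : ℝ) < m := by exact_mod_cast hm
  obtain ⟨δ, hδ⟩ : ∃ δ : ℝ, δ = Real.log 2 / (m * Real.log b) := ⟨_, rfl⟩
  have hδ0 : 0 < δ := by rw [hδ]; positivity
  refine ⟨δ, hδ0, fun k A hA r hr hrR v => ?_⟩
  have hr0 : (0 : ℝ) < r := by exact_mod_cast hr
  obtain ⟨j, hj⟩ : ∃ j, j = Nat.log b r / m := ⟨_, rfl⟩
  have hrle : b ^ Nat.log b r ≤ r := Nat.pow_log_le_self b (by omega)
  have hjm : j * m ≤ Nat.log b r := by rw [hj]; exact Nat.div_mul_le_self _ _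
  have hjk : j ≤ k := by
    have h1 : r ≤ b ^ (m * k) := by exact_mod_cast hrR
    have h2 : Nat.log b r ≤ m * k := by
      have := Nat.log_mono_right (b := b) h1
      rwa [Nat.log_pow (by omega)] at this
    have h3 : j * m ≤ k * m := by rw [mul_comm k m]; omega
    exact Nat.le_of_mul_le_mul_right h3 (by omega)
  have hjr : b ^ j ≤ r := (Nat.pow_le_pow_right (by omega) ((Nat.le_mul_of_pos_right j (by omega)).trans hjm)).trans hrle
  have h1 := wd_class b k hb A hA j hjk r hjr v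
  have h2 : (r : ℝ) ^ δ ≤ 2 * 2 ^ j := by
    have h3 : r < b ^ (m * (j + 1)) := by
      have h4 : Nat.log b r < m * (j + 1) := by
        have := Nat.lt_mul_div_succ (Nat.log b r) (by omega : 0 < m)
        rw [← hj] at this
        exact this
      exact (Nat.lt_pow_succ_log_self (by omega) r).trans_le (Nat.pow_le_pow_right (by omega) h4)
    have h4 : (r : ℝ) ≤ (b : ℝ) ^ (m * (j + 1)) := by exact_mod_cast h3.le
    calc (r : ℝ) ^ δ ≤ ((b : ℝ) ^ (m * (j + 1))) ^ δ := Real.rpow_le_rpow hr0.le h4 hδ0.le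
      _ = 2 ^ (j + 1) := by
          rw [← Real.rpow_natCast, ← Real.rpow_mul (by linarith), Real.rpow_def_of_pos (by linarith)]
          have : Real.log b * (((m * (j + 1) : ℕ) : ℝ) * δ) = Real.log 2 * ((j + 1 : ℕ) : ℝ) := by
            rw [hδ]
            push_cast
            field_simp
          rw [this, ← Real.rpow_def_of_pos (by norm_num), Real.rpow_natCast]
      _ = 2 * 2 ^ j := by rw [pow_succ]; ring
  have h3 : (((withDigits b k A).filter (fun x : ℕ => (r : ℤ) ∣ (x : ℤ) - v)).card : ℝ) * 2 ^ j ≤ (withDigits b k A).card := by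
    exact_mod_cast h1
  rw [Real.rpow_neg hr0.le, mul_assoc, mul_comm ((r : ℝ) ^ δ)⁻¹, ← mul_assoc, ← div_eq_mul_inv,
    le_div_iff₀ (Real.rpow_pos_of_pos hr0 _)]
  calc _ ≤ (((withDigits b k A).filter (fun x : ℕ => (r : ℤ) ∣ (x : ℤ) - v)).card : ℝ) * (2 * 2 ^ j) :=
        mul_le_mul_of_nonneg_left h2 (Nat.cast_nonneg _)
    _ = 2 * ((((withDigits b k A).filter (fun x : ℕ => (r : ℤ) ∣ (x : ℤ) - v)).card : ℝ) * 2 ^ j) := by ring
    _ ≤ _ := by linarith

open Polynomial in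
/-- the values of a polynomial in one variable -/
lemma conc_one (W : Finset ℕ) (C δ R : ℝ) (hC : 0 ≤ C) (hδ : 0 < δ) (hW : Conc W C δ R) (D : ℕ) : ∀ (G : Polynomial ℤ),
    G.natDegree = D → ∀ (q : ℕ), 1 ≤ q → (q : ℝ) ≤ R → ∀ T : ℕ, (∀ r ∈ q.divisors, r.divisors.card ≤ T) →
    ∀ Z : ℝ, 1 ≤ Z → (Int.gcd G.leadingCoeff q : ℝ) * Z ^ D < q →
    ((W.filter (fun x : ℕ => (q : ℤ) ∣ G.eval (x : ℤ))).card : ℝ) ≤ (T : ℝ) ^ D * (C * Z ^ (-δ)) * W.card := by
  classical
  induction D with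
  | zero =>
    intro G hG q hq hqR T hT Z hZ hgcd
    rw [pow_zero, mul_one] at hgcd
    have h1 : G = Polynomial.C (G.coeff 0) := Polynomial.eq_C_of_natDegree_eq_zero hG
    have h2 : G.leadingCoeff = G.coeff 0 := by rw [Polynomial.leadingCoeff, hG]
    have h3 : (W.filter (fun x : ℕ => (q : ℤ) ∣ G.eval (x : ℤ))) = ∅ := by
      rw [filter_eq_empty_iff]
      intro x _ hx
      rw [h1, Polynomial.eval_C, ← h2] at hx
      have h4 : q ∣ Int.gcd G.leadingCoeff q := by
        rw [Int.gcd_eq_natAbs, Int.natAbs_natCast]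
        exact Nat.dvd_gcd (Int.natCast_dvd.1 hx) (dvd_refl _)
      have h5 : 0 < Int.gcd G.leadingCoeff q := Int.gcd_pos_of_ne_zero_right _ (by exact_mod_cast (by omega : q ≠ 0))
      have h6 := Nat.le_of_dvd h5 h4
      have h7 : (q : ℝ) ≤ Int.gcd G.leadingCoeff q := by exact_mod_cast h6
      linarith
    rw [h3, card_empty, Nat.cast_zero]
    have : 0 ≤ Z ^ (-δ) := Real.rpow_nonneg (by linarith) _
    exact mul_nonneg (mul_nonneg (by positivity) (mul_nonneg hC this)) (Nat.cast_nonneg _)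
  | succ D ih =>
    intro G hG q hq hqR T hT Z hZ hgcd
    have hZ0 : 0 < Z := by linarith
    have hZδ : 0 ≤ Z ^ (-δ) := Real.rpow_nonneg hZ0.le _
    rcases (W.filter (fun x : ℕ => (q : ℤ) ∣ G.eval (x : ℤ))).eq_empty_or_nonempty with hemp | ⟨t₀, ht₀⟩
    · rw [hemp, card_empty, Nat.cast_zero]
      exact mul_nonneg (mul_nonneg (by positivity) (mul_nonneg hC hZδ)) (Nat.cast_nonneg _)
    rw [mem_filter] at ht₀
    -- division by `X - t₀`
    obtain ⟨G₁, hG₁⟩ : ∃ G₁ : Polynomial ℤ, G₁ = (G - Polynomial.C (G.eval (t₀ : ℤ))) /ₘ (Polynomial.X - Polynomial.C (t₀ : ℤ)) := ⟨_, rfl⟩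
    have hmonic : (Polynomial.X - Polynomial.C (t₀ : ℤ)).Monic := Polynomial.monic_X_sub_C _
    have hroot : Polynomial.IsRoot (G - Polynomial.C (G.eval (t₀ : ℤ))) (t₀ : ℤ) := by
      rw [Polynomial.IsRoot, Polynomial.eval_sub, Polynomial.eval_C, sub_self]
    have hfac : G - Polynomial.C (G.eval (t₀ : ℤ)) = (Polynomial.X - Polynomial.C (t₀ : ℤ)) * G₁ := by
      rw [hG₁]
      exact (Polynomial.mul_divByMonic_eq_iff_isRoot.2 hroot).symm
    have hdeg' : (G - Polynomial.C (G.eval (t₀ : ℤ))).natDegree = D + 1 := by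
      rw [Polynomial.natDegree_sub_C, hG]
    have hdeg : G₁.natDegree = D := by
      rw [hG₁, Polynomial.natDegree_divByMonic _ hmonic, hdeg', Polynomial.natDegree_X_sub_C]
      omega
    have hlead : G₁.leadingCoeff = G.leadingCoeff := by
      have h1 : (G - Polynomial.C (G.eval (t₀ : ℤ))).leadingCoeff = G.leadingCoeff := by
        apply Polynomial.leadingCoeff_sub_of_degree_lt
        refine lt_of_le_of_lt Polynomial.degree_C_le ?_
        apply Polynomial.natDegree_pos_iff_degree_pos.1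
        omega
      rw [← h1, hfac, Polynomial.leadingCoeff_mul, hmonic.leadingCoeff, one_mul]
    have heval : ∀ x : ℕ, G.eval (x : ℤ) - G.eval (t₀ : ℤ) = ((x : ℤ) - t₀) * G₁.eval (x : ℤ) := by
      intro x
      have h1 := congrArg (Polynomial.eval (x : ℤ)) hfac
      rw [Polynomial.eval_sub, Polynomial.eval_C, Polynomial.eval_mul, Polynomial.eval_sub, Polynomial.eval_X,
        Polynomial.eval_C] at h1
      exact h1
    -- the cover
    have hcov : W.filter (fun x : ℕ => (q : ℤ) ∣ G.eval (x : ℤ)) ⊆ q.divisors.biUnion (fun r =>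
        W.filter (fun x : ℕ => (r : ℤ) ∣ (x : ℤ) - t₀ ∧ ((q / r : ℕ) : ℤ) ∣ G₁.eval (x : ℤ))) := by
      intro x hx
      rw [mem_filter] at hx
      have h1 : (q : ℤ) ∣ ((x : ℤ) - t₀) * G₁.eval (x : ℤ) := by
        rw [← heval]
        exact dvd_sub hx.2 ht₀.2
      have h2 : q ∣ ((x : ℤ) - t₀).natAbs * (G₁.eval (x : ℤ)).natAbs := by
        rw [← Int.natAbs_mul]
        exact Int.natCast_dvd.1 h1
      obtain ⟨r, r', g1, g2, g3⟩ := (Nat.dvd_mul).1 h2
      have hr0 : 0 < r := Nat.pos_of_ne_zero (by rintro rfl; rw [zero_mul] at g3; omega)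
      rw [mem_biUnion]
      refine ⟨r, ?_, ?_⟩
      · rw [Nat.mem_divisors]
        exact ⟨Dvd.intro _ g3, by omega⟩
      · rw [mem_filter]
        refine ⟨hx.1, Int.natCast_dvd.2 g1, ?_⟩
        have : q / r = r' := by rw [← g3]; exact Nat.mul_div_cancel_left _ hr0
        rw [this]
        exact Int.natCast_dvd.2 g2
    have hT1 : (1 : ℝ) ≤ T := by
      have h1 := hT 1 (by rw [Nat.mem_divisors]; exact ⟨one_dvd _, by omega⟩)
      have : 1 ≤ T := by simpa using h1
      exact_mod_cast this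
    have hterm : ∀ r ∈ q.divisors, ((W.filter (fun x : ℕ => (r : ℤ) ∣ (x : ℤ) - t₀ ∧ ((q / r : ℕ) : ℤ) ∣
        G₁.eval (x : ℤ))).card : ℝ) ≤ (T : ℝ) ^ D * (C * Z ^ (-δ)) * W.card := by
      intro r hr
      rw [Nat.mem_divisors] at hr
      obtain ⟨r', hrr⟩ := hr.1
      have hr0 : 0 < r := Nat.pos_of_dvd_of_pos hr.1 (by omega)
      have hr'0 : 0 < r' := Nat.pos_of_ne_zero (by rintro rfl; rw [mul_zero] at hrr; omega)
      have hqr : q / r = r' := by rw [hrr]; exact Nat.mul_div_cancel_left _ hr0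
      have hrq : (r : ℝ) ≤ q := by exact_mod_cast Nat.le_of_dvd (by omega) hr.1
      have hr'q : (r' : ℝ) ≤ q := by exact_mod_cast Nat.le_of_dvd (by omega) (Dvd.intro_left r hrr.symm)
      rw [hqr]
      by_cases hrZ : Z ≤ r
      · have h1 := hW r hr0 (hrq.trans hqR) t₀
        have h2 : ((W.filter (fun x : ℕ => (r : ℤ) ∣ (x : ℤ) - t₀ ∧ ((r' : ℕ) : ℤ) ∣ G₁.eval (x : ℤ))).card : ℝ) ≤
            ((W.filter (fun x : ℕ => (r : ℤ) ∣ (x : ℤ) - (t₀ : ℤ))).card : ℝ) := by
          apply Nat.cast_le.2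
          apply card_le_card
          intro x hx
          rw [mem_filter] at hx ⊢
          exact ⟨hx.1, hx.2.1⟩
        refine h2.trans (h1.trans ?_)
        apply mul_le_mul_of_nonneg_right _ (Nat.cast_nonneg _)
        have h3 : (r : ℝ) ^ (-δ) ≤ Z ^ (-δ) := Real.rpow_le_rpow_of_nonpos hZ0 hrZ (by linarith)
        have h4 : (1 : ℝ) ≤ (T : ℝ) ^ D := one_le_pow₀ hT1
        have h5 : C * (r : ℝ) ^ (-δ) ≤ C * Z ^ (-δ) := mul_le_mul_of_nonneg_left h3 hC
        have h6 : 0 ≤ C * Z ^ (-δ) := mul_nonneg hC hZδ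
        nlinarith
      · rw [not_le] at hrZ
        have h1 := ih G₁ hdeg r' hr'0 (hr'q.trans hqR) T (fun s hs => hT s (by
          rw [Nat.mem_divisors] at hs ⊢
          exact ⟨hs.1.trans (Dvd.intro_left r hrr.symm), by omega⟩)) Z hZ (by
          rw [hlead]
          have h2 : (Int.gcd G.leadingCoeff r' : ℝ) ≤ Int.gcd G.leadingCoeff q := by
            apply Nat.cast_le.2
            apply Nat.le_of_dvd (Int.gcd_pos_of_ne_zero_right _ (by exact_mod_cast (by omega : q ≠ 0)))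
            rw [Int.gcd_eq_natAbs, Int.gcd_eq_natAbs, Int.natAbs_natCast, Int.natAbs_natCast]
            exact Nat.gcd_dvd_gcd_of_dvd_right _ (Dvd.intro_left r hrr.symm)
          have h3 : (q : ℝ) = r * r' := by exact_mod_cast hrr
          have h4 : 0 < Z ^ D := by positivity
          have h5 : (Int.gcd G.leadingCoeff q : ℝ) * Z ^ D * Z < r * r' := by
            rw [← h3]
            refine lt_of_le_of_lt (le_of_eq ?_) hgcd
            rw [pow_succ]; ring
          have h6 : (r : ℝ) * r' ≤ Z * r' := mul_le_mul_of_nonneg_right hrZ.le (Nat.cast_nonneg _)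
          have h7 : (Int.gcd G.leadingCoeff q : ℝ) * Z ^ D * Z < r' * Z := by linarith
          have h8 := lt_of_mul_lt_mul_right h7 hZ0.le
          refine lt_of_le_of_lt ?_ h8
          exact mul_le_mul_of_nonneg_right h2 h4.le)
        refine le_trans ?_ h1
        apply Nat.cast_le.2
        apply card_le_card
        intro x hx
        rw [mem_filter] at hx ⊢
        exact ⟨hx.1, hx.2.2⟩
    have hsum : ((W.filter (fun x : ℕ => (q : ℤ) ∣ G.eval (x : ℤ))).card : ℝ) ≤
        ∑ r ∈ q.divisors, ((W.filter (fun x : ℕ => (r : ℤ) ∣ (x : ℤ) - t₀ ∧ ((q / r : ℕ) : ℤ) ∣ G₁.eval (x : ℤ))).card : ℝ) := by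
      exact_mod_cast (card_le_card hcov).trans card_biUnion_le
    refine hsum.trans ((sum_le_sum hterm).trans ?_)
    rw [sum_const, nsmul_eq_mul]
    have h1 : ((q.divisors.card : ℕ) : ℝ) ≤ T := by
      exact_mod_cast hT q (by rw [Nat.mem_divisors]; exact ⟨dvd_refl _, by omega⟩)
    calc (q.divisors.card : ℝ) * ((T : ℝ) ^ D * (C * Z ^ (-δ)) * W.card) ≤ T * ((T : ℝ) ^ D * (C * Z ^ (-δ)) * W.card) := by
          apply mul_le_mul_of_nonneg_right h1
          exact mul_nonneg (mul_nonneg (by positivity) (mul_nonneg hC hZδ)) (Nat.cast_nonneg _)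
      _ = _ := by rw [pow_succ]; ring

end Pool.Agent.H56.PD
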