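import Pool.Agent.H56.PD.Div2
import Pool.Agent.H56.PD.Vec
import Pool.Graph.R_pool_sql_team_seeded_2aa45f1a.Q289.BK.Good
import Pool.Graph.R_seed8.Y885.SB

/-! Linear equations in three primes whose large coefficient is near a value of a polynomial at integers with
restricted digits. -/

set_option autoImplicit false

namespace Pool.Agent.H56.PD

open Finset
open Pool.Agent.Y883.T5 (Admissible)
open Pool.Agent.Y883.T6 (SmallSolution)
open Pool.Agent.Q289.BK (GoodC small_of ev_logN ev_logPow sum_sparse)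

open Classical in
/-- the library theorem on one large coefficient in a convenient form -/
theorem goodC_of : ∃ D : Set ℕ,
    (∀ ε : ℝ, 0 < ε → ∃ X₀ : ℕ, ∀ X : ℕ, X₀ ≤ X → (((Icc 1 X).filter (fun e => e ∈ D)).card : ℝ) ≤ (X : ℝ) ^ ε) ∧
    ∀ ε : ℝ, 0 < ε → ∀ T V T₀ : ℕ, ∃ N₀ : ℕ, ∀ N : ℕ, N₀ ≤ N → ∀ m : ℤ, (N : ℝ) < |(m : ℝ)| * Real.log N ^ V →
      (∀ e ∈ D, Real.log N ^ T₀ < (e : ℝ) → ¬ (e : ℤ) ∣ m) → GoodC (3 / 2 + ε) T m.natAbs := by
  obtain ⟨D, -, hD, hone⟩ := Pool.Agent.Y883.T6.one6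
  refine ⟨D, hD, fun ε hε T V T₀ => ?_⟩
  obtain ⟨c₀, F, -, hF, hmain⟩ := hone (3 / 2 + ε) (by linarith) 1 one_pos (T + 2 * T₀)
  have hF0 := hF (by linarith)
  obtain ⟨N₃, h3⟩ := ev_logN 4
  obtain ⟨N₄, h4⟩ := ev_logPow 1 (2 * V)
  obtain ⟨N₅, h5⟩ := ev_logPow c₀ V
  refine ⟨N₃ + N₄ + N₅ + 1, fun N hN m hm hdiv => ?_⟩
  have g3 := h3 N (by omega)
  have g4 := h4 N (by omega)
  have g5 := h5 N (by omega)
  obtain ⟨L, hL⟩ : ∃ L, L = Real.log N := ⟨_, rfl⟩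
  rw [← hL] at g3 g4 g5 hm hdiv
  have hL0 : 0 < L := by linarith
  have hN0 : (0 : ℝ) < N := by exact_mod_cast (by omega : 0 < N)
  have hLV : 0 < L ^ V := by positivity
  have e1 : (N : ℝ) / L ^ V < |(m : ℝ)| := by rwa [div_lt_iff₀ hLV]
  intro a b c d hadm hc ha hb
  have hcabs : |(c : ℝ)| = |(m : ℝ)| := by
    rw [← Int.cast_abs, ← Int.cast_abs, Int.abs_eq_natAbs, Int.abs_eq_natAbs, hc]
  have hlog : L / 2 ≤ Real.log |(c : ℝ)| := by
    rw [hcabs]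
    have e4 : Real.log ((N : ℝ) / L ^ V) ≤ Real.log |(m : ℝ)| := Real.log_le_log (by positivity) e1.le
    rw [Real.log_div hN0.ne' hLV.ne', ← hL] at e4
    have e5 : Real.log (L ^ V) ≤ L / 2 := by
      have e6 : L ^ V * L ^ V ≤ N := by
        rw [← pow_add]
        have : V + V = 2 * V := by omega
        rw [this]
        linarith
      have e7 := Real.log_le_log (by positivity) e6
      rw [Real.log_mul hLV.ne' hLV.ne', ← hL] at e7
      linarith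
    linarith
  have hlog1 : 1 ≤ Real.log |(c : ℝ)| := by linarith
  have hpow : Real.log |(c : ℝ)| ^ T ≤ Real.log |(c : ℝ)| ^ (T + 2 * T₀) := pow_le_pow_right₀ hlog1 (by omega)
  refine small_of (by linarith) (hmain a b c d hadm ?_ ?_ ?_ (ha.trans hpow) (hb.trans hpow))
  · have e4 : (c₀ : ℝ) < |(m : ℝ)| := by
      refine lt_trans ?_ e1
      rw [lt_div_iff₀ hLV]
      exact g5
    have e5 : ((m.natAbs : ℕ) : ℝ) = |(m : ℝ)| := by
      rw [Nat.cast_natAbs, Int.cast_abs]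
    rw [← e5, ← hc] at e4
    exact_mod_cast e4.le
  · rw [hF0]
    exact Set.notMem_empty _
  · intro e he1 he2 he3
    refine hdiv e he1 (lt_of_le_of_lt ?_ he2) ?_
    · calc L ^ T₀ ≤ ((L / 2) ^ 2) ^ T₀ := by
            apply pow_le_pow_left₀ hL0.le
            nlinarith
        _ = (L / 2) ^ (2 * T₀) := by rw [← pow_mul]
        _ ≤ (L / 2) ^ (T + 2 * T₀) := pow_le_pow_right₀ (by linarith) (by omega)
        _ ≤ _ := pow_le_pow_left₀ (by linarith) hlog _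
    · rw [← Int.natAbs_dvd_natAbs] at he3 ⊢
      rwa [hc] at he3

/-- a divisor of a number in a progression -/
lemma dvd_prog (e Q : ℕ) (he : 1 ≤ e) (m : ℤ) : ∃ (e' : ℕ) (u : ℤ), 1 ≤ e' ∧ e ≤ e' * Nat.gcd e Q ∧ e' ≤ e ∧
    ∀ f : ℤ, (e : ℤ) ∣ m + Q * f → (e' : ℤ) ∣ f + u := by
  obtain ⟨d, hd⟩ : ∃ d, d = Nat.gcd e Q := ⟨_, rfl⟩
  have hd0 : 0 < d := by rw [hd]; exact Nat.gcd_pos_of_pos_left _ he
  obtain ⟨e', he'⟩ : d ∣ e := by rw [hd]; exact Nat.gcd_dvd_left _ _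
  obtain ⟨Q', hQ'⟩ : d ∣ Q := by rw [hd]; exact Nat.gcd_dvd_right _ _
  have he'0 : 0 < e' := Nat.pos_of_ne_zero (by rintro rfl; rw [mul_zero] at he'; omega)
  have hcop : Nat.Coprime e' Q' := by
    have h1 := Nat.coprime_div_gcd_div_gcd (m := e) (n := Q) (by rw [← hd]; exact hd0)
    rw [← hd] at h1
    have e1 : e / d = e' := by rw [he']; exact Nat.mul_div_cancel_left _ hd0
    have e2 : Q / d = Q' := by rw [hQ']; exact Nat.mul_div_cancel_left _ hd0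
    rwa [e1, e2] at h1
  obtain ⟨x, y, hxy⟩ : ∃ x y : ℤ, x * e' + y * Q' = 1 := by
    have := Nat.isCoprime_iff_coprime.2 hcop
    exact this
  refine ⟨e', y * (m / d), he'0, ?_, ?_, ?_⟩
  · rw [← hd, he', mul_comm]
  · rw [he']; exact Nat.le_mul_of_pos_left _ hd0
  · intro f hf
    have hdz : (d : ℤ) ≠ 0 := by exact_mod_cast hd0.ne'
    have h1 : (d : ℤ) ∣ m := by
      have h2 : (d : ℤ) ∣ m + Q * f := (Int.natCast_dvd_natCast.2 (by rw [he']; exact Dvd.intro _ rfl)).trans hf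
      have h3 : (d : ℤ) ∣ (Q : ℤ) * f := Dvd.dvd.mul_right (Int.natCast_dvd_natCast.2 (by rw [hQ']; exact Dvd.intro _ rfl)) _
      exact (Int.dvd_add_left h3).1 h2
    obtain ⟨m', hm'⟩ := h1
    have h2 : m / d = m' := by rw [hm']; exact Int.mul_ediv_cancel_left _ hdz
    rw [h2]
    have h3 : (e' : ℤ) ∣ m' + Q' * f := by
      have h4 : (d : ℤ) * e' ∣ d * (m' + Q' * f) := by
        have e1 : (d : ℤ) * (m' + Q' * f) = m + Q * f := by
          rw [hm', hQ']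
          push_cast
          ring
        rw [e1]
        have e2 : (d : ℤ) * e' = e := by rw [he']; push_cast; ring
        rw [e2]
        exact hf
      exact Int.dvd_of_mul_dvd_mul_left hdz h4
    obtain ⟨w, hw⟩ := h3
    refine ⟨x * f + y * w, ?_⟩
    linear_combination (-f) * hxy + y * hw

open Classical in
theorem coef_good (b n : ℕ) (hb : 2 ≤ b) (F : MvPolynomial (Fin n) ℤ) (hF : 1 ≤ F.totalDegree) (ε : ℝ) (hε : 0 < ε)
    (δ : ℝ) (hδ : 0 < δ) (T A B U W : ℕ) :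
    ∃ N₀ : ℕ, ∀ N : ℕ, N₀ ≤ N → ∀ Q : ℕ, 1 ≤ Q → (Q : ℝ) ≤ (N : ℝ) ^ (1 - δ) →
      ∀ k : ℕ, Q * b ^ (F.totalDegree * k) ≤ B * N →
      (N : ℝ) ≤ Q * (b : ℝ) ^ (F.totalDegree * k) * Real.log N ^ W →
      ∀ Dg : Fin n → ℕ → Finset ℕ, (∀ i, ∀ j < k, Dg i j ⊆ range b ∧ 2 ≤ (Dg i j).card) →
      ∀ c : ℤ, |c| ≤ (B : ℤ) * N →
      ∀ Ω : Finset (Fin n → ℕ), Ω = (Fintype.piFinset fun i => withDigits b k (Dg i)) →
      ((Ω.filter (fun x => ∃ m : ℤ, |(m : ℝ) - ((c + Q * MvPolynomial.eval (fun j => (x j : ℤ)) F : ℤ) : ℝ)| ≤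
          Real.log N ^ A ∧ (Int.gcd m Q : ℝ) ≤ Real.log N ^ A ∧ ¬ GoodC (3 / 2 + ε) T m.natAbs)).card : ℝ) ≤
        (Ω.card : ℝ) / Real.log N ^ U := by
  obtain ⟨d, hd⟩ : ∃ d, d = F.totalDegree := ⟨_, rfl⟩
  rw [← hd] at hF ⊢
  obtain ⟨U3, hU3⟩ : ∃ U3, U3 = U + A + 3 := ⟨_, rfl⟩
  obtain ⟨cc, K₁, hlaw⟩ := law_vec b n hb F (by rw [← hd]; exact hF) 0 (U3 + 1)
  rw [← hd] at hlaw
  obtain ⟨CF, hCF⟩ := size_vec b n hb F
  obtain ⟨Ws, K₂, hball⟩ := Pool.Agent.Y885.small_ball b hb 8 cc U3 (by norm_num)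
  obtain ⟨m₀, hm₀⟩ : ∃ m₀, m₀ = ⌈4 / δ⌉₊ + 1 := ⟨_, rfl⟩
  have hm₀' : 4 ≤ δ * m₀ := by
    have h1 : 4 / δ ≤ (m₀ : ℝ) := by
      rw [hm₀]
      push_cast
      have := Nat.le_ceil (4 / δ)
      linarith
    rw [div_le_iff₀ hδ] at h1
    linarith
  obtain ⟨δ₁, hδ₁, hconc⟩ := wd_conc b (d * m₀) hb (Nat.mul_pos hF (by omega))
  obtain ⟨C', δ', hC', hδ', hBd⟩ := mv_conc_shift 2 δ₁ (by norm_num) hδ₁ n F (by
    intro c hc
    rw [hc, MvPolynomial.totalDegree_C] at hd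
    omega)
  obtain ⟨D, hDs, hgood⟩ := goodC_of
  obtain ⟨Ks, hKs0, hKs⟩ := sum_sparse D hDs (δ' / 2) (by positivity)
  obtain ⟨V, hV⟩ : ∃ V, V = W + Ws + 4 := ⟨_, rfl⟩
  obtain ⟨t₁, ht₁⟩ : ∃ t₁ : ℕ, t₁ = ⌈2 / δ'⌉₊ := ⟨_, rfl⟩
  have ht₁' : 2 ≤ δ' * t₁ := by
    have h1 : 2 / δ' ≤ (t₁ : ℝ) := by rw [ht₁]; exact Nat.le_ceil _
    rw [div_le_iff₀ hδ'] at h1
    linarith
  obtain ⟨T₀, hT₀⟩ : ∃ T₀ : ℕ, T₀ = t₁ * (U3 + 1) + 2 * A := ⟨_, rfl⟩
  obtain ⟨N₁, h1⟩ := hgood ε hε T V T₀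
  obtain ⟨κ, hκ⟩ : ∃ κ : ℝ, κ = 2 * Real.log b / δ := ⟨_, rfl⟩
  have hlb : 0 < Real.log b := Real.log_pos (by exact_mod_cast (by omega : 1 < b))
  have hκ0 : 0 < κ := by rw [hκ]; positivity
  obtain ⟨N₂, h2⟩ := ev_logN (8 + 2 ^ (Ws + 4) + κ * (K₁ + K₂ + 1) + κ ^ U3 + C' * Ks + B + CF * B)
  obtain ⟨N₃, h3⟩ := ev_logPow 8 (A + V + 1)
  have hδN : ∃ N₄ : ℕ, ∀ N : ℕ, N₄ ≤ N → (1 : ℝ) * Real.log N ^ (W + V + 3) ≤ (N : ℝ) ^ (δ / 4) := by
    have h := (isLittleO_log_rpow_rpow_atTop ((W + V + 3 : ℕ) : ℝ) (show 0 < δ / 4 by positivity)).bound one_pos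
    obtain ⟨N₄, h4⟩ := Filter.eventually_atTop.1 (tendsto_natCast_atTop_atTop.eventually h)
    refine ⟨N₄ + 3, fun N hN => ?_⟩
    have h5 := h4 N (by omega)
    have hN0 : (1 : ℝ) ≤ N := by exact_mod_cast (by omega : 1 ≤ N)
    rw [Real.rpow_natCast, Real.norm_of_nonneg (pow_nonneg (Real.log_nonneg hN0) _), Real.norm_of_nonneg (by positivity)] at h5
    linarith
  obtain ⟨N₄, h4⟩ := hδN
  refine ⟨N₁ + N₂ + N₃ + N₄ + 3, fun N hN Q hQ hQN k hk1 hk2 Dg hDg c hc Ω hΩ => ?_⟩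
  have a1 := h1 N (by omega)
  have a2 := h2 N (by omega)
  have a3 := h3 N (by omega)
  have a4 := h4 N (by omega)
  obtain ⟨L, hL⟩ : ∃ L, L = Real.log (N : ℝ) := ⟨_, rfl⟩
  rw [← hL] at a1 a2 a3 a4 hk2 ⊢
  rw [one_mul] at a4
  have hN1 : (1 : ℝ) ≤ N := by exact_mod_cast (by omega : 1 ≤ N)
  have hN0 : (0 : ℝ) < N := by linarith
  have p1 : (0 : ℝ) < 2 ^ (Ws + 4) := by positivity
  have p2 : 0 ≤ κ * (K₁ + K₂ + 1) := by positivity
  have p3 : 0 ≤ κ ^ U3 := by positivity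
  have p4 : 0 ≤ C' * Ks := by positivity
  have p5 : (0 : ℝ) ≤ B := Nat.cast_nonneg _
  have p6 : (0 : ℝ) ≤ CF * B := by positivity
  have hL8 : 8 ≤ L := by linarith
  have hL1 : 1 ≤ L := by linarith
  have hL0 : 0 < L := by linarith
  have hQ1 : (1 : ℝ) ≤ Q := by exact_mod_cast hQ
  have hQ0 : (0 : ℝ) < Q := by linarith
  have hb2 : (2 : ℝ) ≤ b := by exact_mod_cast hb
  obtain ⟨K, hK⟩ : ∃ K, K = d * k := ⟨_, rfl⟩
  rw [← hK] at hk1 hk2
  obtain ⟨M, hM⟩ : ∃ M : ℝ, M = (b : ℝ) ^ K := ⟨_, rfl⟩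
  have hM1 : 1 ≤ M := by rw [hM]; exact one_le_pow₀ (by linarith)
  have hM0 : 0 < M := by linarith
  rw [← hM] at hk2
  have hMc : ((b ^ K : ℕ) : ℝ) = M := by rw [hM]; push_cast; rfl
  have hQM : (Q : ℝ) * M ≤ B * N := by rw [← hMc]; exact_mod_cast hk1
  -- the scale
  have hMlow : (N : ℝ) ^ (δ / 2) ≤ M := by
    have e1 : (N : ℝ) ≤ (N : ℝ) ^ (1 - δ) * M * (N : ℝ) ^ (δ / 4) := by
      calc (N : ℝ) ≤ Q * M * L ^ W := hk2
        _ ≤ (N : ℝ) ^ (1 - δ) * M * (N : ℝ) ^ (δ / 4) := by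
            have : L ^ W ≤ (N : ℝ) ^ (δ / 4) := (pow_le_pow_right₀ hL1 (by omega)).trans a4
            gcongr
    have e2 : (N : ℝ) = (N : ℝ) ^ (1 - δ) * ((N : ℝ) ^ (δ / 2) * (N : ℝ) ^ (δ / 2)) := by
      rw [← Real.rpow_add hN0, ← Real.rpow_add hN0]
      have : 1 - δ + (δ / 2 + δ / 2) = 1 := by ring
      rw [this, Real.rpow_one]
    have e3 : (N : ℝ) ^ (1 - δ) * ((N : ℝ) ^ (δ / 2) * (N : ℝ) ^ (δ / 2)) ≤ (N : ℝ) ^ (1 - δ) * (M * (N : ℝ) ^ (δ / 4)) := by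
      rw [← e2]
      linarith
    have e4 := le_of_mul_le_mul_left e3 (Real.rpow_pos_of_pos hN0 _)
    have e5 : (N : ℝ) ^ (δ / 4) ≤ (N : ℝ) ^ (δ / 2) := Real.rpow_le_rpow_of_exponent_le hN1 (by linarith)
    have e6 : 0 < (N : ℝ) ^ (δ / 2) := Real.rpow_pos_of_pos hN0 _
    have e7 : (N : ℝ) ^ (δ / 2) * (N : ℝ) ^ (δ / 2) ≤ M * (N : ℝ) ^ (δ / 2) := e4.trans (by gcongr)
    exact le_of_mul_le_mul_right e7 e6
  have hKL : L ≤ κ * K := by
    have e1 := Real.log_le_log (Real.rpow_pos_of_pos hN0 _) hMlow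
    rw [Real.log_rpow hN0, hM, Real.log_pow, ← hL] at e1
    rw [hκ, div_mul_eq_mul_div, le_div_iff₀ hδ]
    linarith
  have hKbig : K₁ + K₂ + 1 ≤ K := by
    have e1 : κ * ((K₁ + K₂ + 1 : ℕ) : ℝ) ≤ κ * K := by push_cast; linarith
    exact_mod_cast le_of_mul_le_mul_left e1 hκ0
  have hK0 : (0 : ℝ) < K := by exact_mod_cast (by omega : 0 < K)
  have hKU : 1 / (K : ℝ) ^ U3 ≤ 1 / L ^ (U3 - 1) := by
    apply div_le_div_of_nonneg_left one_pos.le (by positivity)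
    have e1 : L ^ U3 ≤ κ ^ U3 * (K : ℝ) ^ U3 := by
      rw [← mul_pow]
      exact pow_le_pow_left₀ hL0.le hKL _
    have e2 : L ^ U3 = L ^ (U3 - 1) * L := by rw [← pow_succ]; congr 1; omega
    have e3 : κ ^ U3 * (K : ℝ) ^ U3 ≤ L * (K : ℝ) ^ U3 := by
      apply mul_le_mul_of_nonneg_right _ (by positivity)
      linarith
    have e4 : L * L ^ (U3 - 1) ≤ L * (K : ℝ) ^ U3 := by
      rw [mul_comm, ← e2]
      linarith
    exact le_of_mul_le_mul_left e4 hL0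
  have hlogM : Real.log M ≤ 2 * L := by
    have e1 : M ≤ N * N := by
      have : M ≤ Q * M := by nlinarith
      have e2 : (B : ℝ) ≤ N := by
        have e3 : L ≤ N := by rw [hL]; exact (Real.log_le_sub_one_of_pos hN0).trans (by linarith)
        linarith
      calc M ≤ B * N := this.trans hQM
        _ ≤ N * N := by gcongr
    have e2 := Real.log_le_log hM0 e1
    rw [Real.log_mul hN0.ne' hN0.ne', ← hL] at e2
    linarith
  -- the law
  obtain ⟨FF, hFF⟩ : ∃ FF : (Fin n → ℕ) → ℤ, FF = fun x => MvPolynomial.eval (fun j => (x j : ℤ)) F := ⟨_, rfl⟩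
  have hlaw0 := fun a : ℤ => hlaw k K 0 (by omega) (Nat.zero_le _) (by omega) Dg hDg a
  rw [← hΩ] at hlaw0
  have hΩc : 0 < Ω.card := (hlaw0 0).2
  have hΩr : (0 : ℝ) < Ω.card := by exact_mod_cast hΩc
  -- the values are rarely small
  have hsmall : ∀ v : ℤ, ((Ω.filter (fun x => |((FF x + v : ℤ) : ℝ)| ≤ M / L ^ (Ws + 2))).card : ℝ) ≤ Ω.card / L ^ (U3 - 1) := by
    intro v
    obtain ⟨ρ, hρ⟩ : ∃ ρ : ℤ, ρ = ⌊M / L ^ (Ws + 2)⌋ := ⟨_, rfl⟩
    have hρ0 : 0 ≤ ρ := by rw [hρ]; exact Int.floor_nonneg.2 (by positivity)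
    have hρle : (ρ : ℝ) ≤ M / L ^ (Ws + 2) := by rw [hρ]; exact Int.floor_le _
    have h5 := hball K (by omega) (Fin n → ℕ) Ω (fun _ => (Ω.card : ℝ)⁻¹) (fun x => (v + ρ + 1) + FF x)
      (by rw [hFF]; exact (hlaw0 (v + ρ + 1)).1)
    rw [← sum_filter, sum_const, nsmul_eq_mul, hMc] at h5
    have h6 : ((Ω.filter (fun x => |((FF x + v : ℤ) : ℝ)| ≤ M / L ^ (Ws + 2))).card : ℝ) ≤
        ((Ω.filter (fun x => 1 ≤ (v + ρ + 1) + FF x ∧ (((v + ρ + 1) + FF x : ℤ) : ℝ) < M / Real.log M ^ (Ws + 1))).card : ℝ) := by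
      apply Nat.cast_le.2
      apply card_le_card
      intro x hx
      rw [mem_filter] at hx ⊢
      refine ⟨hx.1, ?_, ?_⟩
      · have e1 : |FF x + v| ≤ ρ := by
          rw [hρ]
          apply Int.le_floor.2
          rw [Int.cast_abs]
          exact hx.2
        have e2 := (abs_le.1 e1).1
        omega
      · have e1 := (abs_le.1 hx.2).2
        push_cast at e1 ⊢
        have e2 : 2 * (M / L ^ (Ws + 2)) + 1 < M / Real.log M ^ (Ws + 1) := by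
          have f0 : 0 < Real.log M := by
            apply Real.log_pos
            refine lt_of_lt_of_le ?_ hMlow
            apply Real.one_lt_rpow _ (by positivity)
            have : (3 : ℝ) ≤ N := by exact_mod_cast (by omega : 3 ≤ N)
            linarith
          have f1 : M / (2 * L) ^ (Ws + 1) ≤ M / Real.log M ^ (Ws + 1) := by
            apply div_le_div_of_nonneg_left hM0.le (by positivity)
            exact pow_le_pow_left₀ f0.le hlogM _
          have f2 : M / (2 * L) ^ (Ws + 1) = (M / L ^ (Ws + 2)) * (L / 2 ^ (Ws + 1)) := by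
            rw [mul_pow, pow_succ L (Ws + 1)]
            field_simp
          have f3 : 8 ≤ L / 2 ^ (Ws + 1) := by
            rw [le_div_iff₀ (by positivity)]
            have : (8 : ℝ) * 2 ^ (Ws + 1) = 2 ^ (Ws + 4) := by rw [pow_add, pow_add]; ring
            linarith
          have f4 : 1 ≤ M / L ^ (Ws + 2) := by
            rw [le_div_iff₀ (by positivity), one_mul]
            have g1 : L ^ (Ws + 2) ≤ L ^ (W + V + 3) := pow_le_pow_right₀ hL1 (by omega)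
            have g2 : (N : ℝ) ^ (δ / 4) ≤ (N : ℝ) ^ (δ / 2) := Real.rpow_le_rpow_of_exponent_le hN1 (by linarith)
            linarith
          have f5 : (M / L ^ (Ws + 2)) * 8 ≤ (M / L ^ (Ws + 2)) * (L / 2 ^ (Ws + 1)) := by gcongr
          linarith
        linarith
    have h7 : ((Ω.filter (fun x => 1 ≤ (v + ρ + 1) + FF x ∧ (((v + ρ + 1) + FF x : ℤ) : ℝ) < M / Real.log M ^ (Ws + 1))).card : ℝ) ≤
        Ω.card / L ^ (U3 - 1) := by
      have e1 := h5.trans hKU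
      rw [mul_inv_le_iff₀ hΩr] at e1
      refine le_trans e1 (le_of_eq ?_)
      ring
    exact h6.trans h7
  -- the divisors
  have hcW : ∀ i, Conc (withDigits b k (Dg i)) 2 δ₁ ((b : ℝ) ^ (d * m₀ * k)) := fun i => hconc k (Dg i) (hDg i)
  obtain ⟨B₂, hB₂⟩ : ∃ B₂ : ℕ, B₂ = B + CF * B + 1 := ⟨_, rfl⟩
  have hNN : (B₂ : ℝ) * N ≤ N * N := by
    apply mul_le_mul_of_nonneg_right _ hN0.le
    have e3 : L ≤ N := by rw [hL]; exact (Real.log_le_sub_one_of_pos hN0).trans (by linarith)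
    rw [hB₂]
    push_cast
    linarith
  have hR : (B₂ : ℝ) * N ≤ (b : ℝ) ^ (d * m₀ * k) := by
    have e1 : (b : ℝ) ^ (d * m₀ * k) = M ^ m₀ := by rw [hM, ← pow_mul, hK]; congr 1; ring
    rw [e1]
    calc (B₂ : ℝ) * N ≤ N * N := hNN
      _ = (N : ℝ) ^ (2 : ℝ) := by rw [Real.rpow_two, sq]
      _ ≤ (N : ℝ) ^ (δ / 2 * m₀) := Real.rpow_le_rpow_of_exponent_le hN1 (by linarith)
      _ = ((N : ℝ) ^ (δ / 2)) ^ m₀ := by rw [Real.rpow_mul hN0.le, Real.rpow_natCast]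
      _ ≤ M ^ m₀ := pow_le_pow_left₀ (Real.rpow_pos_of_pos hN0 _).le hMlow _
  have hsize : ∀ x ∈ Ω, ∀ h : ℤ, |(h : ℝ)| ≤ L ^ A → ((|c + h + Q * FF x| : ℤ) : ℝ) ≤ B₂ * N := by
    intro x hx h hh
    have e1 := hCF k Dg x (by rw [← hΩ]; exact hx)
    rw [← hd, ← hK] at e1
    have e2 : |(FF x : ℝ)| ≤ CF * M := by
      rw [hFF, ← Int.cast_abs, hM]
      exact_mod_cast e1
    have e3 : |(c : ℝ)| ≤ B * N := by
      rw [← Int.cast_abs]
      exact_mod_cast hc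
    have e4 : L ^ A ≤ N := by
      have g1 : L ^ A ≤ L ^ (A + V + 1) := pow_le_pow_right₀ hL1 (by omega)
      have g2 : 0 < L ^ (A + V + 1) := by positivity
      linarith
    rw [Int.cast_abs]
    push_cast
    calc |(c : ℝ) + h + Q * FF x| ≤ |(c : ℝ) + h| + |(Q : ℝ) * FF x| := abs_add_le _ _
      _ ≤ (|(c : ℝ)| + |(h : ℝ)|) + |(Q : ℝ) * FF x| := by
          have := abs_add_le (c : ℝ) h
          linarith
      _ = (|(c : ℝ)| + |(h : ℝ)|) + Q * |(FF x : ℝ)| := by rw [abs_mul, abs_of_pos hQ0]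
      _ ≤ (B * N + N) + Q * (CF * M) := by
          have := mul_le_mul_of_nonneg_left e2 hQ0.le
          linarith
      _ = (B * N + N) + CF * (Q * M) := by ring
      _ ≤ (B * N + N) + CF * (B * N) := by
          have := mul_le_mul_of_nonneg_left hQM (Nat.cast_nonneg (α := ℝ) CF)
          linarith
      _ = B₂ * N := by rw [hB₂]; push_cast; ring
  obtain ⟨Zt, hZt⟩ : ∃ Zt : ℝ, Zt = L ^ T₀ := ⟨_, rfl⟩
  have hZt0 : 0 < Zt := by rw [hZt]; positivity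
  obtain ⟨E, hE⟩ : ∃ E, E = (Icc 1 (B₂ * N)).filter (fun e : ℕ => e ∈ D ∧ Zt < (e : ℝ)) := ⟨_, rfl⟩
  have hdivs : ∀ h : ℤ, |(h : ℝ)| ≤ L ^ A → (Int.gcd (c + h) Q : ℝ) ≤ L ^ A →
      ((Ω.filter (fun x => c + h + Q * FF x ≠ 0 ∧ ∃ e ∈ D, Zt < (e : ℝ) ∧ (e : ℤ) ∣ c + h + Q * FF x)).card : ℝ) ≤
        Ω.card / L ^ U3 := by
    intro h hh hgcd
    have hcov : Ω.filter (fun x => c + h + Q * FF x ≠ 0 ∧ ∃ e ∈ D, Zt < (e : ℝ) ∧ (e : ℤ) ∣ c + h + Q * FF x) ⊆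
        E.biUnion (fun e => Ω.filter (fun x => (e : ℤ) ∣ c + h + Q * FF x)) := by
      intro x hx
      rw [mem_filter] at hx
      obtain ⟨hx1, hx2, e, he1, he2, he3⟩ := hx
      rw [mem_biUnion]
      refine ⟨e, ?_, mem_filter.2 ⟨hx1, he3⟩⟩
      have he0 : 0 < e := by
        have : (0 : ℝ) < e := hZt0.trans he2
        exact_mod_cast this
      rw [hE, mem_filter, mem_Icc]
      refine ⟨⟨he0, ?_⟩, he1, he2⟩
      have h7 := Int.le_of_dvd (abs_pos.2 hx2) ((dvd_abs _ _).2 he3)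
      have h8 := hsize x hx1 h hh
      have h9 : ((e : ℕ) : ℝ) ≤ ((B₂ * N : ℕ) : ℝ) := by
        push_cast
        refine le_trans ?_ h8
        exact_mod_cast h7
      exact_mod_cast h9
    have hterm : ∀ e ∈ E, ((Ω.filter (fun x => (e : ℤ) ∣ c + h + Q * FF x)).card : ℝ) ≤
        (C' / L ^ (U3 + 1) * Ω.card) * (e : ℝ) ^ (-(δ' / 2)) := by
      intro e he
      rw [hE, mem_filter, mem_Icc] at he
      obtain ⟨⟨he1, he2⟩, he3, he4⟩ := he
      have he0 : (0 : ℝ) < e := by exact_mod_cast he1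
      rcases (Ω.filter (fun x => (e : ℤ) ∣ c + h + Q * FF x)).eq_empty_or_nonempty with hemp | ⟨x₀, hx₀⟩
      · rw [hemp, card_empty, Nat.cast_zero]
        positivity
      rw [mem_filter] at hx₀
      have hg : (Nat.gcd e Q : ℝ) ≤ L ^ A := by
        refine le_trans ?_ hgcd
        apply Nat.cast_le.2
        have g1 : (Nat.gcd e Q) ∣ Int.gcd (c + h) Q := by
          apply Int.dvd_gcd
          · have g2 : ((Nat.gcd e Q : ℕ) : ℤ) ∣ c + h + Q * FF x₀ :=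
              (Int.natCast_dvd_natCast.2 (Nat.gcd_dvd_left _ _)).trans hx₀.2
            have g3 : ((Nat.gcd e Q : ℕ) : ℤ) ∣ (Q : ℤ) * FF x₀ :=
              Dvd.dvd.mul_right (Int.natCast_dvd_natCast.2 (Nat.gcd_dvd_right _ _)) _
            exact (Int.dvd_add_left g3).1 g2
          · exact Int.natCast_dvd_natCast.2 (Nat.gcd_dvd_right _ _)
        exact Nat.le_of_dvd (Int.gcd_pos_of_ne_zero_right _ (by exact_mod_cast (by omega : Q ≠ 0))) g1
      obtain ⟨e', u, k1, k2, k3, k4⟩ := dvd_prog e Q he1 (c + h)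
      have he'0 : (0 : ℝ) < e' := by exact_mod_cast k1
      have hee' : (e : ℝ) / L ^ A ≤ e' := by
        rw [div_le_iff₀ (by positivity)]
        calc (e : ℝ) ≤ e' * Nat.gcd e Q := by exact_mod_cast k2
          _ ≤ e' * L ^ A := by gcongr
      have h5 := hBd u ((b : ℝ) ^ (d * m₀ * k)) (fun i => withDigits b k (Dg i)) hcW e' k1 (by
        have g1 : (e' : ℝ) ≤ e := by exact_mod_cast k3
        have g2 : (e : ℝ) ≤ B₂ * N := by exact_mod_cast he2
        linarith)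
      rw [← hΩ] at h5
      have h6 : ((Ω.filter (fun x => (e : ℤ) ∣ c + h + Q * FF x)).card : ℝ) ≤
          ((Ω.filter (fun x => (e' : ℤ) ∣ MvPolynomial.eval (fun i => (x i : ℤ)) F + u)).card : ℝ) := by
        apply Nat.cast_le.2
        apply card_le_card
        intro x hx
        rw [mem_filter] at hx ⊢
        refine ⟨hx.1, ?_⟩
        have := k4 (FF x) hx.2
        rw [hFF] at this
        exact this
      refine h6.trans (h5.trans ?_)
      have h7 : (e' : ℝ) ^ (-δ') ≤ ((e : ℝ) / L ^ A) ^ (-δ') :=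
        Real.rpow_le_rpow_of_nonpos (by positivity) hee' (by linarith)
      have h8 : ((e : ℝ) / L ^ A) ^ (-δ') = (e : ℝ) ^ (-(δ' / 2)) * ((e : ℝ) ^ (-(δ' / 2)) * (L ^ A) ^ δ') := by
        rw [Real.div_rpow he0.le (by positivity), Real.rpow_neg (by positivity : (0 : ℝ) ≤ L ^ A), div_inv_eq_mul, ← mul_assoc,
          ← Real.rpow_add he0]
        congr 2
        ring
      have h9 : (e : ℝ) ^ (-(δ' / 2)) * (L ^ A) ^ δ' ≤ 1 / L ^ (U3 + 1) := by
        have g1 : (e : ℝ) ^ (-(δ' / 2)) ≤ Zt ^ (-(δ' / 2)) := Real.rpow_le_rpow_of_nonpos hZt0 he4.le (by linarith)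
        have g2 : Zt ^ (-(δ' / 2)) * (L ^ A) ^ δ' = L ^ (-((T₀ : ℝ) * (δ' / 2)) + A * δ') := by
          rw [hZt, ← Real.rpow_natCast L T₀, ← Real.rpow_natCast L A, ← Real.rpow_mul hL0.le, ← Real.rpow_mul hL0.le,
            ← Real.rpow_add hL0]
          congr 1
          ring
        have g3 : -((T₀ : ℝ) * (δ' / 2)) + A * δ' ≤ -((U3 + 1 : ℕ) : ℝ) := by
          rw [hT₀]
          push_cast
          have g4 : ((U3 : ℝ) + 1) * 2 ≤ ((U3 : ℝ) + 1) * (δ' * t₁) := mul_le_mul_of_nonneg_left ht₁' (by positivity)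
          nlinarith
        calc (e : ℝ) ^ (-(δ' / 2)) * (L ^ A) ^ δ' ≤ Zt ^ (-(δ' / 2)) * (L ^ A) ^ δ' := by
              apply mul_le_mul_of_nonneg_right g1 (by positivity)
          _ = L ^ (-((T₀ : ℝ) * (δ' / 2)) + A * δ') := g2
          _ ≤ L ^ (-((U3 + 1 : ℕ) : ℝ)) := Real.rpow_le_rpow_of_exponent_le hL1 g3
          _ = 1 / L ^ (U3 + 1) := by rw [Real.rpow_neg hL0.le, Real.rpow_natCast, one_div]
      calc C' * (e' : ℝ) ^ (-δ') * Ω.card ≤ C' * ((e : ℝ) ^ (-(δ' / 2)) * ((e : ℝ) ^ (-(δ' / 2)) * (L ^ A) ^ δ')) * Ω.card := by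
            rw [← h8]; gcongr
        _ ≤ C' * ((e : ℝ) ^ (-(δ' / 2)) * (1 / L ^ (U3 + 1))) * Ω.card := by gcongr
        _ = _ := by ring
    have h5 : ((Ω.filter (fun x => c + h + Q * FF x ≠ 0 ∧ ∃ e ∈ D, Zt < (e : ℝ) ∧ (e : ℤ) ∣ c + h + Q * FF x)).card : ℝ) ≤
        ∑ e ∈ E, ((Ω.filter (fun x => (e : ℤ) ∣ c + h + Q * FF x)).card : ℝ) := by
      exact_mod_cast (card_le_card hcov).trans card_biUnion_le
    refine h5.trans ((sum_le_sum hterm).trans ?_)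
    rw [← mul_sum]
    have h6 := hKs E (by
      intro e he
      rw [hE, mem_filter, mem_Icc] at he
      exact ⟨he.2.1, he.1.1⟩)
    calc (C' / L ^ (U3 + 1) * Ω.card) * ∑ e ∈ E, (e : ℝ) ^ (-(δ' / 2)) ≤ (C' / L ^ (U3 + 1) * Ω.card) * Ks := by gcongr
      _ = (C' * Ks) * (Ω.card / L ^ (U3 + 1)) := by ring
      _ ≤ L * (Ω.card / L ^ (U3 + 1)) := by
          apply mul_le_mul_of_nonneg_right _ (by positivity)
          linarith
      _ = Ω.card / L ^ U3 := by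
          rw [pow_succ]
          field_simp
  -- one shift
  obtain ⟨w, hw⟩ : ∃ w : ℕ, w = ⌊L ^ A⌋₊ := ⟨_, rfl⟩
  have hwle : (w : ℝ) ≤ L ^ A := by rw [hw]; exact Nat.floor_le (by positivity)
  have hshift : ∀ h ∈ Icc (-(w : ℤ)) w, ((Ω.filter (fun x => (Int.gcd (c + h + Q * FF x) Q : ℝ) ≤ L ^ A ∧
      ¬ GoodC (3 / 2 + ε) T (c + h + Q * FF x).natAbs)).card : ℝ) ≤ 2 * (Ω.card / L ^ (U3 - 1)) := by
    intro h hh
    rw [mem_Icc, ← abs_le] at hh
    have hh' : |(h : ℝ)| ≤ L ^ A := by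
      refine le_trans ?_ hwle
      rw [← Int.cast_abs]
      exact_mod_cast hh
    have hgeq : ∀ x, Int.gcd (c + h + Q * FF x) Q = Int.gcd (c + h) Q := by
      intro x
      rw [Int.gcd_add_mul_left_left]
    by_cases hg : (Int.gcd (c + h) Q : ℝ) ≤ L ^ A
    · obtain ⟨v, hv⟩ : ∃ v : ℤ, v = (c + h) / Q := ⟨_, rfl⟩
      have hcov : Ω.filter (fun x => (Int.gcd (c + h + Q * FF x) Q : ℝ) ≤ L ^ A ∧
          ¬ GoodC (3 / 2 + ε) T (c + h + Q * FF x).natAbs) ⊆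
          Ω.filter (fun x => |((FF x + v : ℤ) : ℝ)| ≤ M / L ^ (Ws + 2)) ∪
          Ω.filter (fun x => c + h + Q * FF x ≠ 0 ∧ ∃ e ∈ D, Zt < (e : ℝ) ∧ (e : ℤ) ∣ c + h + Q * FF x) := by
        intro x hx
        rw [mem_filter] at hx
        obtain ⟨hx1, hx2, hx3⟩ := hx
        rw [mem_union, mem_filter, mem_filter]
        by_cases hlt : (N : ℝ) < |((c + h + Q * FF x : ℤ) : ℝ)| * L ^ V
        · right
          refine ⟨hx1, ?_, ?_⟩
          · intro h0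
            rw [h0, Int.cast_zero, abs_zero, zero_mul] at hlt
            linarith
          · by_contra hcon
            push Not at hcon
            exact hx3 (a1 (c + h + Q * FF x) hlt (fun e he1 he2 => hcon e he1 (by rw [hZt]; exact he2)))
        · left
          rw [not_lt] at hlt
          refine ⟨hx1, ?_⟩
          have hQz : (0 : ℤ) < Q := by exact_mod_cast hQ
          have e1 : c + h = Q * v + (c + h) % Q := by rw [hv]; exact (Int.mul_ediv_add_emod (c + h) Q).symm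
          have e2 := Int.emod_nonneg (c + h) hQz.ne'
          have e3 := Int.emod_lt_of_pos (c + h) hQz
          obtain ⟨rr, hrr⟩ : ∃ rr : ℤ, rr = (c + h) % Q := ⟨_, rfl⟩
          rw [← hrr] at e1 e2 e3
          have e4 : (Q : ℝ) * ((FF x + v : ℤ) : ℝ) = ((c + h + Q * FF x : ℤ) : ℝ) - rr := by
            rw [e1]
            push_cast
            ring
          have e5 : (Q : ℝ) * |((FF x + v : ℤ) : ℝ)| ≤ N / L ^ V + Q := by
            have f1 : (Q : ℝ) * |((FF x + v : ℤ) : ℝ)| = |((c + h + Q * FF x : ℤ) : ℝ) - rr| := by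
              rw [← e4, abs_mul, abs_of_pos hQ0]
            rw [f1]
            have f2 : |(rr : ℝ)| ≤ Q := by
              rw [abs_of_nonneg (by exact_mod_cast e2)]
              exact_mod_cast e3.le
            have f3 : |((c + h + Q * FF x : ℤ) : ℝ)| ≤ N / L ^ V := by
              rw [le_div_iff₀ (by positivity)]
              exact hlt
            have f4 := abs_sub (((c + h + Q * FF x : ℤ) : ℝ)) (rr : ℝ)
            linarith
          have e6 : (N : ℝ) / L ^ V ≤ Q * (M / L ^ (Ws + 4)) := by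
            have hVV : L ^ V = L ^ W * L ^ (Ws + 4) := by rw [hV, ← pow_add]; congr 1
            have hne : L ^ (Ws + 4) ≠ 0 := by positivity
            rw [div_le_iff₀ (by positivity), hVV]
            have hEq : Q * (M / L ^ (Ws + 4)) * (L ^ W * L ^ (Ws + 4)) = Q * M * L ^ W := by
              have : M / L ^ (Ws + 4) * L ^ (Ws + 4) = M := div_mul_cancel₀ _ hne
              calc Q * (M / L ^ (Ws + 4)) * (L ^ W * L ^ (Ws + 4)) = Q * (M / L ^ (Ws + 4) * L ^ (Ws + 4)) * L ^ W := by ring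
                _ = _ := by rw [this]
            rw [hEq]
            exact hk2
          have e7 : (Q : ℝ) * |((FF x + v : ℤ) : ℝ)| ≤ Q * (M / L ^ (Ws + 4) + 1) := by linarith
          have e8 := le_of_mul_le_mul_left e7 hQ0
          refine e8.trans ?_
          have e9 : 1 ≤ M / L ^ (Ws + 4) := by
            rw [le_div_iff₀ (by positivity), one_mul]
            have g1 : L ^ (Ws + 4) ≤ L ^ (W + V + 3) := pow_le_pow_right₀ hL1 (by omega)
            have g2 : (N : ℝ) ^ (δ / 4) ≤ (N : ℝ) ^ (δ / 2) := Real.rpow_le_rpow_of_exponent_le hN1 (by linarith)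
            linarith
          calc M / L ^ (Ws + 4) + 1 ≤ 2 * (M / L ^ (Ws + 4)) := by linarith
            _ ≤ L ^ 2 * (M / L ^ (Ws + 4)) := by
                apply mul_le_mul_of_nonneg_right _ (by positivity)
                nlinarith
            _ = M / L ^ (Ws + 2) := by
                rw [show Ws + 4 = (Ws + 2) + 2 by ring, pow_add]
                field_simp
      have h5 : ((Ω.filter (fun x => (Int.gcd (c + h + Q * FF x) Q : ℝ) ≤ L ^ A ∧
          ¬ GoodC (3 / 2 + ε) T (c + h + Q * FF x).natAbs)).card : ℝ) ≤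
          ((Ω.filter (fun x => |((FF x + v : ℤ) : ℝ)| ≤ M / L ^ (Ws + 2))).card : ℝ) +
          ((Ω.filter (fun x => c + h + Q * FF x ≠ 0 ∧ ∃ e ∈ D, Zt < (e : ℝ) ∧ (e : ℤ) ∣ c + h + Q * FF x)).card : ℝ) := by
        exact_mod_cast (card_le_card hcov).trans (card_union_le _ _)
      have h6 := hsmall v
      have h7 := hdivs h hh' hg
      have h8 : (Ω.card : ℝ) / L ^ U3 ≤ Ω.card / L ^ (U3 - 1) := by
        apply div_le_div_of_nonneg_left hΩr.le (by positivity)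
        exact pow_le_pow_right₀ hL1 (by omega)
      linarith
    · have : Ω.filter (fun x => (Int.gcd (c + h + Q * FF x) Q : ℝ) ≤ L ^ A ∧
          ¬ GoodC (3 / 2 + ε) T (c + h + Q * FF x).natAbs) = ∅ := by
        rw [filter_eq_empty_iff]
        intro x _ hx
        rw [hgeq] at hx
        exact hg hx.1
      rw [this, card_empty, Nat.cast_zero]
      positivity
  -- all shifts
  have hcov : Ω.filter (fun x => ∃ m : ℤ, |(m : ℝ) - ((c + Q * MvPolynomial.eval (fun j => (x j : ℤ)) F : ℤ) : ℝ)| ≤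
      L ^ A ∧ (Int.gcd m Q : ℝ) ≤ L ^ A ∧ ¬ GoodC (3 / 2 + ε) T m.natAbs) ⊆
      (Icc (-(w : ℤ)) w).biUnion (fun h => Ω.filter (fun x => (Int.gcd (c + h + Q * FF x) Q : ℝ) ≤ L ^ A ∧
        ¬ GoodC (3 / 2 + ε) T (c + h + Q * FF x).natAbs)) := by
    intro x hx
    rw [mem_filter] at hx
    obtain ⟨hx1, m, hm1, hm2, hm3⟩ := hx
    rw [mem_biUnion]
    obtain ⟨h, hh⟩ : ∃ h : ℤ, h = m - (c + Q * FF x) := ⟨_, rfl⟩
    have e1 : c + h + Q * FF x = m := by rw [hh]; ring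
    refine ⟨h, ?_, ?_⟩
    · have e2 : ((h.natAbs : ℕ) : ℝ) ≤ L ^ A := by
        rw [Nat.cast_natAbs, Int.cast_abs, hh, hFF]
        push_cast at hm1 ⊢
        exact hm1
      have e3 : h.natAbs ≤ w := by rw [hw]; exact Nat.le_floor e2
      rw [mem_Icc]
      omega
    · rw [mem_filter, e1]
      exact ⟨hx1, hm2, hm3⟩
  have hfin : ((Ω.filter (fun x => ∃ m : ℤ, |(m : ℝ) - ((c + Q * MvPolynomial.eval (fun j => (x j : ℤ)) F : ℤ) : ℝ)| ≤
      L ^ A ∧ (Int.gcd m Q : ℝ) ≤ L ^ A ∧ ¬ GoodC (3 / 2 + ε) T m.natAbs)).card : ℝ) ≤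
      ∑ h ∈ Icc (-(w : ℤ)) w, ((Ω.filter (fun x => (Int.gcd (c + h + Q * FF x) Q : ℝ) ≤ L ^ A ∧
        ¬ GoodC (3 / 2 + ε) T (c + h + Q * FF x).natAbs)).card : ℝ) := by
    exact_mod_cast (card_le_card hcov).trans card_biUnion_le
  refine hfin.trans ((sum_le_sum hshift).trans ?_)
  rw [sum_const, nsmul_eq_mul, Int.card_Icc]
  have e1 : ((w : ℤ) + 1 - -(w : ℤ)).toNat = 2 * w + 1 := by omega
  rw [e1]
  push_cast
  have e2 : 1 ≤ L ^ A := one_le_pow₀ hL1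
  have e3 : 2 * (w : ℝ) + 1 ≤ 3 * L ^ A := by linarith
  have e4 : U3 - 1 = U + A + 2 := by omega
  rw [e4]
  calc (2 * (w : ℝ) + 1) * (2 * (Ω.card / L ^ (U + A + 2))) ≤ (3 * L ^ A) * (2 * (Ω.card / L ^ (U + A + 2))) := by gcongr
    _ = (6 / L ^ 2) * (Ω.card / L ^ U) := by
        rw [show U + A + 2 = U + A + 2 from rfl, pow_add, pow_add]
        field_simp
        ring
    _ ≤ 1 * (Ω.card / L ^ U) := by
        apply mul_le_mul_of_nonneg_right _ (by positivity)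
        rw [div_le_one (by positivity)]
        nlinarith
    _ = _ := one_mul _

end Pool.Agent.H56.PD
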