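import Pool.Agent.H56.PD.Cover
import Pool.Graph.R_seed8.Y885.RS2

/-! The common differences at all scales. -/

set_option autoImplicit false

namespace Pool.Agent.H56.PD

open Finset
open Pool.Agent.H807R2.Dav
open Pool.Agent.Y885

variable {n k d : ℕ}

open Classical in
/-- the common differences -/
lemma build (b : ℕ) (hb : 2 ≤ b) (s : ℕ) (A : Fin n × Fin k → Finset ℤ)
    (hA : ∀ i, ∀ x ∈ A i, 0 ≤ x ∧ x < b) (hA2 : ∀ i, 2 ≤ (A i).card) (v : Fin n) (c₀ : ℤ) (hc₀ : c₀ ≠ 0) (η : ℝ) (hη : 0 < η)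
    (κ : ℝ) (hκ : 0 < κ) (θ : ℕ → ℝ) (T : Finset ℕ) (z : ℕ → ℤ)
    (hz : ∀ r < d + 1, (b : ℤ) ^ (r * k) ≤ |z r| * (b : ℤ) ^ (d * d * s) ∧ |z r| ≤ (b : ℤ) ^ (r * k + d * d * s))
    (hT : ∀ t ∈ T, ∀ r < d + 1, η / 4 ≤ PR A (wtb b) (R1 n k v d s) (θ t) (z r * c₀)) :
    ∃ D : ℕ → ℕ, (∀ j ∈ Jp d k ((d * d + d + 1) * s), b ^ j ≤ (c₀.natAbs * b ^ 2) * D j ∧ D j ≤ (c₀.natAbs * b ^ 2) * b ^ j) ∧
      ∀ t ∈ T, (((Jp d k ((d * d + d + 1) * s)).filter (fun j => Far κ D θ j t)).card : ℝ) ≤ (d + 1) * (b ^ 2 / (4 * κ ^ 2) * Real.log (1 / (η / 4))) := by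
  have hb0 : (0 : ℤ) < b := by exact_mod_cast (by omega : 0 < b)
  have hbn : 1 < b := by omega
  -- two different digits
  have hxy : ∀ i, ∃ x y : ℤ, x ∈ A i ∧ y ∈ A i ∧ y < x := by
    intro i
    obtain ⟨x, hx, y, hy, hne⟩ := one_lt_card.1 (show 1 < (A i).card by have := hA2 i; omega)
    rcases lt_or_gt_of_ne hne with h | h
    · exact ⟨y, x, hy, hx, h⟩
    · exact ⟨x, y, hx, hy, h⟩
  choose X Y hX hY hXY using hxy
  obtain ⟨μ, hμ⟩ : ∃ μ : ℕ → ℕ, μ = fun r => Nat.log b (z r).natAbs := ⟨_, rfl⟩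
  have hzr : ∀ r < d + 1, z r ≠ 0 ∧ b ^ μ r ≤ (z r).natAbs ∧ (z r).natAbs < b ^ (μ r + 1) ∧ r * k ≤ μ r + d * d * s ∧ μ r ≤ r * k + d * d * s := by
    intro r hr
    obtain ⟨h1, h2⟩ := hz r hr
    have h3 : z r ≠ 0 := by
      intro h0
      rw [h0, abs_zero, zero_mul] at h1
      exact absurd h1 (not_le.2 (pow_pos hb0 _))
    have h4 : (z r).natAbs ≠ 0 := Int.natAbs_ne_zero.2 h3
    have h5 : b ^ μ r ≤ (z r).natAbs := by rw [hμ]; exact Nat.pow_log_le_self b h4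
    have h6 : (z r).natAbs < b ^ (μ r + 1) := by rw [hμ]; exact Nat.lt_pow_succ_log_self hbn _
    have h1' : b ^ (r * k) ≤ (z r).natAbs * b ^ (d * d * s) := by
      rw [Int.abs_eq_natAbs] at h1
      exact_mod_cast h1
    have h2' : (z r).natAbs ≤ b ^ (r * k + d * d * s) := by
      rw [Int.abs_eq_natAbs] at h2
      exact_mod_cast h2
    refine ⟨h3, h5, h6, ?_, ?_⟩
    · have h7 : b ^ (r * k) < b ^ (μ r + 1 + d * d * s) := by
        rw [pow_add b (μ r + 1)]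
        exact h1'.trans_lt (Nat.mul_lt_mul_of_pos_right h6 (by positivity))
      have := (Nat.pow_lt_pow_iff_right hbn).1 h7
      omega
    · exact (Nat.pow_le_pow_iff_right hbn).1 (h5.trans h2')
  obtain ⟨g, hg⟩ : ∃ g, g = (d * d + d + 1) * s := ⟨_, rfl⟩
  have hgs : g = d * d * s + d * s + s := by rw [hg]; ring
  rw [← hg]
  have hJ : ∀ j ∈ Jp d k g, j / k < d + 1 ∧ μ (j / k) ≤ j ∧ d * s ≤ j - μ (j / k) ∧ j - μ (j / k) < k - d * s ∧ j - μ (j / k) < k := by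
    intro j hj
    unfold Jp at hj
    rw [mem_filter, mem_range] at hj
    obtain ⟨h1, h2, h3⟩ := hj
    have hk : 0 < k := by omega
    have h4 : j / k < d + 1 := (Nat.div_lt_iff_lt_mul hk).2 h1
    obtain ⟨_, _, _, h5, h6⟩ := hzr (j / k) h4
    have h7 := Nat.div_add_mod j k
    have h8 : k * (j / k) = j / k * k := Nat.mul_comm _ _
    refine ⟨h4, ?_, ?_, ?_, ?_⟩ <;> omega
  obtain ⟨q, hq⟩ : ∃ q : ℕ → ℤ, q = fun j => if h : j - μ (j / k) < k then
      (X (v, ⟨j - μ (j / k), h⟩) - Y (v, ⟨j - μ (j / k), h⟩)) * (z (j / k) * c₀ * (b : ℤ) ^ (j - μ (j / k))) else 0 := ⟨_, rfl⟩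
  refine ⟨fun j => (q j).natAbs, ?_, ?_⟩
  · intro j hj
    obtain ⟨h1, h2, h3, h4, h5⟩ := hJ j hj
    obtain ⟨g1, g2, g3, g4, g5⟩ := hzr (j / k) h1
    have hqj : (q j).natAbs = (X (v, ⟨j - μ (j / k), h5⟩) - Y (v, ⟨j - μ (j / k), h5⟩)).natAbs * ((z (j / k)).natAbs * c₀.natAbs * b ^ (j - μ (j / k))) := by
      rw [hq]
      simp only [dif_pos h5]
      rw [Int.natAbs_mul, Int.natAbs_mul, Int.natAbs_mul, Int.natAbs_pow, Int.natAbs_natCast]
    simp only [hqj]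
    obtain ⟨e, he⟩ : ∃ e, e = (X (v, ⟨j - μ (j / k), h5⟩) - Y (v, ⟨j - μ (j / k), h5⟩)).natAbs := ⟨_, rfl⟩
    rw [← he]
    have he1 : 1 ≤ e := by
      rw [he]
      have := hXY (v, ⟨j - μ (j / k), h5⟩)
      omega
    have he2 : e ≤ b := by
      rw [he]
      have g6 := hA _ _ (hX (v, ⟨j - μ (j / k), h5⟩))
      have g7 := hA _ _ (hY (v, ⟨j - μ (j / k), h5⟩))
      omega
    have hc1 : 1 ≤ c₀.natAbs := Nat.one_le_iff_ne_zero.2 (Int.natAbs_ne_zero.2 hc₀)
    have hjj : b ^ j = b ^ μ (j / k) * b ^ (j - μ (j / k)) := by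
      rw [← pow_add]; congr 1; omega
    constructor
    · calc b ^ j = b ^ μ (j / k) * b ^ (j - μ (j / k)) := hjj
        _ ≤ (z (j / k)).natAbs * b ^ (j - μ (j / k)) := Nat.mul_le_mul_right _ g2
        _ = 1 * 1 * (1 * ((z (j / k)).natAbs * 1 * b ^ (j - μ (j / k)))) := by ring
        _ ≤ (c₀.natAbs * b ^ 2) * (e * ((z (j / k)).natAbs * c₀.natAbs * b ^ (j - μ (j / k)))) := by
            apply Nat.mul_le_mul (Nat.mul_le_mul hc1 (Nat.one_le_pow _ _ (by omega)))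
            exact Nat.mul_le_mul he1 (Nat.mul_le_mul_right _ (Nat.mul_le_mul_left _ hc1))
    · calc e * ((z (j / k)).natAbs * c₀.natAbs * b ^ (j - μ (j / k))) ≤ b * (b ^ (μ (j / k) + 1) * c₀.natAbs * b ^ (j - μ (j / k))) :=
          Nat.mul_le_mul he2 (Nat.mul_le_mul_right _ (Nat.mul_le_mul_right _ g3.le))
        _ = (c₀.natAbs * b ^ 2) * (b ^ μ (j / k) * b ^ (j - μ (j / k))) := by ring
        _ = _ := by rw [← hjj]
  · intro t ht
    -- the far positions of the digits for the system `r`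
    obtain ⟨Fr, hFr⟩ : ∃ Fr : ℕ → Finset (Fin n × Fin k), Fr = fun r => (R1 n k v d s).filter (fun i =>
        κ < |((X i - Y i : ℤ) : ℝ) * (θ t * (z r * c₀ : ℤ) * (wtb b i : ℤ)) - round (((X i - Y i : ℤ) : ℝ) * (θ t * (z r * c₀ : ℤ) * (wtb b i : ℤ)))|) := ⟨_, rfl⟩
    have hcardb : ∀ i, (A i).card ≤ b := by
      intro i
      have h1 : A i ⊆ Ico (0 : ℤ) b := fun x hx => mem_Ico.2 (hA i x hx)
      have h2 := card_le_card h1
      rwa [Int.card_Ico, sub_zero, Int.toNat_natCast] at h2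
    have h1 : ∀ r < d + 1, ((Fr r).card : ℝ) ≤ b ^ 2 / (4 * κ ^ 2) * Real.log (1 / (η / 4)) := by
      intro r hr
      rw [hFr]
      exact far_card A (wtb b) (R1 n k v d s) b (by omega) hcardb X Y (fun i _ => hX i) (fun i _ => hY i) (θ t) (z r * c₀) κ hκ (η / 4) (by positivity) (hT t ht r hr)
    have h2 : ((Jp d k g).filter (fun j => Far κ (fun j => (q j).natAbs) θ j t)).card ≤ ∑ r ∈ range (d + 1), (Fr r).card := by
      have h3 := card_eq_sum_card_fiberwise (s := (Jp d k g).filter (fun j => Far κ (fun j => (q j).natAbs) θ j t)) (t := range (d + 1)) (f := fun j => j / k)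
        (by
          intro j hj
          rw [mem_coe, mem_filter] at hj
          rw [mem_coe, mem_range]
          exact (hJ j hj.1).1)
      rw [h3]
      apply sum_le_sum
      intro r hr
      rw [mem_range] at hr
      have hdig : ∀ j ∈ ((Jp d k g).filter (fun j => Far κ (fun j => (q j).natAbs) θ j t)).filter (fun j => j / k = r), ∃ h : j - μ r < k, (v, (⟨j - μ r, h⟩ : Fin k)) ∈ Fr r := by
        intro j hj
        rw [mem_filter, mem_filter] at hj
        obtain ⟨⟨g1, g2⟩, g3⟩ := hj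
        obtain ⟨f1, f2, f3, f4, f5⟩ := hJ j g1
        rw [g3] at f2 f3 f4 f5
        refine ⟨f5, ?_⟩
        rw [hFr]
        simp only
        rw [mem_filter]
        refine ⟨?_, ?_⟩
        · unfold R1
          rw [mem_blk]
          exact ⟨rfl, f3, f4⟩
        · unfold Far at g2
          rw [rd_natAbs] at g2
          have hqj : (q j : ℝ) * θ t = ((X (v, ⟨j - μ r, f5⟩) - Y (v, ⟨j - μ r, f5⟩) : ℤ) : ℝ) * (θ t * (z r * c₀ : ℤ) * (wtb b (v, (⟨j - μ r, f5⟩ : Fin k)) : ℤ)) := by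
            rw [hq]
            simp only [g3, dif_pos f5, wtb]
            push_cast
            ring
          rw [hqj] at g2
          exact g2
      have hsub : ((Jp d k g).filter (fun j => Far κ (fun j => (q j).natAbs) θ j t)).filter (fun j => j / k = r) ⊆
          (Fr r).image (fun i => (i.2 : ℕ) + μ r) := by
        intro j hj
        obtain ⟨h, hh⟩ := hdig j hj
        rw [mem_image]
        refine ⟨_, hh, ?_⟩
        rw [mem_filter, mem_filter] at hj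
        have f1 := (hJ j hj.1.1).2.1
        rw [hj.2] at f1
        simp only
        omega
      exact (card_le_card hsub).trans card_image_le
    calc (((Jp d k g).filter (fun j => Far κ (fun j => (q j).natAbs) θ j t)).card : ℝ) ≤ ((∑ r ∈ range (d + 1), (Fr r).card : ℕ) : ℝ) := by exact_mod_cast h2
      _ = ∑ r ∈ range (d + 1), ((Fr r).card : ℝ) := by push_cast; rfl
      _ ≤ ∑ _r ∈ range (d + 1), b ^ 2 / (4 * κ ^ 2) * Real.log (1 / (η / 4)) := sum_le_sum fun r hr => h1 r (mem_range.1 hr)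
      _ = _ := by rw [sum_const, card_range, nsmul_eq_mul]; push_cast; ring

end Pool.Agent.H56.PD
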