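import Pool.Agent.H56.PD.Law

/-! Goldbach representations of the values of polynomials at integers with restricted digits. -/

set_option autoImplicit false

namespace Pool.Agent.H56.PD

open Finset
open Pool.Agent.H807R2.Dav
open Pool.Agent.Y885

/-- the numbers `x < b ^ k` all of whose digits in base `b` are allowed: the digit of `b ^ j` is in `A j` -/
def withDigits (b k : ℕ) (A : ℕ → Finset ℕ) : Finset ℕ := (range (b ^ k)).filter (fun x => ∀ j < k, x / b ^ j % b ∈ A j)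

lemma digit_sum (b k : ℕ) (hb : 2 ≤ b) (a : ℕ → ℕ) (ha : ∀ j < k, a j < b) : ∑ i ∈ range k, a i * b ^ i < b ^ k ∧
    ∀ j < k, (∑ i ∈ range k, a i * b ^ i) / b ^ j % b = a j := by
  induction k with
  | zero => exact ⟨by simp, by intro j hj; omega⟩
  | succ k ih =>
    obtain ⟨h1, h2⟩ := ih fun j hj => ha j (by omega)
    rw [sum_range_succ]
    have hak := ha k (by omega)
    refine ⟨?_, ?_⟩
    · calc _ < b ^ k + a k * b ^ k := Nat.add_lt_add_right h1 _
        _ = (a k + 1) * b ^ k := by ring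
        _ ≤ b * b ^ k := Nat.mul_le_mul_right _ hak
        _ = _ := by rw [pow_succ]; ring
    · intro j hj
      rcases Nat.lt_or_ge j k with h | h
      · have h3 : a k * b ^ k = b ^ j * (b * (a k * b ^ (k - j - 1))) := by
          have : b ^ k = b ^ j * (b * b ^ (k - j - 1)) := by
            rw [← pow_succ', ← pow_add]; congr 1; omega
          rw [this]; ring
        rw [h3, Nat.add_mul_div_left _ _ (by positivity), Nat.add_mul_mod_self_left]
        exact h2 j h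
      · rw [show j = k by omega, Nat.add_mul_div_right _ _ (by positivity), Nat.div_eq_of_lt h1, zero_add, Nat.mod_eq_of_lt hak]

lemma sum_digit (b k : ℕ) (hb : 2 ≤ b) (x : ℕ) (hx : x < b ^ k) : ∑ i ∈ range k, (x / b ^ i % b) * b ^ i = x := by
  induction k generalizing x with
  | zero => simp at hx ⊢; omega
  | succ k ih =>
    rw [sum_range_succ']
    have h1 : x / b < b ^ k := by
      rw [Nat.div_lt_iff_lt_mul (by omega)]
      rw [pow_succ] at hx
      exact hx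
    have h2 := ih (x / b) h1
    have h3 : ∑ i ∈ range k, (x / b ^ (i + 1) % b) * b ^ (i + 1) = b * ∑ i ∈ range k, (x / b / b ^ i % b) * b ^ i := by
      rw [mul_sum]
      apply sum_congr rfl
      intro i _
      rw [Nat.div_div_eq_div_mul, pow_succ']
      ring
    rw [h3, h2, pow_zero, mul_one, Nat.div_one]
    exact Nat.div_add_mod x b

variable {n : ℕ}

/-- the allowed digits as integers -/
def AZ (k : ℕ) (A : Fin n → ℕ → Finset ℕ) : Fin n × Fin k → Finset ℤ := fun i => (A i.1 i.2).map Nat.castEmbedding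

/-- the vector with given digits -/
def vec (b k : ℕ) (ω : Fin n × Fin k → ℤ) : Fin n → ℕ := fun i => ∑ j ∈ range k, (if h : j < k then (ω (i, ⟨j, h⟩)).toNat else 0) * b ^ j

/-- the digits of a vector -/
def dgs (b k : ℕ) (x : Fin n → ℕ) : Fin n × Fin k → ℤ := fun i => ((x i.1 / b ^ (i.2 : ℕ) % b : ℕ) : ℤ)

lemma val_dgs (b k : ℕ) (hb : 2 ≤ b) (x : Fin n → ℕ) (hx : ∀ i, x i < b ^ k) :
    val Prod.fst (wtb b) univ (dgs b k x) = fun i => (x i : ℤ) := by
  funext i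
  unfold val
  rw [Finset.sum_apply]
  have h1 : ∀ p : Fin n × Fin k, (Pi.single (p.1) (dgs b k x p * wtb b p) : Fin n → ℤ) i =
      if p.1 = i then ((x i / b ^ (p.2 : ℕ) % b : ℕ) : ℤ) * (b : ℤ) ^ (p.2 : ℕ) else 0 := by
    intro p
    by_cases hp : p.1 = i
    · rw [if_pos hp, ← hp, Pi.single_eq_same]; rfl
    · rw [if_neg hp, Pi.single_eq_of_ne (Ne.symm hp)]
  rw [sum_congr rfl fun p _ => h1 p, Fintype.sum_prod_type]
  rw [sum_eq_single i]
  · simp only [if_true]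
    rw [Fin.sum_univ_eq_sum_range (fun j => ((x i / b ^ j % b : ℕ) : ℤ) * (b : ℤ) ^ j) k]
    have := sum_digit b k hb (x i) (hx i)
    exact_mod_cast this
  · intro v _ hv
    simp only [if_neg hv, sum_const_zero]
  · intro h; exact absurd (mem_univ i) h

lemma dgs_mem (b k : ℕ) (A : Fin n → ℕ → Finset ℕ) (x : Fin n → ℕ) (hx : x ∈ Fintype.piFinset fun i => withDigits b k (A i)) :
    dgs b k x ∈ Fintype.piFinset (AZ k A) := by
  rw [Fintype.mem_piFinset] at hx ⊢
  intro p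
  have h1 := hx p.1
  unfold withDigits at h1
  rw [mem_filter] at h1
  unfold AZ dgs
  rw [mem_map]
  exact ⟨_, h1.2 p.2 p.2.2, rfl⟩

lemma card_digits (b k : ℕ) (hb : 2 ≤ b) (A : Fin n → ℕ → Finset ℕ) (hA : ∀ i, ∀ j < k, A i j ⊆ range b) :
    (Fintype.piFinset (AZ k A)).card ≤ (Fintype.piFinset fun i => withDigits b k (A i)).card := by
  apply card_le_card_of_injOn (vec b k)
  · intro ω hω
    rw [mem_coe, Fintype.mem_piFinset] at hω ⊢
    intro i
    have h1 : ∀ j < k, (if h : j < k then (ω (i, ⟨j, h⟩)).toNat else 0) ∈ A i j := by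
      intro j hj
      rw [dif_pos hj]
      have h2 := hω (i, ⟨j, hj⟩)
      unfold AZ at h2
      rw [mem_map] at h2
      obtain ⟨a, ha, hae⟩ := h2
      rw [← hae]
      simpa using ha
    have h2 := digit_sum b k hb (fun j => if h : j < k then (ω (i, ⟨j, h⟩)).toNat else 0) (fun j hj => mem_range.1 (hA i j hj (h1 j hj)))
    unfold withDigits
    rw [mem_filter, mem_range]
    refine ⟨h2.1, fun j hj => ?_⟩
    unfold vec
    rw [h2.2 j hj]
    exact h1 j hj
  · intro ω hω ω' hω' h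
    rw [mem_coe, Fintype.mem_piFinset] at hω hω'
    funext p
    obtain ⟨i, j⟩ := p
    have hh : ∀ (ω : Fin n × Fin k → ℤ), (∀ a, ω a ∈ AZ k A a) → ((vec b k ω i / b ^ (j : ℕ) % b : ℕ) : ℤ) = ω (i, j) := by
      intro ω hω
      have h1 : ∀ j < k, (if h : j < k then (ω (i, ⟨j, h⟩)).toNat else 0) ∈ A i j := by
        intro j hj
        rw [dif_pos hj]
        have h2 := hω (i, ⟨j, hj⟩)
        unfold AZ at h2
        rw [mem_map] at h2
        obtain ⟨a, ha, hae⟩ := h2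
        rw [← hae]
        simpa using ha
      have h2 := digit_sum b k hb (fun j => if h : j < k then (ω (i, ⟨j, h⟩)).toNat else 0) (fun j hj => mem_range.1 (hA i j hj (h1 j hj)))
      unfold vec
      rw [h2.2 j j.2, dif_pos j.2]
      have h3 := hω (i, j)
      unfold AZ at h3
      rw [mem_map] at h3
      obtain ⟨a, ha, hae⟩ := h3
      simp only [Fin.eta]
      rw [← hae]
      simp
    rw [← hh ω hω, ← hh ω' hω', h]

lemma eval_bound (F : MvPolynomial (Fin n) ℤ) : ∃ C : ℕ, ∀ (M : ℕ) (x : Fin n → ℤ), 1 ≤ M → (∀ i, |x i| ≤ M) →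
    |MvPolynomial.eval x F| ≤ (C : ℤ) * (M : ℤ) ^ F.totalDegree := by
  refine ⟨∑ m ∈ F.support, (F.coeff m).natAbs, fun M x hM hx => ?_⟩
  have hM1 : (1 : ℤ) ≤ M := by exact_mod_cast hM
  rw [MvPolynomial.eval_eq']
  refine (abs_sum_le_sum_abs _ _).trans ?_
  push_cast
  rw [sum_mul]
  apply sum_le_sum
  intro m hm
  rw [abs_mul]
  apply mul_le_mul_of_nonneg_left _ (abs_nonneg _)
  rw [abs_prod]
  have h1 : ∏ i, |x i ^ m i| ≤ ∏ i, (M : ℤ) ^ m i := by
    apply prod_le_prod (fun _ _ => abs_nonneg _)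
    intro i _
    rw [abs_pow]
    exact pow_le_pow_left₀ (abs_nonneg _) (hx i) _
  refine h1.trans ?_
  rw [prod_pow_eq_pow_sum]
  apply pow_le_pow_right₀ hM1
  have h2 := MvPolynomial.le_totalDegree hm
  rw [Finsupp.sum_fintype _ _ (fun _ => rfl)] at h2
  exact h2

open Classical in
/-- the main theorem -/
theorem main (b n : ℕ) (hb : 2 ≤ b) (F : MvPolynomial (Fin n) ℤ) (hF : 1 ≤ F.totalDegree) (B E U : ℕ) (ε : ℝ) (hε : 0 < ε) :
    ∃ k₀ : ℕ, ∀ k : ℕ, k₀ ≤ k → ∀ A : Fin n → ℕ → Finset ℕ, (∀ i, ∀ j < k, A i j ⊆ range b ∧ 2 ≤ (A i j).card) →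
      ∀ c : ℤ, |c| ≤ (B : ℤ) * (b : ℤ) ^ (k * F.totalDegree) →
      (((Fintype.piFinset fun i => withDigits b k (A i)).filter fun x => ¬ ∀ m : ℕ, 0 < m → Even m →
        |(m : ℤ) - (c + MvPolynomial.eval (fun i => (x i : ℤ)) F)| ≤ (k : ℤ) ^ E →
        |(Pool.Agent.H560R3.GB.g m : ℝ) - Pool.Agent.H560R3.GB.HL m| ≤ ε * Pool.Agent.H560R3.GB.HL m).card : ℝ) ≤
        ((Fintype.piFinset fun i => withDigits b k (A i)).card : ℝ) / (k : ℝ) ^ U := by
  obtain ⟨d, hd⟩ : ∃ d, F.totalDegree = d + 1 := ⟨F.totalDegree - 1, by omega⟩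
  obtain ⟨hdeg, is, his, hne⟩ := exists_dirs F d hd
  -- the directions
  obtain ⟨u, v, huv⟩ : ∃ (u : Fin d → Fin n) (v : Fin n), is = List.ofFn u ++ [v] := by
    have hne0 : is ≠ [] := by intro h; rw [h] at his; simp at his
    refine ⟨fun l => is.dropLast.get ⟨l, by rw [List.length_dropLast, his]; simp⟩, is.getLast hne0, ?_⟩
    have h1 : List.ofFn (fun l : Fin d => is.dropLast.get ⟨l, by rw [List.length_dropLast, his]; simp⟩) = is.dropLast := by
      apply List.ext_getElem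
      · rw [List.length_ofFn, List.length_dropLast, his]; simp
      · intro i h1 h2
        simp
    rw [h1, List.dropLast_append_getLast]
  rw [huv] at hne
  obtain ⟨CF, hCF⟩ := eval_bound F
  obtain ⟨e, he⟩ : ∃ e : ℕ, CF + B + 1 ≤ b ^ e := ⟨CF + B + 1, (Nat.lt_pow_self (by omega)).le⟩
  obtain ⟨c₁, K₁, hlaw1⟩ := poly_law b hb _ hdeg u v hne e (U + E + 2 + 2)
  obtain ⟨V, hV⟩ := tl_goldbach b hb 8 c₁ (U + E + 2) (by norm_num) ε hε
  obtain ⟨c₂, K₂, hlaw2⟩ := poly_law b hb _ hdeg u v hne e V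
  obtain ⟨K₃, hK₃⟩ := hV c₂
  -- `k ^ E ≤ b ^ k`
  obtain ⟨k₁, hk₁⟩ : ∃ k₁ : ℕ, ∀ k : ℕ, k₁ ≤ k → k ^ E ≤ b ^ k := by
    have h1 := (isLittleO_pow_const_const_pow_of_one_lt (R := ℝ) E (show (1 : ℝ) < b by exact_mod_cast (by omega : 1 < b))).bound (show (0 : ℝ) < 1 by norm_num)
    obtain ⟨k₁, h2⟩ := Filter.eventually_atTop.1 h1
    refine ⟨k₁, fun k hk => ?_⟩
    have h3 := h2 k hk
    rw [one_mul, Real.norm_of_nonneg (by positivity), Real.norm_of_nonneg (by positivity)] at h3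
    exact_mod_cast h3
  refine ⟨max (max K₁ K₂) (max K₃ (max k₁ 3)), fun k hk A hA c hc => ?_⟩
  simp only [max_le_iff] at hk
  obtain ⟨⟨hkK₁, hkK₂⟩, hkK₃, hkk₁, hk3⟩ := hk
  obtain ⟨K, hK⟩ : ∃ K, K = (d + 1) * k + e := ⟨_, rfl⟩
  have hkK : k ≤ K := by rw [hK]; nlinarith
  have hk0 : (0 : ℝ) < k := by exact_mod_cast (by omega : 0 < k)
  have hkKr : (k : ℝ) ≤ K := by exact_mod_cast hkK
  obtain ⟨X, hX⟩ : ∃ X, X = Fintype.piFinset fun i => withDigits b k (A i) := ⟨_, rfl⟩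
  obtain ⟨Ω, hΩ⟩ : ∃ Ω, Ω = Fintype.piFinset (AZ k A) := ⟨_, rfl⟩
  rw [← hX]
  have hAZ : ∀ i, ∀ x ∈ AZ k A i, 0 ≤ x ∧ x < b := by
    intro i x hx
    unfold AZ at hx
    rw [mem_map] at hx
    obtain ⟨a, ha, hax⟩ := hx
    have h1 := mem_range.1 ((hA i.1 i.2 i.2.2).1 ha)
    rw [← hax]
    simp only [Nat.castEmbedding_apply]
    constructor
    · positivity
    · exact_mod_cast h1
  have hAZ2 : ∀ i, 2 ≤ (AZ k A i).card := by
    intro i
    unfold AZ
    rw [card_map]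
    exact (hA i.1 i.2 i.2.2).2
  have hΩne : Ω.Nonempty := by
    rw [hΩ]
    exact Fintype.piFinset_nonempty.2 fun i => card_pos.1 (by have := hAZ2 i; omega)
  have hΩX : Ω.card ≤ X.card := by
    rw [hΩ, hX]
    exact card_digits b k hb A fun i j hj => (hA i j hj).1
  have hΩ0 : (0 : ℝ) < Ω.card := by exact_mod_cast card_pos.2 hΩne
  obtain ⟨Fv, hFv⟩ : ∃ Fv : (Fin n × Fin k → ℤ) → ℤ, Fv = fun ω => MvPolynomial.eval (val Prod.fst (wtb b) univ ω) F := ⟨_, rfl⟩
  -- the values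
  have hbk : 1 ≤ b ^ k := Nat.one_le_pow _ _ (by omega)
  have hsize : ∀ h : ℤ, |h| ≤ (k : ℤ) ^ E → ∀ ω ∈ Ω, c + h + Fv ω ≤ (b : ℤ) ^ K := by
    intro h hh ω hω
    have h1 : ∀ i, |val Prod.fst (wtb b) univ ω i| ≤ ((b ^ k : ℕ) : ℤ) := by
      intro i
      rw [hΩ, Fintype.mem_piFinset] at hω
      unfold val
      rw [Finset.sum_apply]
      have h2 : ∀ p : Fin n × Fin k, (Pi.single (p.1) (ω p * wtb b p) : Fin n → ℤ) i = if p.1 = i then ω (i, p.2) * (b : ℤ) ^ (p.2 : ℕ) else 0 := by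
        intro p
        by_cases hp : p.1 = i
        · rw [if_pos hp, ← hp, Pi.single_eq_same]; rfl
        · rw [if_neg hp, Pi.single_eq_of_ne (Ne.symm hp)]
      rw [sum_congr rfl fun p _ => h2 p, Fintype.sum_prod_type, sum_eq_single i]
      · simp only [if_true]
        obtain ⟨f, hf⟩ : ∃ f : ℕ → ℤ, f = fun j => if h : j < k then ω (i, ⟨j, h⟩) else 0 := ⟨_, rfl⟩
        have h3 : ∑ j : Fin k, ω (i, j) * (b : ℤ) ^ (j : ℕ) = ∑ j ∈ Ico 0 k, f j * (b : ℤ) ^ j := by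
          rw [← range_eq_Ico, ← Fin.sum_univ_eq_sum_range (fun j => f j * (b : ℤ) ^ j) k]
          apply sum_congr rfl
          intro j _
          rw [hf]
          simp only [dif_pos j.2]
        rw [h3]
        have h4 := dig_abs b hb f (by
          intro j
          rw [hf]
          simp only
          split_ifs with h5
          · have h6 := hAZ _ _ (hω (i, ⟨j, h5⟩))
            rw [abs_le]; constructor <;> linarith [h6.1, h6.2]
          · rw [abs_zero]; linarith [(by exact_mod_cast hb : (2 : ℤ) ≤ b)]) 0 k (by omega)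
        push_cast
        exact h4.le
      · intro w _ hw
        simp only [if_neg hw, sum_const_zero]
      · intro h; exact absurd (mem_univ i) h
    have h2 := hCF (b ^ k) _ hbk h1
    rw [hd] at h2 hc
    have h3 : |c + h + Fv ω| ≤ (CF + B + 1 : ℤ) * (b : ℤ) ^ ((d + 1) * k) := by
      have h4 : |h| ≤ (b : ℤ) ^ ((d + 1) * k) := by
        refine hh.trans ?_
        have h5 : k ^ E ≤ b ^ ((d + 1) * k) := (hk₁ k hkk₁).trans (Nat.pow_le_pow_right (by omega) (by nlinarith))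
        exact_mod_cast h5
      have h5 : |Fv ω| ≤ CF * (b : ℤ) ^ ((d + 1) * k) := by
        rw [hFv]
        refine h2.trans (le_of_eq ?_)
        push_cast
        rw [← pow_mul, Nat.mul_comm k]
      rw [Nat.mul_comm k] at hc
      calc |c + h + Fv ω| ≤ |c + h| + |Fv ω| := abs_add_le _ _
        _ ≤ |c| + |h| + |Fv ω| := by linarith [abs_add_le c h]
        _ ≤ (B : ℤ) * (b : ℤ) ^ ((d + 1) * k) + (b : ℤ) ^ ((d + 1) * k) + CF * (b : ℤ) ^ ((d + 1) * k) := by linarith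
        _ = _ := by ring
    refine (le_abs_self _).trans (h3.trans ?_)
    rw [hK, pow_add, mul_comm]
    apply mul_le_mul_of_nonneg_left _ (by positivity)
    exact_mod_cast he
  -- one shift
  have hone : ∀ h : ℤ, |h| ≤ (k : ℤ) ^ E → ((Ω.filter (fun ω => 0 < c + h + Fv ω ∧ 2 ∣ c + h + Fv ω ∧
      ¬ |(Pool.Agent.H560R3.GB.g (c + h + Fv ω).toNat : ℝ) - Pool.Agent.H560R3.GB.HL (c + h + Fv ω).toNat| ≤
        ε * Pool.Agent.H560R3.GB.HL (c + h + Fv ω).toNat)).card : ℝ) ≤ Ω.card / (K : ℝ) ^ (U + E + 2) := by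
    intro h hh
    have g1 := hlaw1 k K (hkK₁.trans hkK) hK (AZ k A) hAZ hAZ2 (c + h)
    have g2 := hlaw2 k K (hkK₂.trans hkK) hK (AZ k A) hAZ hAZ2 (c + h)
    rw [← hΩ] at g1 g2
    have g3 : ∑ ω ∈ Ω, (if 0 < c + h + Fv ω ∧ 2 ∣ c + h + Fv ω ∧
      ¬ (|(Pool.Agent.H560R3.GB.g (c + h + Fv ω).toNat : ℝ) - Pool.Agent.H560R3.GB.HL (c + h + Fv ω).toNat| ≤
        ε * Pool.Agent.H560R3.GB.HL (c + h + Fv ω).toNat ∧
        ∃ p q : ℕ, p.Prime ∧ q.Prime ∧ p ≠ q ∧ p + q = (c + h + Fv ω).toNat) then ((Ω.card : ℝ)⁻¹) else 0) ≤ 1 / (K : ℝ) ^ (U + E + 2) := by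
      have g3 := hK₃ K (hkK₃.trans hkK) _ Ω _ _ g1 g2 (by
        intro ω hω
        have := hsize h hh ω hω
        rw [hFv] at this
        exact this)
      rw [hFv]
      exact g3
    have g4 : ((Ω.filter (fun ω => 0 < c + h + Fv ω ∧ 2 ∣ c + h + Fv ω ∧
      ¬ |(Pool.Agent.H560R3.GB.g (c + h + Fv ω).toNat : ℝ) - Pool.Agent.H560R3.GB.HL (c + h + Fv ω).toNat| ≤
        ε * Pool.Agent.H560R3.GB.HL (c + h + Fv ω).toNat)).card : ℝ) * ((Ω.card : ℝ)⁻¹) ≤ 1 / (K : ℝ) ^ (U + E + 2) := by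
      refine le_trans ?_ g3
      rw [← nsmul_eq_mul, ← sum_const, sum_filter]
      apply sum_le_sum
      intro ω _
      by_cases g5 : 0 < c + h + Fv ω ∧ 2 ∣ c + h + Fv ω ∧
        ¬ |(Pool.Agent.H560R3.GB.g (c + h + Fv ω).toNat : ℝ) - Pool.Agent.H560R3.GB.HL (c + h + Fv ω).toNat| ≤
        ε * Pool.Agent.H560R3.GB.HL (c + h + Fv ω).toNat
      · rw [if_pos g5, if_pos ⟨g5.1, g5.2.1, fun h => g5.2.2 h.1⟩]
      · rw [if_neg g5]
        split_ifs
        · positivity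
        · exact le_rfl
    rw [mul_inv_le_iff₀ hΩ0, one_div, inv_mul_eq_div] at g4
    exact g4
  -- all shifts
  obtain ⟨Hs, hHs⟩ : ∃ Hs : Finset ℤ, Hs = Icc (-((k : ℤ) ^ E)) ((k : ℤ) ^ E) := ⟨_, rfl⟩
  have hinj : ((X.filter fun x => ¬ ∀ m : ℕ, 0 < m → Even m →
        |(m : ℤ) - (c + MvPolynomial.eval (fun i => (x i : ℤ)) F)| ≤ (k : ℤ) ^ E →
        |(Pool.Agent.H560R3.GB.g m : ℝ) - Pool.Agent.H560R3.GB.HL m| ≤ ε * Pool.Agent.H560R3.GB.HL m).card) ≤
      ∑ h ∈ Hs, (Ω.filter (fun ω => 0 < c + h + Fv ω ∧ 2 ∣ c + h + Fv ω ∧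
      ¬ |(Pool.Agent.H560R3.GB.g (c + h + Fv ω).toNat : ℝ) - Pool.Agent.H560R3.GB.HL (c + h + Fv ω).toNat| ≤
        ε * Pool.Agent.H560R3.GB.HL (c + h + Fv ω).toNat)).card := by
    refine le_trans ?_ card_biUnion_le
    apply card_le_card_of_injOn (dgs b k)
    · intro x hx
      rw [mem_coe, mem_filter] at hx
      obtain ⟨hxX, hx2⟩ := hx
      push Not at hx2
      obtain ⟨m, hm0, hm2, hm3, hm4⟩ := hx2
      rw [hX] at hxX
      have hxlt : ∀ i, x i < b ^ k := by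
        intro i
        rw [Fintype.mem_piFinset] at hxX
        have := hxX i
        unfold withDigits at this
        rw [mem_filter, mem_range] at this
        exact this.1
      have h1 : Fv (dgs b k x) = MvPolynomial.eval (fun i => (x i : ℤ)) F := by
        rw [hFv]
        simp only
        rw [val_dgs b k hb x hxlt]
      rw [mem_coe, mem_biUnion]
      refine ⟨(m : ℤ) - (c + MvPolynomial.eval (fun i => (x i : ℤ)) F), ?_, ?_⟩
      · rw [hHs, mem_Icc]
        exact abs_le.1 hm3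
      · rw [mem_filter, hΩ]
        have h2 : c + ((m : ℤ) - (c + MvPolynomial.eval (fun i => (x i : ℤ)) F)) + Fv (dgs b k x) = m := by
          rw [h1]; ring
        rw [h2, Int.toNat_natCast]
        refine ⟨dgs_mem b k A x hxX, by exact_mod_cast hm0, by exact_mod_cast hm2.two_dvd, ?_⟩
        exact not_le.2 hm4
    · intro x hx y hy h
      rw [mem_coe, mem_filter, hX, Fintype.mem_piFinset] at hx hy
      funext i
      have h1 := congrFun (congrArg (fun ω => val Prod.fst (wtb b) univ ω) h) i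
      rw [val_dgs b k hb x, val_dgs b k hb y] at h1
      · exact Nat.cast_injective (R := ℤ) h1
      · intro i
        have := hy.1 i
        unfold withDigits at this
        rw [mem_filter, mem_range] at this
        exact this.1
      · intro i
        have := hx.1 i
        unfold withDigits at this
        rw [mem_filter, mem_range] at this
        exact this.1
  have hHcard : (Hs.card : ℝ) ≤ (K : ℝ) ^ (E + 2) := by
    have h1 : Hs.card = 2 * k ^ E + 1 := by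
      rw [hHs, Int.card_Icc]
      have : ((k : ℤ) ^ E + 1 - -((k : ℤ) ^ E)) = ((2 * k ^ E + 1 : ℕ) : ℤ) := by push_cast; ring
      rw [this, Int.toNat_natCast]
    have h2 : 2 * k ^ E + 1 ≤ K ^ (E + 2) := by
      have h3 : k ^ E ≤ K ^ E := Nat.pow_le_pow_left hkK E
      have h4 : 1 ≤ K ^ E := Nat.one_le_pow _ _ (by omega)
      have h5 : 3 * 3 ≤ K * K := Nat.mul_le_mul (hk3.trans hkK) (hk3.trans hkK)
      calc 2 * k ^ E + 1 ≤ 3 * K ^ E := by omega
        _ ≤ (K * K) * K ^ E := Nat.mul_le_mul_right _ (by omega)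
        _ = K ^ (E + 2) := by ring
    rw [h1]
    exact_mod_cast h2
  have hfin : ((X.filter fun x => ¬ ∀ m : ℕ, 0 < m → Even m →
        |(m : ℤ) - (c + MvPolynomial.eval (fun i => (x i : ℤ)) F)| ≤ (k : ℤ) ^ E →
        |(Pool.Agent.H560R3.GB.g m : ℝ) - Pool.Agent.H560R3.GB.HL m| ≤ ε * Pool.Agent.H560R3.GB.HL m).card : ℝ) ≤
      (K : ℝ) ^ (E + 2) * (Ω.card / (K : ℝ) ^ (U + E + 2)) := by
    calc _ ≤ ((∑ h ∈ Hs, (Ω.filter (fun ω => 0 < c + h + Fv ω ∧ 2 ∣ c + h + Fv ω ∧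
      ¬ |(Pool.Agent.H560R3.GB.g (c + h + Fv ω).toNat : ℝ) - Pool.Agent.H560R3.GB.HL (c + h + Fv ω).toNat| ≤
        ε * Pool.Agent.H560R3.GB.HL (c + h + Fv ω).toNat)).card : ℕ) : ℝ) := by exact_mod_cast hinj
      _ ≤ ∑ _h ∈ Hs, Ω.card / (K : ℝ) ^ (U + E + 2) := by
          push_cast
          apply sum_le_sum
          intro h hh
          rw [hHs, mem_Icc] at hh
          exact hone h (abs_le.2 hh)
      _ = Hs.card * (Ω.card / (K : ℝ) ^ (U + E + 2)) := by rw [sum_const, nsmul_eq_mul]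
      _ ≤ _ := mul_le_mul_of_nonneg_right hHcard (by positivity)
  refine hfin.trans ?_
  have hK0 : (0 : ℝ) < K := lt_of_lt_of_le hk0 hkKr
  have h1 : (K : ℝ) ^ (E + 2) * (Ω.card / (K : ℝ) ^ (U + E + 2)) = Ω.card / (K : ℝ) ^ U := by
    rw [show U + E + 2 = U + (E + 2) by ring, pow_add (K : ℝ) U]
    field_simp
  rw [h1]
  apply div_le_div₀ (Nat.cast_nonneg _) (by exact_mod_cast hΩX) (by positivity)
  exact pow_le_pow_left₀ hk0.le hkKr U

end Pool.Agent.H56.PD
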