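import Pool.Agent.H56.PD.Far

/-! The large spectrum of the values of a polynomial at integers with restricted digits is thin. -/

set_option autoImplicit false

namespace Pool.Agent.H56.PD

open Finset
open Pool.Agent.H807R2.Dav
open Pool.Agent.Y885

variable {n d : ℕ}

lemma natlog_le (K : ℕ) (hK : 3 ≤ K) : 1 ≤ Real.log K ∧ ((Nat.log 2 K + 1 : ℕ) : ℝ) ≤ 3 * Real.log K := by
  have hK0 : (0 : ℝ) < K := by exact_mod_cast (by omega : 0 < K)
  have h1 : 1 ≤ Real.log K := by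
    rw [Real.le_log_iff_exp_le hK0]
    have h2 := Real.exp_one_lt_d9
    have h3 : (3 : ℝ) ≤ K := by exact_mod_cast hK
    linarith
  refine ⟨h1, ?_⟩
  have h2 : (Nat.log 2 K : ℝ) ≤ Real.logb 2 K := Real.natLog_le_logb K 2
  have h3 : Real.logb 2 K ≤ 2 * Real.log K := by
    unfold Real.logb
    have h4 := Real.log_two_gt_d9
    rw [div_le_iff₀ (by linarith)]
    nlinarith
  push_cast
  linarith

lemma half_pow (K C W d : ℕ) (hK : 3 ≤ K) (hC : C = W + 4 * (d + 1)) : d * (1 / 2 : ℝ) ^ (C * (Nat.log 2 K + 1)) ≤ 1 / (K : ℝ) ^ W / 4 := by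
  have hK0 : (0 : ℝ) < K := by exact_mod_cast (by omega : 0 < K)
  have hK2 : (2 : ℝ) ≤ K := by exact_mod_cast (by omega : 2 ≤ K)
  have h1 : (K : ℝ) ≤ 2 ^ (Nat.log 2 K + 1) := by
    exact_mod_cast (Nat.lt_pow_succ_log_self (by norm_num) K).le
  have h2 : (1 / 2 : ℝ) ^ (C * (Nat.log 2 K + 1)) ≤ 1 / (K : ℝ) ^ C := by
    rw [mul_comm, pow_mul, div_pow, one_pow, div_pow, one_pow]
    apply one_div_le_one_div_of_le (by positivity)
    exact pow_le_pow_left₀ hK0.le h1 C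
  have h3 : 1 / (K : ℝ) ^ C ≤ 1 / (K : ℝ) ^ W * (1 / (2 : ℝ) ^ (4 * (d + 1))) := by
    rw [hC, pow_add, one_div_mul_one_div]
    apply one_div_le_one_div_of_le (by positivity)
    exact mul_le_mul_of_nonneg_left (pow_le_pow_left₀ (by norm_num) hK2 _) (by positivity)
  have h4 : (d : ℝ) * (1 / (2 : ℝ) ^ (4 * (d + 1))) ≤ 1 / 4 := by
    have h5 : (d : ℝ) ≤ 2 ^ d := by exact_mod_cast (Nat.lt_two_pow_self).le
    have h6 : (2 : ℝ) ^ (4 * (d + 1)) = 2 ^ d * (16 * 2 ^ (3 * d)) := by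
      rw [show 4 * (d + 1) = d + (4 + 3 * d) by ring, pow_add, pow_add]; norm_num
    have h7 : (1 : ℝ) ≤ 2 ^ (3 * d) := one_le_pow₀ (by norm_num)
    rw [h6, mul_one_div, div_le_div_iff₀ (by positivity) (by norm_num)]
    nlinarith [pow_pos (show (0 : ℝ) < 2 by norm_num) d]
  calc d * (1 / 2 : ℝ) ^ (C * (Nat.log 2 K + 1)) ≤ d * (1 / (K : ℝ) ^ W * (1 / (2 : ℝ) ^ (4 * (d + 1)))) :=
        mul_le_mul_of_nonneg_left (h2.trans h3) (Nat.cast_nonneg _)
    _ = 1 / (K : ℝ) ^ W * (d * (1 / (2 : ℝ) ^ (4 * (d + 1)))) := by ring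
    _ ≤ 1 / (K : ℝ) ^ W * (1 / 4) := mul_le_mul_of_nonneg_left h4 (by positivity)
    _ = _ := by ring

lemma k_large (d C e : ℕ) : ∃ K₀ : ℕ, ∀ k K : ℕ, K₀ ≤ K → K = (d + 1) * k + e → 2 * (d * (C * (Nat.log 2 K + 1))) ≤ k := by
  have h1 := (Real.isLittleO_log_id_atTop).bound (show (0 : ℝ) < 1 / (2 * ((d : ℝ) + 1) * (6 * d * C + 1)) by positivity)
  have h2 := tendsto_natCast_atTop_atTop (R := ℝ) |>.eventually h1
  obtain ⟨K₁, hK₁⟩ := Filter.eventually_atTop.1 h2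
  refine ⟨max (max K₁ 3) (2 * e + 1), fun k K hK hKk => ?_⟩
  have hK3 : 3 ≤ K := le_trans (le_max_right _ _) (le_trans (le_max_left _ _) hK)
  have hKe : 2 * e + 1 ≤ K := le_trans (le_max_right _ _) hK
  have h3 := hK₁ K (le_trans (le_max_left _ _) (le_trans (le_max_left _ _) hK))
  obtain ⟨h4, h5⟩ := natlog_le K hK3
  rw [Real.norm_of_nonneg (by linarith), id, Real.norm_of_nonneg (Nat.cast_nonneg _)] at h3
  by_contra hcon
  push Not at hcon
  have h6 : (k : ℝ) < 2 * (d * (C * ((Nat.log 2 K + 1 : ℕ) : ℝ))) := by exact_mod_cast hcon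
  have h7 : (k : ℝ) ≤ 6 * d * C * Real.log K := by
    have h8 : 2 * (d * (C * ((Nat.log 2 K + 1 : ℕ) : ℝ))) ≤ 2 * (d * (C * (3 * Real.log K))) := by gcongr
    linarith
  have h8 : (K : ℝ) = (d + 1) * k + e := by exact_mod_cast hKk
  have h9 : 2 * (e : ℝ) + 1 ≤ K := by exact_mod_cast hKe
  have h10 : (K : ℝ) < 2 * ((d + 1) * k) + 1 := by linarith
  rw [div_mul_eq_mul_div, one_mul, le_div_iff₀ (by positivity)] at h3
  have h11 : ((d : ℝ) + 1) * k ≤ (d + 1) * (6 * d * C * Real.log K) := mul_le_mul_of_nonneg_left h7 (by positivity)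
  have h12 : (0 : ℝ) ≤ d := Nat.cast_nonneg _
  nlinarith

open Classical in
/-- the law of the values of a polynomial at integers with restricted digits -/
theorem poly_law (b : ℕ) (hb : 2 ≤ b) (F : (Fin n → ℤ) → ℤ) (hF : DegLE (d + 1) F) (u : Fin d → Fin n) (v : Fin n)
    (hc₀ : itd (List.ofFn u ++ [v]) F 0 ≠ 0) (e V : ℕ) : ∃ c K₀ : ℕ, ∀ k K : ℕ, K₀ ≤ K → K = (d + 1) * k + e →
    ∀ A : Fin n × Fin k → Finset ℤ, (∀ i, ∀ x ∈ A i, 0 ≤ x ∧ x < b) → (∀ i, 2 ≤ (A i).card) → ∀ a : ℤ,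
    TLaw b 8 c V K (Fintype.piFinset A) (fun _ => ((Fintype.piFinset A).card : ℝ)⁻¹) (fun ω => a + F (val Prod.fst (wtb b) univ ω)) := by
  obtain ⟨c₀, hc₀'⟩ : ∃ c₀, c₀ = itd (List.ofFn u ++ [v]) F 0 := ⟨_, rfl⟩
  rw [← hc₀'] at hc₀
  obtain ⟨B, hB⟩ : ∃ B : ℕ, B = c₀.natAbs * b ^ 2 := ⟨_, rfl⟩
  have hB1 : 1 ≤ B := by
    rw [hB]
    have h1 : 1 ≤ c₀.natAbs := Nat.one_le_iff_ne_zero.2 (Int.natAbs_ne_zero.2 hc₀)
    have h2 : 1 ≤ b ^ 2 := Nat.one_le_pow _ _ (by omega)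
    exact Nat.mul_le_mul h1 h2
  obtain ⟨κ, ε, hκ0, hε, hκ, hthin⟩ := thin_of b B 8 hb hB1 (by norm_num)
  obtain ⟨W, hW⟩ : ∃ W : ℕ, W = V * 2 ^ d := ⟨_, rfl⟩
  obtain ⟨C, hC⟩ : ∃ C : ℕ, C = W + 4 * (d + 1) := ⟨_, rfl⟩
  obtain ⟨c₁, hc₁⟩ : ∃ c₁ : ℝ, c₁ = (d + 1) * ((b : ℝ) ^ 2 / (4 * κ ^ 2) * (W + 2)) := ⟨_, rfl⟩
  obtain ⟨c₂, hc₂⟩ : ∃ c₂ : ℝ, c₂ = e + 1 + (d + 1) * (2 * ((d * d + d + 1) * (3 * C)) + 1) := ⟨_, rfl⟩
  obtain ⟨cT, K₁, hK₁⟩ := hthin c₂ c₁
  obtain ⟨K₂, hK₂⟩ := k_large d C e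
  refine ⟨cT + (W + 1) * (d + 1) + 3, max (max K₁ K₂) (max 3 b), fun k K hK hKk A hA hA2 a => ?_⟩
  have hKK₁ : K₁ ≤ K := le_trans (le_max_left _ _) (le_trans (le_max_left _ _) hK)
  have hKK₂ : K₂ ≤ K := le_trans (le_max_right _ _) (le_trans (le_max_left _ _) hK)
  have hK3 : 3 ≤ K := le_trans (le_max_left _ _) (le_trans (le_max_right _ _) hK)
  have hKb : b ≤ K := le_trans (le_max_right _ _) (le_trans (le_max_right _ _) hK)
  have hK0 : (0 : ℝ) < K := by exact_mod_cast (by omega : 0 < K)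
  obtain ⟨hlog1, hlog2⟩ := natlog_le K hK3
  obtain ⟨s, hs⟩ : ∃ s : ℕ, s = C * (Nat.log 2 K + 1) := ⟨_, rfl⟩
  have hks : 2 * (d * s) ≤ k := by rw [hs]; exact hK₂ k K hKK₂ hKk
  obtain ⟨η, hη⟩ : ∃ η : ℝ, η = 1 / (K : ℝ) ^ W := ⟨_, rfl⟩
  have hη0 : 0 < η := by rw [hη]; positivity
  have hsη : d * (1 / 2 : ℝ) ^ s ≤ η / 4 := by rw [hs, hη]; exact half_pow K C W d hK3 hC
  have hAne : ∀ i, (A i).Nonempty := fun i => card_pos.1 (by have := hA2 i; omega)
  have hne : (Fintype.piFinset A).Nonempty := Fintype.piFinset_nonempty.2 hAne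
  have hcard : (0 : ℝ) < (Fintype.piFinset A).card := by exact_mod_cast card_pos.2 hne
  obtain ⟨θ, hθ⟩ : ∃ θ : ℕ → ℝ, θ = fun t : ℕ => (t : ℝ) / ((b ^ (K + 1) : ℕ) : ℝ) := ⟨_, rfl⟩
  obtain ⟨S, hS⟩ : ∃ S, S = Spec b V K (Fintype.piFinset A) (fun _ => ((Fintype.piFinset A).card : ℝ)⁻¹) (fun ω => a + F (val Prod.fst (wtb b) univ ω)) := ⟨_, rfl⟩
  have hSlt : ∀ t ∈ S, t < b ^ (K + 1) := by
    intro t ht
    rw [hS] at ht
    unfold Spec at ht
    rw [mem_filter, mem_range] at ht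
    exact ht.1
  have hSη : ∀ t ∈ S, η ≤ ‖av (Fintype.piFinset A) (fun ω => ee (θ t * (F (val Prod.fst (wtb b) univ ω) : ℤ)))‖ ^ (2 ^ d) := by
    intro t ht
    rw [hS] at ht
    unfold Spec at ht
    rw [mem_filter] at ht
    have h1 := ht.2
    have h2 : ∑ ω ∈ Fintype.piFinset A, ((((Fintype.piFinset A).card : ℝ)⁻¹ : ℝ) : ℂ) *
        ee (((a + F (val Prod.fst (wtb b) univ ω) : ℤ) : ℝ) * ((t : ℝ) / ((b ^ (K + 1) : ℕ) : ℝ))) =
        ee (a * θ t) * av (Fintype.piFinset A) (fun ω => ee (θ t * (F (val Prod.fst (wtb b) univ ω) : ℤ))) := by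
      unfold av
      rw [Complex.real_smul, mul_sum, mul_sum]
      apply sum_congr rfl
      intro ω _
      rw [mul_left_comm, ← ee_add, hθ]
      congr 2
      push_cast
      ring
    rw [h2, norm_mul, norm_ee, one_mul] at h1
    rw [hη, hW, pow_mul, ← one_div_pow]
    exact pow_le_pow_left₀ (by positivity) h1.le _
  have hJ := jp_dense d k e ((d * d + d + 1) * s) K hKk c₂ (by
    rw [hc₂, hs]
    push_cast
    push_cast at hlog2
    have h1 : (0 : ℝ) ≤ C := Nat.cast_nonneg _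
    have h2 : (C : ℝ) * (Nat.log 2 K + 1) ≤ C * (3 * Real.log K) := mul_le_mul_of_nonneg_left hlog2 h1
    have h3 : (0 : ℝ) ≤ d := Nat.cast_nonneg _
    have h4 : ((d : ℝ) * d + d + 1) * (C * (Nat.log 2 K + 1)) ≤ (d * d + d + 1) * (C * (3 * Real.log K)) :=
      mul_le_mul_of_nonneg_left h2 (by positivity)
    have h5 : ((d : ℝ) + 1) * (2 * ((d * d + d + 1) * (C * (Nat.log 2 K + 1))) + 1) ≤ (d + 1) * (2 * ((d * d + d + 1) * (C * (3 * Real.log K))) + Real.log K) :=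
      mul_le_mul_of_nonneg_left (by linarith) (by positivity)
    have h6 : (e : ℝ) + 1 ≤ (e + 1) * Real.log K := le_mul_of_one_le_right (by positivity) hlog1
    calc (e : ℝ) + 1 + (d + 1) * (2 * ((d * d + d + 1) * (C * (Nat.log 2 K + 1))) + 1) ≤
        (e + 1) * Real.log K + (d + 1) * (2 * ((d * d + d + 1) * (C * (3 * Real.log K))) + Real.log K) := add_le_add h6 h5
      _ = _ := by ring)
  obtain ⟨Rr, hRr⟩ : ∃ Rr : ℕ, Rr = (2 * K ^ W) ^ (d + 1) := ⟨_, rfl⟩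
  have hRr1 : 1 ≤ Rr := by
    rw [hRr]
    exact Nat.one_le_pow _ _ (by have := Nat.one_le_pow W K (by omega); omega)
  have hRη : (η / 2) ^ (d + 1) * Rr = 1 := by
    rw [hRr, hη]
    push_cast
    rw [← mul_pow]
    have : 1 / (K : ℝ) ^ W / 2 * (2 * (K : ℝ) ^ W) = 1 := by field_simp
    rw [this, one_pow]
  have hmain : Thin b 8 (Rr * (b * (K + 2)) * K ^ cT) K (2 * K / 5) S := by
    apply thin_pieces b 8 (K ^ cT) K (2 * K / 5) Rr hb hRr1 S hSlt
    intro T hT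
    rcases T.eq_empty_or_nonempty with h0 | h0
    · exact ⟨∅, empty_subset _, by rw [h0]; simp, ⟨by simp, by simp, by simp, by simp⟩⟩
    obtain ⟨z, T', hT', h1, h2, h3⟩ := pieces b hb s hks A hA hA2 F hF u v η hη0 hsη θ (d + 1) le_rfl T (fun t ht => hSη t (hT ht))
    have hTpos : (0 : ℝ) < T.card := by exact_mod_cast card_pos.2 h0
    have hT'ne : T'.Nonempty := by
      rw [← card_pos]
      have : (0 : ℝ) < T'.card := lt_of_lt_of_le (by positivity) h1
      exact_mod_cast this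
    refine ⟨T', hT', ?_, ?_⟩
    · have h4 : (T.card : ℝ) ≤ Rr * T'.card := by
        calc (T.card : ℝ) = (η / 2) ^ (d + 1) * Rr * T.card := by rw [hRη, one_mul]
          _ = Rr * ((η / 2) ^ (d + 1) * T.card) := by ring
          _ ≤ Rr * T'.card := mul_le_mul_of_nonneg_left h1 (Nat.cast_nonneg _)
      exact_mod_cast h4
    · rw [← hc₀'] at h3
      obtain ⟨D, hD1, hD2⟩ := build b hb s A hA hA2 v c₀ hc₀ η hη0 κ hκ0 θ T' z (h2 hT'ne) h3
      apply hK₁ K hKK₁ _ hJ T' (fun t ht => hSlt t (hT (hT' ht)))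
      intro T₂ hT₂
      refine ⟨D, ?_, T₂, Subset.refl _, by omega, ?_⟩
      · rw [hB]; exact hD1
      · intro t ht
        have h4 := hD2 t (hT₂ ht)
        have h5 : (d + 1) * (b ^ 2 / (4 * κ ^ 2) * Real.log (1 / (η / 4))) ≤ c₁ * Real.log K := by
          have h6 : Real.log (1 / (η / 4)) ≤ (W + 2) * Real.log K := by
            have h7 : 1 / (η / 4) = 4 * (K : ℝ) ^ W := by rw [hη]; field_simp
            rw [h7, Real.log_mul (by norm_num) (by positivity), Real.log_pow]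
            have h8 : Real.log 4 ≤ 2 := by
              have : (4 : ℝ) = 2 ^ 2 := by norm_num
              rw [this, Real.log_pow]
              have := Real.log_two_lt_d9
              push_cast
              linarith
            linarith
          rw [hc₁]
          calc ((d : ℝ) + 1) * (b ^ 2 / (4 * κ ^ 2) * Real.log (1 / (η / 4))) ≤ (d + 1) * (b ^ 2 / (4 * κ ^ 2) * ((W + 2) * Real.log K)) := by
                gcongr
            _ = _ := by ring
        have h9 : ∀ (w : ℕ) (P : ℕ → Prop) [DecidablePred P], (((Jp d k ((d * d + d + 1) * s)).filter (fun i => P i ∧ Far κ D θ i t)).card : ℝ) ≤ ε * w + c₁ * Real.log K := by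
          intro w P _
          have g2 : (((Jp d k ((d * d + d + 1) * s)).filter (fun i => P i ∧ Far κ D θ i t)).card : ℝ) ≤ ((Jp d k ((d * d + d + 1) * s)).filter (fun j => Far κ D θ j t)).card := by
            have : ((Jp d k ((d * d + d + 1) * s)).filter (fun i => P i ∧ Far κ D θ i t)).card ≤ ((Jp d k ((d * d + d + 1) * s)).filter (fun j => Far κ D θ j t)).card := by
              apply card_le_card
              intro i hi
              rw [mem_filter] at hi ⊢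
              exact ⟨hi.1, hi.2.2⟩
            exact_mod_cast this
          have g4 : 0 ≤ ε * w := by positivity
          linarith
        rw [← hθ]
        constructor
        · intro w _
          have g2 := h9 w (fun i => 0 ≤ i ∧ i < w)
          refine le_trans (le_of_eq ?_) g2
          congr 2
          ext j
          rw [mem_filter, mem_filter, and_assoc]
        · intro w _
          have g2 := h9 w (fun i => K + 1 - w ≤ i ∧ i < K + 1)
          refine le_trans (le_of_eq ?_) g2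
          congr 2
          ext j
          rw [mem_filter, mem_filter, and_assoc]
  refine ⟨fun _ _ => by positivity, ?_, ?_⟩
  · rw [sum_const, nsmul_eq_mul, mul_inv_cancel₀ hcard.ne']
  · rw [← hS]
    refine thin_mono _ _ _ _ _ _ ?_ S hmain
    have h1 : Rr ≤ K ^ ((W + 1) * (d + 1)) := by
      rw [hRr, pow_mul]
      apply Nat.pow_le_pow_left
      rw [pow_succ, mul_comm]
      exact Nat.mul_le_mul_left _ (by omega)
    have h2 : b * (K + 2) ≤ K ^ 3 := by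
      have h3 : K + 2 ≤ K * K := by nlinarith
      calc b * (K + 2) ≤ K * (K * K) := Nat.mul_le_mul hKb h3
        _ = K ^ 3 := by ring
    calc Rr * (b * (K + 2)) * K ^ cT ≤ K ^ ((W + 1) * (d + 1)) * K ^ 3 * K ^ cT := Nat.mul_le_mul_right _ (Nat.mul_le_mul h1 h2)
      _ = K ^ (cT + (W + 1) * (d + 1) + 3) := by rw [← pow_add, ← pow_add]; congr 1; ring

end Pool.Agent.H56.PD
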