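import Pool.Agent.H56.PD.Vec
import Pool.Graph.R_seed8.Y885.TU1
import Pool.Graph.R_seed8.W93.AU18
import Pool.Graph.R_pool_sql_team_seeded_843ab51a.V11251.DS.ArbC

/-! Laws with a thin large spectrum: the maximal one form estimate. -/

set_option autoImplicit false

namespace Pool.Agent.H56.PD
open Finset
open Pool.Agent.H807R2.Dav
open Pool.Agent.H373R2.T7
open Pool.Agent.W93.DG
open Pool.Agent.W93.RD
open Pool.Agent.W93.TD
open Pool.Agent.W93.AU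
open Pool.Agent.W93.LM
open Pool.Agent.Y885 (TLaw tl_var)
open Pool.Agent.V11251.DS

/-- second moments -/
theorem two_tl (b Et ct : ℕ) (hb : 2 ≤ b) (hEt : 1 ≤ Et) (U : ℕ) : ∃ B0 : ℕ, ∀ Ez : ℕ, ∃ K₀ : ℕ, ∀ K : ℕ, K₀ ≤ K →
    ∀ z : ℕ, Real.log ((b ^ K : ℕ) : ℝ) ^ B0 ≤ z → (z : ℝ) ≤ Real.log ((b ^ K : ℕ) : ℝ) ^ Ez →
    ∀ (ι : Type) (Ω : Finset ι) (p : ι → ℝ) (Y : ι → ℤ), TLaw b Et ct (U + 6) K Ω p Y →
    ∀ Kc : ℝ, 0 ≤ Kc → ∀ G : ℕ → ℝ, ∀ N : ℕ, N ≤ b ^ K → (∀ n ∈ Icc 1 N, |G n| ≤ Kc) →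
    ((∀ ω ∈ Ω, -((b ^ K : ℕ) : ℤ) < Y ω ∧ (N : ℤ) + Y ω ≤ ((b ^ K : ℕ) : ℤ)) →
      ∑ ω ∈ Ω, p ω * (∑ n ∈ Icc 1 N, G n * dI z ((n : ℤ) + Y ω)) ^ 2 ≤ (Kc * ((b ^ K : ℕ) : ℝ)) ^ 2 / (K : ℝ) ^ U) ∧
    (∀ Ω' ⊆ Ω, (∀ ω ∈ Ω', 0 < Y ω ∧ Y ω ≤ ((b ^ K : ℕ) : ℤ)) →
      ∑ ω ∈ Ω', p ω * (∑ n ∈ Icc 1 N, G n * dI z (Y ω - (n : ℤ))) ^ 2 ≤ (Kc * ((b ^ K : ℕ) : ℝ)) ^ 2 / (K : ℝ) ^ U) := by
  classical
  obtain ⟨B, hB⟩ := tl_var b Et ct hb hEt U
  refine ⟨B, fun Ez => ?_⟩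
  obtain ⟨k₀, h0⟩ := hB Ez
  refine ⟨k₀ + 1, fun K hk z hz1 hz2 ι Ω p Y hlaw Kc hK G N hNX hG => ?_⟩
  obtain ⟨f, hf⟩ : ∃ f : ℕ → ℝ, f = fun n => if n ≤ N then G n else 0 := ⟨_, rfl⟩
  have hf0 : ∀ n, N < n → f n = 0 := by
    intro n hn
    rw [hf]
    simp only
    rw [if_neg (by omega)]
  have hf1 : ∀ n, n ≤ N → f n = G n := by
    intro n hn
    rw [hf]
    simp only
    rw [if_pos hn]
  have hfb : ∀ n ∈ Icc 1 (b ^ K), |f n| ≤ Kc := by
    intro n hn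
    rcases Nat.lt_or_ge N n with h | h
    · rw [hf0 n h, abs_zero]; exact hK
    · rw [hf1 n h]; exact hG n (mem_Icc.2 ⟨(mem_Icc.1 hn).1, h⟩)
  have hbn : 0 < b := by omega
  have hX1 : 1 ≤ b ^ K := Nat.pow_pos hbn
  have hM0 : (0 : ℝ) < ((b ^ (K + 1) : ℕ) : ℝ) := by exact_mod_cast Nat.pow_pos hbn
  have hX0 : (0 : ℝ) < ((b ^ K : ℕ) : ℝ) := by exact_mod_cast hX1
  have hk0 : (0 : ℝ) < K := by exact_mod_cast (by omega : 0 < K)
  have hMX : 2 * b ^ K ≤ b ^ (K + 1) := by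
    rw [pow_succ, mul_comm]
    exact Nat.mul_le_mul_left _ hb
  have hfin : ∀ (A : ℕ → ℂ) (T : ι → ℝ), (∀ r, ‖A r‖ = ‖FF f (b ^ K) (b ^ (K + 1)) r‖ *
        ‖FF (fun n => ArithmeticFunction.vonMangoldt n - lamz z n) (b ^ K) (b ^ (K + 1)) r‖) → ∀ Ω' ⊆ Ω,
      (∀ ω ∈ Ω', EE A (b ^ (K + 1)) (Y ω) = ((((b ^ (K + 1) : ℕ) : ℝ) * T ω : ℝ) : ℂ)) →
      ∑ ω ∈ Ω', p ω * T ω ^ 2 ≤ (Kc * ((b ^ K : ℕ) : ℝ)) ^ 2 / (K : ℝ) ^ U := by
    intro A T hA Ω' hsub hT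
    have h1 := h0 K (by omega) z hz1 hz2 ι Ω p Y hlaw f Kc hK hfb A hA
    have h1' := (sum_le_sum_of_subset_of_nonneg hsub (f := fun ω => p ω * ‖EE A (b ^ (K + 1)) (Y ω)‖ ^ 2)
      (fun ω hω _ => mul_nonneg (hlaw.nonneg ω hω) (sq_nonneg _))).trans h1
    have h2 : ∀ ω ∈ Ω', p ω * ‖EE A (b ^ (K + 1)) (Y ω)‖ ^ 2 = ((b ^ (K + 1) : ℕ) : ℝ) ^ 2 * (p ω * T ω ^ 2) := by
      intro ω hω
      rw [hT ω hω, Complex.norm_real, Real.norm_eq_abs, sq_abs]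
      ring
    rw [sum_congr rfl h2, ← mul_sum] at h1'
    have h6 : ((b ^ (K + 1) : ℕ) : ℝ) ^ 2 * ∑ ω ∈ Ω', p ω * T ω ^ 2 ≤
        ((b ^ (K + 1) : ℕ) : ℝ) ^ 2 * ((Kc * ((b ^ K : ℕ) : ℝ)) ^ 2 / (K : ℝ) ^ U) := by
      refine h1'.trans (le_of_eq ?_)
      ring
    exact le_of_mul_le_mul_left h6 (by positivity)
  have hg : ∀ m : ℤ, (if 1 ≤ m then (fun n => ArithmeticFunction.vonMangoldt n - lamz z n) m.toNat else 0) = dI z m := by
    intro m
    unfold dI lamI lamzI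
    split_ifs <;> simp
  constructor
  · intro hY
    refine hfin (fun r => (starRingEnd ℂ) (FF f (b ^ K) (b ^ (K + 1)) r) *
        FF (fun n => ArithmeticFunction.vonMangoldt n - lamz z n) (b ^ K) (b ^ (K + 1)) r)
        (fun ω => ∑ n ∈ Icc 1 N, G n * dI z ((n : ℤ) + Y ω)) (by
      intro r
      rw [norm_mul, RCLike.norm_conj]) Ω (Finset.Subset.refl _) ?_
    intro ω hω
    rw [EE_corr f (fun n => ArithmeticFunction.vonMangoldt n - lamz z n) (b ^ K) (b ^ (K + 1)) N hX1 hMX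
      hNX hf0 (Y ω) (hY ω hω).1 (hY ω hω).2]
    congr 2
    apply sum_congr rfl
    intro n hn
    rw [mem_Icc] at hn
    rw [hf1 n hn.2, hg]
  · intro Ω' hsub hY
    refine hfin (fun r => FF f (b ^ K) (b ^ (K + 1)) r *
        FF (fun n => ArithmeticFunction.vonMangoldt n - lamz z n) (b ^ K) (b ^ (K + 1)) r)
        (fun ω => ∑ n ∈ Icc 1 N, G n * dI z (Y ω - (n : ℤ))) (by
      intro r
      rw [norm_mul]) Ω' hsub ?_
    intro ω hω
    rw [EE_conv f (fun n => ArithmeticFunction.vonMangoldt n - lamz z n) (b ^ K) (b ^ (K + 1)) hX1 hMX (Y ω) (hY ω hω).1 (hY ω hω).2]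
    congr 2
    rw [← sum_subset (Icc_subset_Icc_right hNX) (by
      intro n _ hn
      have : N < n ∨ n < 1 := by
        rw [mem_Icc] at hn
        omega
      rcases this with h | h
      · rw [hf0 n h, zero_mul]
      · exact absurd ‹n ∈ Icc 1 (b ^ K)› (by rw [mem_Icc]; omega))]
    apply sum_congr rfl
    intro n hn
    rw [mem_Icc] at hn
    rw [hf1 n hn.2, hg]


/-- for almost all the shifts all the sums are small -/
theorem tl_prob (b Et ct : ℕ) (hb : 2 ≤ b) (hEt : 1 ≤ Et) (T U : ℕ) : ∃ B0 : ℕ, ∀ Ez : ℕ, ∃ K₀ : ℕ, ∀ K : ℕ, K₀ ≤ K →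
    ∀ z : ℕ, Real.log ((b ^ K : ℕ) : ℝ) ^ B0 ≤ z → (z : ℝ) ≤ Real.log ((b ^ K : ℕ) : ℝ) ^ Ez →
    ∀ (ι : Type) (Ω : Finset ι) (p : ι → ℝ) (Y : ι → ℤ), TLaw b Et ct (4 * U + 3 * T + 7 + 6) K Ω p Y →
    ∀ Q : ℕ, (∀ ω ∈ Ω, -((b ^ K : ℕ) : ℤ) < Y ω ∧ (Q : ℤ) + Y ω ≤ ((b ^ K : ℕ) : ℤ)) → Q ≤ b ^ K →
    ∀ G : ℕ → ℝ, (∀ n, |G n| ≤ (K : ℝ) ^ T) →
    ∀ E : ι → Prop, [DecidablePred E] →
    (∀ ω ∈ Ω, E ω →
      (∃ N ≤ Q, ((b ^ K : ℕ) : ℝ) / (K : ℝ) ^ U < |∑ n ∈ Icc 1 N, G n * dI z ((n : ℤ) + Y ω)|) ∨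
      (0 < Y ω ∧ ∃ N ≤ b ^ K, ((b ^ K : ℕ) : ℝ) / (K : ℝ) ^ U < |∑ n ∈ Icc 1 N, G n * dI z (Y ω - (n : ℤ))|)) →
    ∑ ω ∈ Ω, (if E ω then p ω else 0) ≤ 1 / (K : ℝ) ^ U := by
  classical
  obtain ⟨B, hB⟩ := two_tl b Et ct hb hEt (4 * U + 3 * T + 7)
  refine ⟨B, fun Ez => ?_⟩
  obtain ⟨k₀, h0⟩ := hB Ez
  obtain ⟨k3, h3⟩ := Vz_inv_small Ez
  have hbig : ∃ k2 : ℕ, ∀ k : ℕ, k2 ≤ k → 4 * k ^ (U + (T + 3)) ≤ b ^ k := by
    have hlim := isLittleO_pow_const_const_pow_of_one_lt (R := ℝ) (U + (T + 3)) (r := (b : ℝ)) (by exact_mod_cast (by omega : 1 < b))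
    have h2 := hlim.def (c := 1 / 4) (by norm_num)
    rw [Filter.eventually_atTop] at h2
    obtain ⟨k2, hk2⟩ := h2
    refine ⟨k2, fun k hk => ?_⟩
    have h3 := hk2 k hk
    rw [Real.norm_of_nonneg (by positivity), Real.norm_of_nonneg (by positivity)] at h3
    have h4 : (4 : ℝ) * (k : ℝ) ^ (U + (T + 3)) ≤ (b : ℝ) ^ k := by linarith
    exact_mod_cast h4
  obtain ⟨k2, h2⟩ := hbig
  refine ⟨k₀ + k2 + k3 + b + 40, fun K hk z hz1 hz2 ι Ω p Y hlaw Q hY hQX G hG E _ hE => ?_⟩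
  have hk1 : 1 ≤ K := by omega
  have hK40 : (40 : ℝ) ≤ K := by exact_mod_cast (by omega : 40 ≤ K)
  have hkr : (1 : ℝ) ≤ K := by exact_mod_cast hk1
  have hk0 : (0 : ℝ) < K := by linarith
  have hbn : 0 < b := by omega
  have hKb : K < b ^ K := Nat.lt_pow_self (by omega)
  obtain ⟨X, hX⟩ : ∃ X : ℕ, X = b ^ K := ⟨_, rfl⟩
  have hb0 : (0 : ℝ) < X := by rw [hX]; exact_mod_cast Nat.pow_pos hbn
  obtain ⟨g1, g2, g3⟩ := grid_size b K (U + (T + 3)) 1 (h2 K (by omega)) hk1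
  rw [one_mul] at g3
  obtain ⟨H, hH⟩ : ∃ H, H = b ^ K / (2 * K ^ (U + (T + 3))) := ⟨_, rfl⟩
  rw [← hH] at g1 g2 g3
  have hpcast : (b : ℝ) ^ K = (X : ℝ) := by rw [hX]; push_cast; rfl
  rw [hpcast] at g2
  rw [← hX] at g3 hY hQX hz1 hz2 hE
  -- the size of the function
  have hlogX : Real.log (X : ℝ) ≤ (K : ℝ) ^ 2 := by
    have e1 : Real.log (X : ℝ) = K * Real.log b := by rw [hX]; push_cast; rw [Real.log_pow]
    have e2 : Real.log (b : ℝ) ≤ K := by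
      have q1 : Real.log (b : ℝ) ≤ b := (Real.log_le_sub_one_of_pos (by exact_mod_cast hbn)).trans (by linarith)
      exact q1.trans (by exact_mod_cast (by omega : b ≤ K))
    rw [e1, pow_two]
    exact mul_le_mul_of_nonneg_left e2 hk0.le
  have hlog1 : 1 ≤ Real.log (X : ℝ) := by
    rw [Real.le_log_iff_exp_le hb0]
    have : (3 : ℝ) ≤ X := by exact_mod_cast (by rw [hX]; omega : 3 ≤ X)
    linarith [Real.exp_one_lt_d9]
  have hz : 1 ≤ z := by
    have : (1 : ℝ) ≤ z := (one_le_pow₀ hlog1).trans hz1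
    exact_mod_cast this
  have hV := h3 X (by rw [hX]; omega) z hz hz2
  have hd : ∀ m : ℤ, m ≤ (X : ℤ) → |dI z m| ≤ (K : ℝ) ^ 2 := by
    intro m hm
    have q1 := lamI_nonneg m
    have q2 := lamzI_nonneg z m
    have q3 := lamI_le m (X : ℝ) (by exact_mod_cast (by rw [hX]; omega : 1 ≤ X)) (by exact_mod_cast hm)
    have q4 := (lamzI_le z m).trans hV
    unfold dI
    rw [abs_le]
    constructor <;> linarith
  have hE0 : ∀ n : ℕ, ∀ m : ℤ, m ≤ (X : ℤ) → |G n * dI z m| ≤ (K : ℝ) ^ (T + 2) := by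
    intro n m hm
    rw [abs_mul, pow_add]
    exact mul_le_mul (hG n) (hd m hm) (abs_nonneg _) (by positivity)
  have hE0H : (K : ℝ) ^ (T + 2) * H ≤ X / (2 * (K : ℝ) ^ U) := by
    have q1 : (K : ℝ) ^ (T + 2) * H ≤ (K : ℝ) ^ (T + 3) * H :=
      mul_le_mul_of_nonneg_right (pow_le_pow_right₀ hkr (by omega)) (Nat.cast_nonneg _)
    rw [le_div_iff₀ (by positivity)]
    have q2 : (K : ℝ) ^ (T + 3) * H * (2 * (K : ℝ) ^ U) = 2 * ((H : ℝ) * (K : ℝ) ^ (U + (T + 3))) := by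
      rw [pow_add (K : ℝ) U (T + 3)]; ring
    have q3 : (K : ℝ) ^ (T + 2) * H * (2 * (K : ℝ) ^ U) ≤ (K : ℝ) ^ (T + 3) * H * (2 * (K : ℝ) ^ U) :=
      mul_le_mul_of_nonneg_right q1 (by positivity)
    linarith
  have hτ : (0 : ℝ) < X / (2 * (K : ℝ) ^ U) := by positivity
  have hsplit : (X : ℝ) / (K : ℝ) ^ U = X / (2 * (K : ℝ) ^ U) + X / (2 * (K : ℝ) ^ U) := by
    have := pow_pos hk0 U
    field_simp
    ring
  have hcard : ∀ Q' : ℕ, Q' ≤ X → ((Q' / H + 1 : ℕ) : ℝ) ≤ 4 * 1 * (K : ℝ) ^ (U + (T + 3)) + 1 := by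
    intro Q' hQ'
    push_cast
    have q1 : Q' / H ≤ X / H := Nat.div_le_div_right hQ'
    have q2 : ((Q' / H : ℕ) : ℝ) ≤ ((X / H : ℕ) : ℝ) := by exact_mod_cast q1
    have q3 : ((X / H : ℕ) : ℝ) ≤ 4 * 1 * (K : ℝ) ^ (U + (T + 3)) := by
      refine g3.trans (le_of_eq ?_)
      push_cast
      ring
    linarith
  obtain ⟨E1, hE1⟩ : ∃ E1 : ι → Prop, E1 = fun ω => ∃ N ≤ Q, (X : ℝ) / (K : ℝ) ^ U < |∑ n ∈ Icc 1 N, G n * dI z ((n : ℤ) + Y ω)| := ⟨_, rfl⟩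
  obtain ⟨E2, hE2⟩ : ∃ E2 : ι → Prop, E2 = fun ω => 0 < Y ω ∧ ∃ N ≤ X, (X : ℝ) / (K : ℝ) ^ U < |∑ n ∈ Icc 1 N, G n * dI z (Y ω - (n : ℤ))| := ⟨_, rfl⟩
  have hK2 : ∀ n, n ≤ X → n ≤ b ^ K := fun n hn => by rw [← hX]; exact hn
  have p1 : ∑ ω ∈ Ω, (if E1 ω then p ω else 0) ≤ 1 / 2 * (1 / (K : ℝ) ^ U) := by
    have q := grid_prob Ω p hlaw.nonneg (fun n ω => G n * dI z ((n : ℤ) + Y ω)) Q H g1 ((K : ℝ) ^ (T + 2))
      (((K : ℝ) ^ T * X) ^ 2 / (K : ℝ) ^ (4 * U + 3 * T + 7)) (X / (2 * (K : ℝ) ^ U)) hτ (by positivity) (by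
        intro n hn ω hω
        rw [mem_Icc] at hn
        apply hE0
        have := (hY ω hω).2
        have h9 : (n : ℤ) ≤ Q := by exact_mod_cast hn.2
        linarith) (by
        intro N hN
        have q1 := (h0 K (by omega) z (by rw [← hX]; exact hz1) (by rw [← hX]; exact hz2) ι Ω p Y hlaw ((K : ℝ) ^ T) (by positivity) G N
          (hK2 N (hN.trans hQX)) (fun n _ => hG n)).1 (by
            intro ω hω
            rw [← hX]
            refine ⟨(hY ω hω).1, ?_⟩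
            have := (hY ω hω).2
            have h9 : (N : ℤ) ≤ Q := by exact_mod_cast hN
            linarith)
        rw [← hX] at q1
        exact q1) E1 (by
        intro ω hω h
        rw [hE1] at h
        obtain ⟨N, hN, h⟩ := h
        exact ⟨N, hN, by linarith⟩)
    exact q.trans (prob_num K X _ U T hK40 hb0 (hcard Q hQX))
  have p2 : ∑ ω ∈ Ω.filter (fun ω => 0 < Y ω), (if E2 ω then p ω else 0) ≤ 1 / 2 * (1 / (K : ℝ) ^ U) := by
    have q := grid_prob (Ω.filter (fun ω => 0 < Y ω)) p (fun ω hω => hlaw.nonneg ω (mem_filter.1 hω).1)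
      (fun n ω => G n * dI z (Y ω - (n : ℤ))) X H g1 ((K : ℝ) ^ (T + 2))
      (((K : ℝ) ^ T * X) ^ 2 / (K : ℝ) ^ (4 * U + 3 * T + 7)) (X / (2 * (K : ℝ) ^ U)) hτ (by positivity) (by
        intro n hn ω hω
        apply hE0
        have := (hY ω (mem_filter.1 hω).1).2
        have h9 : (0 : ℤ) ≤ n := Int.natCast_nonneg _
        have h10 : (0 : ℤ) ≤ Q := Int.natCast_nonneg _
        linarith) (by
        intro N hN
        have q1 := (h0 K (by omega) z (by rw [← hX]; exact hz1) (by rw [← hX]; exact hz2) ι Ω p Y hlaw ((K : ℝ) ^ T) (by positivity) G N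
          (hK2 N hN) (fun n _ => hG n)).2 (Ω.filter (fun ω => 0 < Y ω)) (filter_subset _ _) (by
            intro ω hω
            rw [mem_filter] at hω
            rw [← hX]
            refine ⟨hω.2, ?_⟩
            have := (hY ω hω.1).2
            have h10 : (0 : ℤ) ≤ Q := Int.natCast_nonneg _
            linarith)
        rw [← hX] at q1
        exact q1) E2 (by
        intro ω hω h
        rw [hE2] at h
        obtain ⟨_, N, hN, h⟩ := h
        exact ⟨N, hN, by linarith⟩)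
    exact q.trans (prob_num K X _ U T hK40 hb0 (hcard X le_rfl))
  rw [sum_filter] at p2
  have hpt : ∀ ω ∈ Ω, (if E ω then p ω else 0) ≤ (if E1 ω then p ω else 0) + (if 0 < Y ω then (if E2 ω then p ω else 0) else 0) := by
    intro ω hω
    have hp := hlaw.nonneg ω hω
    by_cases h : E ω
    · rw [if_pos h]
      rcases hE ω hω h with h1 | h1
      · have : E1 ω := by rw [hE1]; exact h1
        rw [if_pos this]
        have : 0 ≤ (if 0 < Y ω then (if E2 ω then p ω else 0) else 0) := by split_ifs <;> simp [hp]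
        linarith
      · have h2 : E2 ω := by rw [hE2]; exact h1
        rw [if_pos h1.1, if_pos h2]
        have : 0 ≤ (if E1 ω then p ω else 0) := by split_ifs <;> simp [hp]
        linarith
    · rw [if_neg h]
      split_ifs <;> linarith
  refine (sum_le_sum hpt).trans ?_
  rw [sum_add_distrib]
  linarith


open Classical in
/-- a law with a thin large spectrum satisfies the maximal one form estimate for every slope -/
theorem ml_of_tlaw (b Et ct : ℕ) (hb : 2 ≤ b) (hEt : 1 ≤ Et) (T U e Bc : ℕ) (q : ℤ) (hq : q ≠ 0) :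
    ∃ B0 : ℕ, ∀ E : ℕ, ∃ k₀ : ℕ, ∀ k : ℕ, k₀ ≤ k → ∀ N : ℕ, b ^ k ≤ Bc * N → N ≤ Bc * b ^ k →
    ∀ (ι : Type) (Ω : Finset ι) (p : ι → ℝ) (H : ι → ℤ), (∀ ω ∈ Ω, |H ω| + |q| * N ≤ ((b ^ (k + e) : ℕ) : ℤ)) →
      TLaw b Et ct (4 * (U + 1) + 3 * (T + 1) + 7 + 6) (k + e) Ω p H → ∑ ω ∈ Ω, p ω = 1 →
      (∀ x : ℤ, ∑ ω ∈ Ω.filter (fun ω => H ω = x), p ω ≤ 1 / (k : ℝ) ^ (U + 1)) →
      ML N (b ^ e * Bc) (B0 + 1) E T U q (Ω.image H) (fun x => ∑ ω ∈ Ω.filter (fun ω => H ω = x), p ω) := by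
  obtain ⟨B1, h1⟩ := tl_prob b Et ct hb hEt (T + 1) (U + 1)
  have hB1 : (1 : ℝ) < b := by exact_mod_cast (by omega : 1 < b)
  have hlogB : 0 < Real.log b := Real.log_pos hB1
  obtain ⟨C1, hC1⟩ : ∃ C1 : ℝ, C1 = Bc + Real.log b := ⟨_, rfl⟩
  have hC1' : 0 < C1 := by rw [hC1]; positivity
  refine ⟨B1, fun E => ?_⟩
  obtain ⟨K0, h1⟩ := h1 E
  obtain ⟨K1, hK1⟩ := exists_nat_ge (((b : ℝ) ^ e * Bc) * C1 ^ U + C1 ^ U + C1 ^ T + 1)
  obtain ⟨R, hR⟩ := exists_nat_ge (((2 : ℝ) ^ B1 + Real.log ((b : ℝ) ^ e) + 2 * Bc + 1) / Real.log b)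
  refine ⟨K0 + K1 + R + 1, fun k hk N hN1 hN2 ι Ω p H hsz hl hp1 hat => ?_⟩
  obtain ⟨K, hK⟩ : ∃ K, K = k + e := ⟨_, rfl⟩
  rw [← hK] at hl hsz
  have hbk : 0 < b ^ k := by positivity
  have hBc0 : 1 ≤ Bc := by
    by_contra hcon
    have : Bc = 0 := by omega
    rw [this, zero_mul] at hN1
    omega
  have hNnat : 1 ≤ N := by
    by_contra hcon
    have : N = 0 := by omega
    rw [this, mul_zero] at hN1
    omega
  have hne : Ω.Nonempty := by
    by_contra hcon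
    rw [not_nonempty_iff_eq_empty] at hcon
    rw [hcon, sum_empty] at hp1
    norm_num at hp1
  obtain ⟨q', hq'⟩ : ∃ q' : ℕ, q' = q.natAbs := ⟨_, rfl⟩
  have hq1 : 1 ≤ q' := by omega
  have hqa : |q| = (q' : ℤ) := by rw [hq']; exact Int.abs_eq_natAbs q
  have hqN : q' * N ≤ b ^ K := by
    obtain ⟨ω, hω⟩ := hne
    have h3 := hsz ω hω
    rw [hqa] at h3
    have h4 := abs_nonneg (H ω)
    have h5 : ((q' * N : ℕ) : ℤ) ≤ ((b ^ K : ℕ) : ℤ) := by push_cast; push_cast at h3; linarith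
    exact_mod_cast h5
  have hNX : N ≤ b ^ K := (Nat.le_mul_of_pos_left _ hq1).trans hqN
  have hBcr : (1 : ℝ) ≤ Bc := by exact_mod_cast hBc0
  have hlogBc : Real.log Bc ≤ Bc := (Real.log_le_sub_one_of_pos (by linarith)).trans (by linarith)
  have hk1 : (1 : ℝ) ≤ k := by exact_mod_cast (by omega : 1 ≤ k)
  have hkK : (k : ℝ) ≤ K := by exact_mod_cast (by omega : k ≤ K)
  have hKr : (K1 : ℝ) ≤ K := by exact_mod_cast (by omega : K1 ≤ K)
  have hK0' : (1 : ℝ) ≤ K := by exact_mod_cast (by omega : 1 ≤ K)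
  have hN0 : (0 : ℝ) < N := by exact_mod_cast hNnat
  have hlogk2 : Real.log N ≤ k * C1 := by
    have h1 : Real.log N ≤ Real.log (Bc * (b : ℝ) ^ k) := by
      apply Real.log_le_log hN0
      exact_mod_cast hN2
    rw [Real.log_mul (by positivity) (by positivity), Real.log_pow] at h1
    rw [hC1]
    nlinarith
  have hlog2 : 0 ≤ Real.log ((b : ℝ) ^ e) := by
    rw [Real.log_pow]; positivity
  have hlogR : (2 : ℝ) ^ B1 + Real.log ((b : ℝ) ^ e) + Bc + 1 ≤ Real.log N := by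
    have h1 : (2 : ℝ) ^ B1 + Real.log ((b : ℝ) ^ e) + 2 * Bc + 1 ≤ R * Real.log b := by
      rwa [div_le_iff₀ hlogB] at hR
    have h2 : (R : ℝ) * Real.log b ≤ k * Real.log b := by
      apply mul_le_mul_of_nonneg_right _ hlogB.le
      exact_mod_cast (by omega : R ≤ k)
    have h3 : (k : ℝ) * Real.log b ≤ Real.log (Bc * N) := by
      rw [← Real.log_pow]
      apply Real.log_le_log (by positivity)
      exact_mod_cast hN1
    rw [Real.log_mul (by positivity) hN0.ne'] at h3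
    linarith
  have h2B1 : (0 : ℝ) < 2 ^ B1 := by positivity
  have hlog0 : 0 < Real.log N := by linarith
  have hlog1 : 1 ≤ Real.log N := by linarith
  have a1 : 0 ≤ ((b : ℝ) ^ e * Bc) * C1 ^ U := by positivity
  have a2 : 0 ≤ C1 ^ U := by positivity
  have a3 : 0 ≤ C1 ^ T := by positivity
  have hU : Real.log N ^ U ≤ (K : ℝ) ^ U * C1 ^ U := by
    rw [← mul_pow]
    exact pow_le_pow_left₀ hlog0.le (hlogk2.trans (mul_le_mul_of_nonneg_right hkK hC1'.le)) U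
  have hBKN' : b ^ K ≤ (b ^ e * Bc) * N := by
    rw [hK, pow_add, mul_assoc, mul_comm]
    exact Nat.mul_le_mul_left _ hN1
  have hBKN : ((b ^ K : ℕ) : ℝ) ≤ ((b : ℝ) ^ e * Bc) * N := by exact_mod_cast hBKN'
  have hBK : ((b ^ K : ℕ) : ℝ) / (K : ℝ) ^ (U + 1) ≤ N / Real.log N ^ U := by
    rw [div_le_div_iff₀ (by positivity) (by positivity)]
    calc ((b ^ K : ℕ) : ℝ) * Real.log N ^ U ≤ (((b : ℝ) ^ e * Bc) * N) * ((K : ℝ) ^ U * C1 ^ U) :=
          mul_le_mul hBKN hU (by positivity) (by positivity)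
      _ = N * ((((b : ℝ) ^ e * Bc) * C1 ^ U) * (K : ℝ) ^ U) := by ring
      _ ≤ N * (K * (K : ℝ) ^ U) := by
          apply mul_le_mul_of_nonneg_left _ hN0.le
          exact mul_le_mul_of_nonneg_right (by linarith) (by positivity)
      _ = _ := by rw [pow_succ]; ring
  have hlX1 : Real.log N ≤ Real.log ((b ^ K : ℕ) : ℝ) := Real.log_le_log hN0 (by exact_mod_cast hNX)
  have hlX2 : Real.log ((b ^ K : ℕ) : ℝ) ≤ 2 * Real.log N := by
    have h1 : Real.log ((b ^ K : ℕ) : ℝ) ≤ Real.log (((b : ℝ) ^ e * Bc) * N) := by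
      apply Real.log_le_log _ hBKN
      exact_mod_cast (by positivity : 0 < b ^ K)
    rw [Real.log_mul (by positivity) hN0.ne', Real.log_mul (by positivity) (by positivity)] at h1
    linarith
  have himg : ∀ g : ℤ → ℝ, ∑ x ∈ Ω.image H, (∑ ω ∈ Ω.filter (fun ω => H ω = x), p ω) * g x = ∑ ω ∈ Ω, p ω * g (H ω) := by
    intro g
    rw [← sum_fiberwise_of_maps_to (g := H) (t := Ω.image H) (fun ω hω => mem_image_of_mem H hω) (fun ω => p ω * g (H ω))]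
    apply sum_congr rfl
    intro x _
    rw [sum_mul]
    apply sum_congr rfl
    intro ω hω
    rw [(mem_filter.1 hω).2]
  refine ⟨?_, ?_, ?_, ?_, ?_⟩
  · intro x _
    exact sum_nonneg fun ω hω => hl.nonneg ω (mem_filter.1 hω).1
  · have := himg (fun _ => 1)
    simp only [mul_one] at this
    rw [this, hp1]
  · intro x _
    refine (hat x).trans ?_
    apply one_div_le_one_div_of_le (by positivity)
    calc Real.log N ^ U ≤ (k * C1) ^ U := pow_le_pow_left₀ hlog0.le hlogk2 U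
      _ = (k : ℝ) ^ U * C1 ^ U := mul_pow _ _ _
      _ ≤ (k : ℝ) ^ U * k := by
          apply mul_le_mul_of_nonneg_left _ (by positivity)
          have : (K1 : ℝ) ≤ k := by exact_mod_cast (by omega : K1 ≤ k)
          linarith
      _ = _ := by rw [pow_succ]
  · intro x hx
    obtain ⟨ω, hω, rfl⟩ := mem_image.1 hx
    have h3 := hsz ω hω
    have h4 : ((b ^ K : ℕ) : ℤ) ≤ ((b ^ e * Bc * N : ℕ) : ℤ) := by exact_mod_cast hBKN'
    have h5 : 0 ≤ |q| * (N : ℤ) := by positivity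
    push_cast at h3 h4 ⊢
    linarith
  · intro z hz1 hz2 G hG
    have hzX1 : Real.log ((b ^ K : ℕ) : ℝ) ^ B1 ≤ z := by
      refine le_trans ?_ hz1
      calc Real.log ((b ^ K : ℕ) : ℝ) ^ B1 ≤ (2 * Real.log N) ^ B1 := pow_le_pow_left₀ (by linarith) hlX2 _
        _ = 2 ^ B1 * Real.log N ^ B1 := mul_pow _ _ _
        _ ≤ Real.log N * Real.log N ^ B1 := mul_le_mul_of_nonneg_right (by linarith) (by positivity)
        _ = Real.log N ^ (B1 + 1) := by ring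
    have hzX2 : (z : ℝ) ≤ Real.log ((b ^ K : ℕ) : ℝ) ^ E := hz2.trans (pow_le_pow_left₀ hlog0.le hlX1 _)
    obtain ⟨Ev, hEv⟩ : ∃ Ev : ℤ → Prop, Ev = fun h => ∃ N' ≤ N, N / Real.log N ^ U <
      |∑ n ∈ Icc 1 N', G n * (lamI (q * (n : ℤ) + h) - lamzI z (q * (n : ℤ) + h))| := ⟨_, rfl⟩
    have hEv' : ∀ h : ℤ, (∃ N' ≤ N, N / Real.log N ^ U <
      |∑ n ∈ Icc 1 N', G n * (lamI (q * (n : ℤ) + h) - lamzI z (q * (n : ℤ) + h))|) = Ev h := fun h => by rw [hEv]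
    simp only [hEv']
    have e0 : ∑ h ∈ Ω.image H, (if Ev h then ∑ ω ∈ Ω.filter (fun ω => H ω = h), p ω else 0) =
        ∑ ω ∈ Ω, (if Ev (H ω) then p ω else 0) := by
      have e1 := himg (fun h => if Ev h then (1 : ℝ) else 0)
      simp only [mul_ite, mul_one, mul_zero] at e1
      exact e1
    rw [e0]
    obtain ⟨G', hG'⟩ : ∃ G' : ℕ → ℝ, G' = fun m => if q' ∣ m then G (m / q') else 0 := ⟨_, rfl⟩
    have hGT : Real.log N ^ T ≤ (K : ℝ) ^ (T + 1) := by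
      calc Real.log N ^ T ≤ (K * C1) ^ T := pow_le_pow_left₀ hlog0.le (hlogk2.trans (mul_le_mul_of_nonneg_right hkK hC1'.le)) T
        _ = (K : ℝ) ^ T * C1 ^ T := mul_pow _ _ _
        _ ≤ (K : ℝ) ^ T * K := by
            apply mul_le_mul_of_nonneg_left _ (by positivity)
            linarith
        _ = _ := by rw [pow_succ]
    have hG'b : ∀ m, |G' m| ≤ (K : ℝ) ^ (T + 1) := by
      intro m
      rw [hG']
      simp only
      split_ifs
      · exact (hG _).trans hGT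
      · rw [abs_zero]; positivity
    have h := h1 K (by omega) z hzX1 hzX2 ι Ω p H hl (q' * N) (fun ω hω => by
        have h3 := hsz ω hω
        have h4 := neg_abs_le (H ω)
        have h6 := le_abs_self (H ω)
        have h5 : 0 < |q| * (N : ℤ) := by positivity
        rw [hqa] at h3 h5
        push_cast at h3 h5 ⊢
        exact ⟨by linarith, by linarith⟩) hqN G' hG'b (fun ω => Ev (H ω)) (by
      intro ω hω hE
      rw [hEv] at hE
      obtain ⟨N', hN', hlt⟩ := hE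
      have hlt' := lt_of_le_of_lt hBK hlt
      rcases lt_or_gt_of_ne hq with hneg | hpos
      · right
        have hqz : q = -(q' : ℤ) := by omega
        have hS' : ∑ n ∈ Icc 1 N', G n * (lamI (q * (n : ℤ) + H ω) - lamzI z (q * (n : ℤ) + H ω)) =
            ∑ m ∈ Icc 1 (q' * N'), G' m * dI z (H ω - (m : ℤ)) := by
          rw [hG']
          simp only
          rw [← spreadR (fun m => dI z (H ω - (m : ℤ))) G q' N' hq1]
          apply sum_congr rfl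
          intro n _
          unfold dI
          have e1 : q * (n : ℤ) + H ω = H ω - ((q' * n : ℕ) : ℤ) := by
            rw [hqz]; push_cast; ring
          rw [e1]
        rw [hS'] at hlt'
        refine ⟨?_, q' * N', (Nat.mul_le_mul_left _ hN').trans hqN, hlt'⟩
        by_contra hcon
        have h4 : ∑ m ∈ Icc 1 (q' * N'), G' m * dI z (H ω - (m : ℤ)) = 0 := by
          apply sum_eq_zero
          intro m hm
          rw [mem_Icc] at hm
          have h5 : ¬ (1 : ℤ) ≤ H ω - (m : ℤ) := by omega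
          unfold dI lamI lamzI
          rw [if_neg h5, if_neg h5, sub_zero, mul_zero]
        rw [h4, abs_zero] at hlt'
        have h5 : 0 ≤ ((b ^ K : ℕ) : ℝ) / (K : ℝ) ^ (U + 1) := by positivity
        linarith
      · left
        have hqz : q = (q' : ℤ) := by omega
        refine ⟨q' * N', Nat.mul_le_mul_left _ hN', ?_⟩
        have hS' : ∑ n ∈ Icc 1 N', G n * (lamI (q * (n : ℤ) + H ω) - lamzI z (q * (n : ℤ) + H ω)) =
            ∑ m ∈ Icc 1 (q' * N'), G' m * dI z ((m : ℤ) + H ω) := by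
          rw [hG']
          simp only
          rw [← spreadR (fun m => dI z ((m : ℤ) + H ω)) G q' N' hq1]
          apply sum_congr rfl
          intro n _
          unfold dI
          have e1 : q * (n : ℤ) + H ω = ((q' * n : ℕ) : ℤ) + H ω := by
            rw [hqz]; push_cast; ring
          rw [e1]
        rw [hS'] at hlt'
        exact hlt')
    refine h.trans ?_
    apply one_div_le_one_div_of_le (by positivity)
    refine hU.trans ?_
    calc (K : ℝ) ^ U * C1 ^ U ≤ (K : ℝ) ^ U * K := by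
          apply mul_le_mul_of_nonneg_left _ (by positivity)
          linarith
      _ = _ := by rw [pow_succ]


end Pool.Agent.H56.PD
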