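import Pool.Agent.H56.PD.Weyl

/-! Popular differences of blocks of digits, and far positions. -/

set_option autoImplicit false

namespace Pool.Agent.H56.PD

open Finset
open Pool.Agent.H807R2.Dav
open Pool.Agent.Y885

variable {I : Type} [Fintype I] [DecidableEq I]

lemma av_exists {α : Type*} (s : Finset α) (hs : s.Nonempty) (f : α → ℝ) (a : ℝ) (h : a ≤ av s f) : ∃ x ∈ s, a ≤ f x := by
  by_contra hcon
  push Not at hcon
  have hc : (0 : ℝ) < s.card := by exact_mod_cast card_pos.2 hs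
  have h1 : av s f < a := by
    unfold av
    rw [smul_eq_mul, inv_mul_lt_iff₀ hc]
    calc ∑ x ∈ s, f x < ∑ _x ∈ s, a := sum_lt_sum_of_nonempty hs hcon
      _ = s.card * a := by rw [sum_const, nsmul_eq_mul]
  linarith

lemma nest_mono (A : I → Finset ℤ) (wt : I → ℤ) (bl : List (Finset I)) (f g : ℤ → ℝ) (h : ∀ z, f z ≤ g z) :
    nest A wt bl f ≤ nest A wt bl g := by
  induction bl generalizing f g with
  | nil => exact h 1
  | cons S bl ih => exact av_le _ _ _ fun b _ => av_le _ _ _ fun b' _ => ih _ _ fun z => h _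

lemma nest_add (A : I → Finset ℤ) (wt : I → ℤ) (bl : List (Finset I)) (f g : ℤ → ℝ) :
    nest A wt bl (fun z => f z + g z) = nest A wt bl f + nest A wt bl g := by
  induction bl generalizing f g with
  | nil => rfl
  | cons S bl ih =>
    simp only [nest]
    rw [← av_add]
    apply av_congr
    intro b _
    rw [← av_add]
    apply av_congr
    intro b' _
    exact ih _ _

lemma nest_const (A : I → Finset ℤ) (hA : ∀ i, (A i).Nonempty) (wt : I → ℤ) (bl : List (Finset I)) (c : ℝ) :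
    nest A wt bl (fun _ => c) = c := by
  have hne : (Fintype.piFinset A).Nonempty := Fintype.piFinset_nonempty.2 hA
  induction bl with
  | nil => rfl
  | cons S bl ih =>
    simp only [nest]
    simp only [ih]
    rw [av_const _ hne, av_const _ hne]

lemma nest_sum (A : I → Finset ℤ) (hA : ∀ i, (A i).Nonempty) (wt : I → ℤ) (bl : List (Finset I)) {ι : Type*} (T : Finset ι) (f : ι → ℤ → ℝ) :
    nest A wt bl (fun z => ∑ t ∈ T, f t z) = ∑ t ∈ T, nest A wt bl (f t) := by
  classical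
  induction T using Finset.induction_on with
  | empty => simpa using nest_const A hA wt bl 0
  | insert t T ht ih =>
    simp only [sum_insert ht]
    rw [nest_add, ih]

lemma nest_exists (A : I → Finset ℤ) (hA : ∀ i, (A i).Nonempty) (wt : I → ℤ) (bl : List (Finset I)) (f : ℤ → ℝ) (a : ℝ)
    (h : a ≤ nest A wt bl f) : ∃ z, a ≤ f z := by
  have hne : (Fintype.piFinset A).Nonempty := Fintype.piFinset_nonempty.2 hA
  induction bl generalizing f with
  | nil => exact ⟨1, h⟩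
  | cons S bl ih =>
    obtain ⟨b, _, hb⟩ := av_exists _ hne _ _ h
    obtain ⟨b', _, hb'⟩ := av_exists _ hne _ _ hb
    obtain ⟨z, hz⟩ := ih _ hb'
    exact ⟨_, hz⟩

/-- the size of the product of the differences -/
lemma nest_size (A : I → Finset ℤ) (hA : ∀ i, (A i).Nonempty) (wt : I → ℤ) (δ : ℝ) (bl : List (Finset I × ℤ × ℤ))
    (h : ∀ p ∈ bl, 0 ≤ p.2.1 ∧ 0 ≤ p.2.2 ∧ (∀ b ∈ Fintype.piFinset A, ∀ b' ∈ Fintype.piFinset A, ws wt p.1 b - ws wt p.1 b' ≠ 0 →
        p.2.1 ≤ |ws wt p.1 b - ws wt p.1 b'| ∧ |ws wt p.1 b - ws wt p.1 b'| ≤ p.2.2) ∧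
      av (Fintype.piFinset A) (fun b => av (Fintype.piFinset A) (fun b' => if ws wt p.1 b - ws wt p.1 b' = 0 then (1 : ℝ) else 0)) ≤ δ) :
    nest A wt (bl.map Prod.fst) (fun z => if (bl.map (fun p => p.2.1)).prod ≤ |z| ∧ |z| ≤ (bl.map (fun p => p.2.2)).prod then (0 : ℝ) else 1) ≤
      bl.length * δ := by
  induction bl with
  | nil => simp [nest]
  | cons S bl ih =>
    obtain ⟨hlo, hhi, h1, h2⟩ := h S List.mem_cons_self
    have ih' := ih fun S' hS' => h S' (List.mem_cons_of_mem _ hS')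
    have hL : 0 ≤ (bl.map (fun p => p.2.1)).prod := List.prod_nonneg fun x hx => by
      obtain ⟨S', hS', rfl⟩ := List.mem_map.1 hx
      exact (h S' (List.mem_cons_of_mem _ hS')).1
    have hU : 0 ≤ (bl.map (fun p => p.2.2)).prod := List.prod_nonneg fun x hx => by
      obtain ⟨S', hS', rfl⟩ := List.mem_map.1 hx
      exact (h S' (List.mem_cons_of_mem _ hS')).2.1
    simp only [nest, List.map_cons, List.prod_cons, List.length_cons]
    push_cast
    have h3 : ∀ b ∈ Fintype.piFinset A, ∀ b' ∈ Fintype.piFinset A,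
        nest A wt (bl.map Prod.fst) (fun z => if S.2.1 * (bl.map (fun p => p.2.1)).prod ≤ |(ws wt S.1 b - ws wt S.1 b') * z| ∧
          |(ws wt S.1 b - ws wt S.1 b') * z| ≤ S.2.2 * (bl.map (fun p => p.2.2)).prod then (0 : ℝ) else 1) ≤
        (if ws wt S.1 b - ws wt S.1 b' = 0 then (1 : ℝ) else 0) + bl.length * δ := by
      intro b hb b' hb'
      by_cases hw : ws wt S.1 b - ws wt S.1 b' = 0
      · rw [if_pos hw]
        have hδ : 0 ≤ (bl.length : ℝ) * δ := by
          refine le_trans ?_ ih'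
          exact (nest_const A hA wt (bl.map Prod.fst) 0).symm.le.trans (nest_mono _ _ _ _ _ fun z => by split_ifs <;> norm_num)
        refine le_trans ?_ (le_add_of_nonneg_right hδ)
        refine (nest_mono _ _ _ _ _ fun z => ?_).trans (nest_const A hA wt (bl.map Prod.fst) 1).le
        split_ifs <;> norm_num
      · rw [if_neg hw, zero_add]
        refine le_trans (nest_mono _ _ _ _ _ fun z => ?_) ih'
        obtain ⟨g1, g2⟩ := h1 b hb b' hb' hw
        by_cases hz : (bl.map (fun p => p.2.1)).prod ≤ |z| ∧ |z| ≤ (bl.map (fun p => p.2.2)).prod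
        · rw [if_pos hz, if_pos]
          rw [abs_mul]
          exact ⟨mul_le_mul g1 hz.1 hL (abs_nonneg _), mul_le_mul g2 hz.2 (abs_nonneg _) hhi⟩
        · rw [if_neg hz]
          split_ifs <;> norm_num
    refine (av_le _ _ _ fun b hb => av_le _ _ _ fun b' hb' => h3 b hb b' hb').trans ?_
    have hne : (Fintype.piFinset A).Nonempty := Fintype.piFinset_nonempty.2 hA
    simp only [av_add, av_const _ hne]
    linarith

lemma av_prodR (A : I → Finset ℤ) (f : I → ℤ → ℝ) :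
    av (Fintype.piFinset A) (fun ω => ∏ i, f i (ω i)) = ∏ i, av (A i) (f i) := by
  unfold av
  simp only [smul_eq_mul]
  rw [prod_mul_distrib, Finset.prod_univ_sum, Fintype.card_piFinset]
  congr 1
  push_cast
  rw [prod_inv_distrib]

/-- the probability that the digits of a block agree -/
lemma prob_zero (A : I → Finset ℤ) (hA2 : ∀ i, (A i).Nonempty) (wt : I → ℤ) (S : Finset I) (hS2 : ∀ i ∈ S, 2 ≤ (A i).card)
    (hS : ∀ b ∈ Fintype.piFinset A, ∀ b' ∈ Fintype.piFinset A, ws wt S b - ws wt S b' = 0 → ∀ i ∈ S, b i = b' i) :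
    av (Fintype.piFinset A) (fun b => av (Fintype.piFinset A) (fun b' => if ws wt S b - ws wt S b' = 0 then (1 : ℝ) else 0)) ≤ (1 / 2) ^ S.card := by
  apply av_le_const _ _ _ (by positivity)
  intro b hb
  have h1 : av (Fintype.piFinset A) (fun b' => if ws wt S b - ws wt S b' = 0 then (1 : ℝ) else 0) ≤
      av (Fintype.piFinset A) (fun b' => ∏ i, (if i ∈ S then (if b i = b' i then (1 : ℝ) else 0) else 1)) := by
    apply av_le
    intro b' hb'
    split_ifs with h
    · apply le_of_eq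
      symm
      apply prod_eq_one
      intro i _
      by_cases hi : i ∈ S
      · rw [if_pos hi, if_pos (hS b hb b' hb' h i hi)]
      · rw [if_neg hi]
    · apply prod_nonneg
      intro i _
      split_ifs <;> norm_num
  refine h1.trans ?_
  rw [av_prodR A (fun i x => if i ∈ S then (if b i = x then (1 : ℝ) else 0) else 1), ← prod_sdiff (subset_univ S)]
  have h2 : ∏ i ∈ univ \ S, av (A i) (fun x => if i ∈ S then (if b i = x then (1 : ℝ) else 0) else 1) = 1 := by
    apply prod_eq_one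
    intro i hi
    rw [mem_sdiff] at hi
    simp only [if_neg hi.2]
    exact av_const _ (hA2 i) 1
  rw [h2, one_mul, ← prod_const]
  apply prod_le_prod
  · intro i _
    apply av_nonneg
    intro x _
    split_ifs <;> norm_num
  · intro i hi
    simp only [if_pos hi]
    unfold av
    rw [Fintype.mem_piFinset] at hb
    rw [sum_ite_eq, if_pos (hb i), smul_eq_mul, mul_one, one_div]
    apply inv_anti₀ (by norm_num)
    exact_mod_cast hS2 i hi

omit [Fintype I] in
open Classical in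
/-- few far positions -/
lemma far_card (A : I → Finset ℤ) (wt : I → ℤ) (R₁ : Finset I) (b : ℕ) (hb : 1 ≤ b) (hAb : ∀ i, (A i).card ≤ b) (x y : I → ℤ)
    (hx : ∀ i ∈ R₁, x i ∈ A i) (hy : ∀ i ∈ R₁, y i ∈ A i) (θ : ℝ) (c : ℤ) (κ : ℝ) (hκ : 0 < κ) (η : ℝ) (hη : 0 < η)
    (h : η ≤ PR A wt R₁ θ c) :
    ((R₁.filter (fun i => κ < |((x i - y i : ℤ) : ℝ) * (θ * c * wt i) - round (((x i - y i : ℤ) : ℝ) * (θ * c * wt i))|)).card : ℝ) ≤
      b ^ 2 / (4 * κ ^ 2) * Real.log (1 / η) := by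
  obtain ⟨Fa, hFa⟩ : ∃ Fa, Fa = R₁.filter (fun i => κ < |((x i - y i : ℤ) : ℝ) * (θ * c * wt i) - round (((x i - y i : ℤ) : ℝ) * (θ * c * wt i))|) := ⟨_, rfl⟩
  rw [← hFa]
  have hb0 : (0 : ℝ) < b := by exact_mod_cast hb
  have h1 : ∀ i ∈ Fa, ‖av (A i) (fun x : ℤ => ee ((x : ℝ) * (θ * c * wt i)))‖ ≤ Real.exp (-(4 * κ ^ 2 / b ^ 2)) := by
    intro i hi
    rw [hFa, mem_filter] at hi
    have hcard : 0 < (A i).card := card_pos.2 ⟨x i, hx i hi.1⟩
    have hcr : (0 : ℝ) < (A i).card := by exact_mod_cast hcard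
    have h2 := char_one (A i) (fun _ => ((A i).card : ℝ)⁻¹) (fun _ _ => by positivity)
      (by rw [sum_const, nsmul_eq_mul, mul_inv_cancel₀ hcr.ne']) (θ * c * wt i) κ hκ.le
    have h3 : av (A i) (fun x : ℤ => ee ((x : ℝ) * (θ * c * wt i))) =
        ∑ x ∈ A i, (((A i).card : ℝ)⁻¹ : ℝ) * ee ((x : ℝ) * (θ * c * wt i)) := by
      unfold av
      rw [Complex.real_smul, mul_sum]
    rw [← h3] at h2
    have h4 : 1 / (b : ℝ) ^ 2 ≤ fp (A i) (fun _ => ((A i).card : ℝ)⁻¹) κ (θ * c * wt i) := by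
      unfold fp
      have h5 : ∀ u ∈ A i, 0 ≤ ∑ v ∈ A i, (if κ < |((u - v : ℤ) : ℝ) * (θ * c * wt i) - round (((u - v : ℤ) : ℝ) * (θ * c * wt i))| then
          ((A i).card : ℝ)⁻¹ * ((A i).card : ℝ)⁻¹ else 0) := by
        intro u _
        apply sum_nonneg
        intro v _
        split_ifs
        · positivity
        · exact le_rfl
      refine le_trans ?_ (single_le_sum h5 (hx i hi.1))
      refine le_trans ?_ (single_le_sum (f := fun v => (if κ < |((x i - v : ℤ) : ℝ) * (θ * c * wt i) - round (((x i - v : ℤ) : ℝ) * (θ * c * wt i))| then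
          ((A i).card : ℝ)⁻¹ * ((A i).card : ℝ)⁻¹ else 0)) (fun v _ => by split_ifs <;> positivity) (hy i hi.1))
      simp only [if_pos hi.2]
      rw [← mul_inv, one_div, ← sq]
      apply inv_anti₀ (by positivity)
      apply pow_le_pow_left₀ hcr.le
      exact_mod_cast hAb i
    have h6 : ‖av (A i) (fun x : ℤ => ee ((x : ℝ) * (θ * c * wt i)))‖ ^ 2 ≤ Real.exp (-(4 * κ ^ 2 / b ^ 2)) ^ 2 := by
      rw [← Real.exp_nat_mul]
      have h7 := Real.add_one_le_exp (-(8 * κ ^ 2 / b ^ 2))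
      have h8 : 8 * κ ^ 2 * (1 / (b : ℝ) ^ 2) ≤ 8 * κ ^ 2 * fp (A i) (fun _ => ((A i).card : ℝ)⁻¹) κ (θ * c * wt i) :=
        mul_le_mul_of_nonneg_left h4 (by positivity)
      have h9 : ((2 : ℕ) : ℝ) * -(4 * κ ^ 2 / (b : ℝ) ^ 2) = -(8 * κ ^ 2 / b ^ 2) := by push_cast; ring
      rw [h9]
      have h10 : 8 * κ ^ 2 * (1 / (b : ℝ) ^ 2) = 8 * κ ^ 2 / b ^ 2 := by ring
      linarith
    exact (pow_le_pow_iff_left₀ (norm_nonneg _) (Real.exp_pos _).le (by norm_num)).1 h6
  have h2 : PR A wt R₁ θ c ≤ Real.exp (-(4 * κ ^ 2 / b ^ 2)) ^ Fa.card := by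
    unfold PR
    have hsub : Fa ⊆ R₁ := by rw [hFa]; exact filter_subset _ _
    rw [← prod_sdiff hsub, ← prod_const]
    have g1 : ∏ i ∈ R₁ \ Fa, ‖av (A i) (fun x : ℤ => ee ((x : ℝ) * (θ * c * wt i)))‖ ≤ 1 :=
      prod_le_one (fun _ _ => norm_nonneg _) fun i _ => norm_phi_le _ _
    have g2 : ∏ i ∈ Fa, ‖av (A i) (fun x : ℤ => ee ((x : ℝ) * (θ * c * wt i)))‖ ≤ ∏ _i ∈ Fa, Real.exp (-(4 * κ ^ 2 / b ^ 2)) :=
      prod_le_prod (fun _ _ => norm_nonneg _) h1
    calc _ ≤ 1 * ∏ _i ∈ Fa, Real.exp (-(4 * κ ^ 2 / b ^ 2)) :=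
          mul_le_mul g1 g2 (prod_nonneg fun _ _ => norm_nonneg _) zero_le_one
      _ = _ := one_mul _
  have h3 := h.trans h2
  rw [← Real.exp_nat_mul] at h3
  have h4 := Real.log_le_log hη h3
  rw [Real.log_exp] at h4
  rw [one_div, Real.log_inv]
  have h5 : (Fa.card : ℝ) * (4 * κ ^ 2 / b ^ 2) ≤ - Real.log η := by linarith
  have h6 : (Fa.card : ℝ) = (Fa.card : ℝ) * (4 * κ ^ 2 / b ^ 2) * (b ^ 2 / (4 * κ ^ 2)) := by field_simp
  rw [h6, mul_comm (_ / _ : ℝ) (-Real.log η)]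
  exact mul_le_mul_of_nonneg_right h5 (by positivity)

end Pool.Agent.H56.PD
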