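import Pool.Agent.H56.PD.Vec
import Pool.Graph.R_seed8.Y885.PD1

/-! Prime pairs whose difference is near the value of a polynomial at integers with restricted digits. -/

set_option autoImplicit false

namespace Pool.Agent.H56.PD

open Finset
open Pool.Agent.Y885
open Pool.Agent.H373R2.T7
open Pool.Agent.W93.PP (GoodD pc Cnt Li2)
open Pool.Agent.H560R3.GB (sing)

/-- the scale -/
lemma scale (b W m X : ℕ) (hb : 2 ≤ b) (hm : b ^ m ≤ X) (hX : (X : ℝ) ≤ (b : ℝ) ^ m * Real.log X ^ W) :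
    ∃ e K : ℕ, K = m + e ∧ e ≤ (2 + W + W * b) * (Nat.log 2 K + 1) ∧ 4 * X ≤ b ^ K ∧ b ^ K ≤ 4 * b * X ∧
      Real.log X ≤ K * b := by
  have hbm : 1 ≤ b ^ m := Nat.one_le_pow _ _ (by omega)
  obtain ⟨K, hK⟩ : ∃ K, K = Nat.clog b (4 * X) := ⟨_, rfl⟩
  have h1 : 4 * X ≤ b ^ K := by rw [hK]; exact Nat.le_pow_clog (by omega) _
  have h2 : b ^ (K - 1) < 4 * X := by
    rw [hK]
    exact Nat.pow_pred_clog_lt_self (by omega) (by omega)
  have hmK : m < K := by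
    have : b ^ m < b ^ K := by omega
    exact (Nat.pow_lt_pow_iff_right (by omega)).1 this
  obtain ⟨e, he⟩ : ∃ e, K = m + e := ⟨K - m, by omega⟩
  have he1 : 1 ≤ e := by omega
  have hKpos : 1 ≤ K := by omega
  have h3 : b ^ K ≤ 4 * b * X := by
    have : b ^ K = b ^ (K - 1) * b := by rw [← pow_succ]; congr 1; omega
    rw [this]
    nlinarith
  have hXpos : (0 : ℝ) < X := by exact_mod_cast (by omega : 0 < X)
  have hlog : Real.log X ≤ K * b := by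
    have e1 : Real.log X ≤ Real.log ((b ^ K : ℕ) : ℝ) := Real.log_le_log hXpos (by exact_mod_cast (by omega : X ≤ b ^ K))
    rw [Nat.cast_pow, Real.log_pow] at e1
    refine e1.trans (mul_le_mul_of_nonneg_left ?_ (Nat.cast_nonneg _))
    have := Real.log_le_sub_one_of_pos (show (0 : ℝ) < b by exact_mod_cast (by omega : 0 < b))
    linarith
  have hlog0 : 0 ≤ Real.log X := Real.log_natCast_nonneg X
  refine ⟨e, K, he, ?_, h1, h3, hlog⟩
  have h4 : (b : ℝ) ^ (e - 1) * (b : ℝ) ^ m < 4 * ((b : ℝ) ^ m * Real.log X ^ W) := by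
    have e1 : (b : ℝ) ^ (e - 1) * (b : ℝ) ^ m = (b : ℝ) ^ (K - 1) := by rw [← pow_add]; congr 1; omega
    have e2 : (b : ℝ) ^ (K - 1) < 4 * X := by exact_mod_cast h2
    rw [e1]
    linarith
  have hbm0 : (0 : ℝ) < (b : ℝ) ^ m := by exact_mod_cast hbm
  have h5 : (b : ℝ) ^ (e - 1) < 4 * Real.log X ^ W := by
    have : (b : ℝ) ^ (e - 1) * (b : ℝ) ^ m < (4 * Real.log X ^ W) * (b : ℝ) ^ m := by linarith
    exact lt_of_mul_lt_mul_right this hbm0.le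
  have h6 : (b : ℝ) ^ (e - 1) < 4 * ((K : ℝ) * b) ^ W := by
    have := pow_le_pow_left₀ hlog0 hlog W
    linarith
  have h7 : b ^ (e - 1) < 4 * (K * b) ^ W := by exact_mod_cast h6
  have h8 : 2 ^ (e - 1) < 2 ^ (2 + W * (Nat.log 2 K + 1 + b)) := by
    calc 2 ^ (e - 1) ≤ b ^ (e - 1) := Nat.pow_le_pow_left hb _
      _ < 4 * (K * b) ^ W := h7
      _ ≤ 4 * (2 ^ (Nat.log 2 K + 1) * 2 ^ b) ^ W := by
          apply Nat.mul_le_mul_left
          apply Nat.pow_le_pow_left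
          exact Nat.mul_le_mul (Nat.lt_pow_succ_log_self (by norm_num) K).le (Nat.lt_two_pow_self).le
      _ = _ := by
          rw [← pow_add, ← pow_mul, pow_add 2 2]
          norm_num
          ring
  have h9 := (Nat.pow_lt_pow_iff_right (by norm_num : 1 < 2)).1 h8
  have h10 : e ≤ 2 + W * (Nat.log 2 K + 1 + b) := by omega
  refine h10.trans ?_
  have h11 : 0 ≤ Nat.log 2 K := Nat.zero_le _
  nlinarith [Nat.zero_le (W * b * Nat.log 2 K), Nat.zero_le (Nat.log 2 K)]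

/-- the main theorem on pairs -/
theorem pairs (b n : ℕ) (hb : 2 ≤ b) (F : MvPolynomial (Fin n) ℤ) (hF : 1 ≤ F.totalDegree) (B A Bq C U W : ℕ) :
    ∃ k₀ : ℕ, ∀ k : ℕ, k₀ ≤ k → ∀ Dg : Fin n → ℕ → Finset ℕ, (∀ i, ∀ j < k, Dg i j ⊆ range b ∧ 2 ≤ (Dg i j).card) →
      ∀ X : ℕ, b ^ (F.totalDegree * k) ≤ X → (b : ℝ) ^ (F.totalDegree * k) * Real.log X ^ (C + 6) ≤ X →
      (X : ℝ) ≤ (b : ℝ) ^ (F.totalDegree * k) * Real.log X ^ W →
      ∀ c : ℤ, |c| ≤ (B : ℤ) * (b : ℤ) ^ (F.totalDegree * k) →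
      ∀ Ω : Finset (Fin n → ℕ), (Ω = Fintype.piFinset fun i => withDigits b k (Dg i)) →
      ∀ bad : (Fin n → ℕ) → Prop, ∀ _hd : DecidablePred bad,
      (∀ x ∈ Ω, bad x → ¬ ∀ d : ℕ, 2 ∣ d → d ≠ 0 →
        |(d : ℝ) - ((c + MvPolynomial.eval (fun i => (x i : ℤ)) F : ℤ) : ℝ)| ≤ Real.log X ^ A →
        ∀ q a : ℕ, 1 ≤ q → (q : ℝ) ≤ Real.log X ^ Bq → Nat.Coprime a q → Nat.Coprime (a + d) q → ∀ x : ℝ, 2 ≤ x → x ≤ X →
        |(pc d x a q : ℝ) - sing d / Cnt q d * Li2 x| ≤ X / Real.log X ^ C) →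
      ((Ω.filter bad).card : ℝ) ≤ (Ω.card : ℝ) / (k : ℝ) ^ U := by
  obtain ⟨V, hV⟩ : ∃ V, V = 2 * ((A + 1) + 2 * Bq + C + 9 + (C + 3) + (U + 1) + 1 + 2) + 6 := ⟨_, rfl⟩
  obtain ⟨CF, hCF⟩ := size_vec b n hb F
  obtain ⟨cl, K₁, hlaw⟩ := law_vec b n hb F hF (2 + W + W * b) V
  obtain ⟨K₂, hgood⟩ := tl_goodD b 8 (A + 1) Bq C (U + 1) (4 * b) hb (by norm_num) cl
  obtain ⟨K₃, hpoint⟩ := tl_point b hb 8 cl (A + U + 3) (by norm_num)
  obtain ⟨n1, hn1⟩ := ev_L' (B + CF + 5)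
  obtain ⟨n2, hn2⟩ := ev_log' (A + 1 + W) 1
  refine ⟨K₁ + K₂ + K₃ + n1 + n2 + 4 * b ^ (A + 1) + 4, fun k hk Dg hDg X hX0 hX1 hX2 c hc Ω hΩ bad _ hbad => ?_⟩
  obtain ⟨m, hm⟩ : ∃ m, m = F.totalDegree * k := ⟨_, rfl⟩
  rw [← hm] at hX0 hX1 hX2 hc
  have hkm : k ≤ m := by rw [hm]; exact Nat.le_mul_of_pos_left _ hF
  obtain ⟨e, K, hKe, he, hXK, hKX, hlogK⟩ := scale b W m X hb hX0 hX2
  have hkK : k ≤ K := by omega
  have hmbm : m < b ^ m := Nat.lt_pow_self (by omega)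
  have hkX : k < X := by omega
  have hXpos : (0 : ℝ) < X := by exact_mod_cast (by omega : 0 < X)
  obtain ⟨L, hL⟩ : ∃ L, L = Real.log (X : ℝ) := ⟨_, rfl⟩
  have a1 := hn1 X (by omega)
  have a2 := hn2 X (by omega)
  rw [← hL] at a1 a2 hX1 hX2 hlogK
  rw [one_mul] at a2
  have hB0 : (0 : ℝ) ≤ B := Nat.cast_nonneg _
  have hCF0 : (0 : ℝ) ≤ CF := Nat.cast_nonneg _
  have hL5 : 5 ≤ L := by linarith
  have hL0 : 0 < L := by linarith
  have hL1 : 1 ≤ L := by linarith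
  have hbm0 : (0 : ℝ) < (b : ℝ) ^ m := by
    have : 0 < b ^ m := by omega
    exact_mod_cast this
  -- the window
  obtain ⟨w, hw⟩ : ∃ w : ℕ, w = ⌈L ^ A⌉₊ := ⟨_, rfl⟩
  have hw1 : L ^ A ≤ w := by rw [hw]; exact Nat.le_ceil _
  have hw2 : 2 * (w : ℝ) ≤ L ^ (A + 1) := by
    have e1 : (w : ℝ) < L ^ A + 1 := by rw [hw]; exact Nat.ceil_lt_add_one (by positivity)
    have e2 : 1 ≤ L ^ A := one_le_pow₀ hL1
    rw [pow_succ]
    nlinarith
  have hwm : (w : ℝ) ≤ (b : ℝ) ^ m := by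
    have e1 : L ^ (A + 1) * L ^ W ≤ X := by
      rw [← pow_add]
      refine a2.trans ?_
      rw [Real.sqrt_le_left hXpos.le]
      have : (1 : ℝ) ≤ X := by exact_mod_cast (by omega : 1 ≤ X)
      nlinarith
    have e2 : L ^ (A + 1) * L ^ W ≤ (b : ℝ) ^ m * L ^ W := e1.trans hX2
    have e3 := le_of_mul_le_mul_right e2 (by positivity)
    have e4 : (0 : ℝ) ≤ w := Nat.cast_nonneg _
    linarith
  -- the random integer
  obtain ⟨Y, hY⟩ : ∃ Y : (Fin n → ℕ) → ℤ, Y = fun x => (c - w) + MvPolynomial.eval (fun i => (x i : ℤ)) F := ⟨_, rfl⟩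
  obtain ⟨g1, g2⟩ := hlaw k K e (by omega) he (by rw [hKe, hm]) Dg hDg (c - w)
  rw [← hΩ, ← hY] at g1
  rw [← hΩ] at g2
  have hΩ0 : (0 : ℝ) < Ω.card := by exact_mod_cast g2
  have hYb : ∀ x ∈ Ω, |((Y x : ℤ) : ℝ)| ≤ (B + CF + 1) * (b : ℝ) ^ m := by
    intro x hx
    have e1 := hCF k Dg x (by rw [← hΩ]; exact hx)
    rw [← hm] at e1
    have e2 : |((MvPolynomial.eval (fun i => (x i : ℤ)) F : ℤ) : ℝ)| ≤ CF * (b : ℝ) ^ m := by exact_mod_cast e1
    have e3 : |(c : ℝ)| ≤ B * (b : ℝ) ^ m := by exact_mod_cast hc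
    rw [hY]
    push_cast
    rw [abs_le] at e2 e3 ⊢
    have e4 : (0 : ℝ) ≤ w := Nat.cast_nonneg _
    constructor <;> linarith [e2.1, e2.2, e3.1, e3.2]
  have hYX : ∀ x ∈ Ω, |((Y x : ℤ) : ℝ)| ≤ X / L ^ (C + 5) := by
    intro x hx
    refine (hYb x hx).trans ?_
    rw [le_div_iff₀ (by positivity)]
    calc ((B : ℝ) + CF + 1) * (b : ℝ) ^ m * L ^ (C + 5) ≤ L * (b : ℝ) ^ m * L ^ (C + 5) := by
          apply mul_le_mul_of_nonneg_right _ (by positivity)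
          exact mul_le_mul_of_nonneg_right (by linarith) hbm0.le
      _ = (b : ℝ) ^ m * L ^ (C + 6) := by ring
      _ ≤ X := hX1
  have hYX' : ∀ x ∈ Ω, |Y x| ≤ X := by
    intro x hx
    have e1 := hYX x hx
    have e2 : (X : ℝ) / L ^ (C + 5) ≤ X := div_le_self hXpos.le (one_le_pow₀ hL1)
    have e3 := e1.trans e2
    exact_mod_cast e3
  have hK0 : (0 : ℝ) < K := by exact_mod_cast (by omega : 0 < K)
  -- the good event
  have h1 := hgood K (by omega) _ Ω _ Y (by rw [← hV]; exact g1) X hKX hXK hYX'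
    (fun x => x ∈ Ω ∧ bad x ∧ 0 ≤ Y x) (Classical.decPred _) (by
      intro x hx hbx
      refine ⟨hbx.2.2, ?_, ?_⟩
      · rw [← hL]
        exact (le_abs_self _).trans (hYX x hx)
      · intro hG
        apply hbad x hx hbx.2.1
        intro d hd1 hd2 hd3 q a hq1 hq2 ha had y hy1 hy2
        obtain ⟨y0, hy0⟩ := Int.eq_ofNat_of_zero_le hbx.2.2
        rw [hy0, Int.toNat_natCast] at hG
        have e1 : (c + MvPolynomial.eval (fun i => (x i : ℤ)) F : ℤ) = (y0 : ℤ) + w := by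
          rw [← hy0, hY]; ring
        rw [e1] at hd3
        push_cast at hd3
        rw [abs_le] at hd3
        rw [← hL] at hd3
        have e2 : y0 ≤ d := by
          have : (y0 : ℝ) ≤ d := by linarith [hd3.1]
          exact_mod_cast this
        obtain ⟨δ, hδ⟩ := Nat.exists_eq_add_of_le e2
        rw [hδ] at hd1 hd2 had ⊢
        refine hG δ q a ?_ hq1 hq2 ha had hd1 hd2 y hy1 hy2
        rw [hδ] at hd3
        push_cast at hd3
        rw [← hL]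
        linarith [hd3.2])
  have h2 : ∑ x ∈ Ω, (Ω.card : ℝ)⁻¹ * (if -(2 * (w : ℤ)) ≤ Y x ∧ Y x < 0 then (1 : ℝ) else 0) ≤ (2 * (w : ℝ)) * (1 / (K : ℝ) ^ (A + U + 3)) := by
    have e1 : ∀ x ∈ Ω, (Ω.card : ℝ)⁻¹ * (if -(2 * (w : ℤ)) ≤ Y x ∧ Y x < 0 then (1 : ℝ) else 0) ≤
        ∑ y ∈ Ico (-(2 * (w : ℤ))) 0, (Ω.card : ℝ)⁻¹ * (if Y x = y then (1 : ℝ) else 0) := by
      intro x _
      by_cases hh : -(2 * (w : ℤ)) ≤ Y x ∧ Y x < 0
      · rw [if_pos hh]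
        have e2 := single_le_sum (f := fun y => (Ω.card : ℝ)⁻¹ * (if Y x = y then (1 : ℝ) else 0)) (s := Ico (-(2 * (w : ℤ))) 0)
          (fun y _ => by positivity) (mem_Ico.2 hh)
        simp only [if_true] at e2
        exact e2
      · rw [if_neg hh, mul_zero]
        exact sum_nonneg fun y _ => by positivity
    refine (sum_le_sum e1).trans ?_
    rw [sum_comm]
    have e3 : ∀ y ∈ Ico (-(2 * (w : ℤ))) 0, ∑ x ∈ Ω, (Ω.card : ℝ)⁻¹ * (if Y x = y then (1 : ℝ) else 0) ≤ 1 / (K : ℝ) ^ (A + U + 3) :=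
      fun y _ => hpoint K (by omega) _ Ω _ Y (g1.mono (by omega) (by omega)) y
    refine (sum_le_sum e3).trans (le_of_eq ?_)
    rw [sum_const, nsmul_eq_mul, Int.card_Ico]
    congr 1
    have : (0 - -(2 * (w : ℤ))) = ((2 * w : ℕ) : ℤ) := by push_cast; ring
    rw [this, Int.toNat_natCast]
    push_cast
    ring
  have h3 : ((Ω.filter bad).card : ℝ) * (Ω.card : ℝ)⁻¹ ≤ 1 / (K : ℝ) ^ (U + 1) + (2 * (w : ℝ)) * (1 / (K : ℝ) ^ (A + U + 3)) := by
    refine le_trans ?_ (add_le_add h1 h2)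
    rw [← sum_add_distrib, ← nsmul_eq_mul, ← sum_const, sum_filter]
    apply sum_le_sum
    intro x hx
    have hi : 0 ≤ (Ω.card : ℝ)⁻¹ := by positivity
    by_cases hbx : bad x
    · rw [if_pos hbx]
      by_cases hy : 0 ≤ Y x
      · rw [if_pos ⟨hx, hbx, hy⟩]
        have : 0 ≤ (Ω.card : ℝ)⁻¹ * (if -(2 * (w : ℤ)) ≤ Y x ∧ Y x < 0 then (1 : ℝ) else 0) := by
          apply mul_nonneg hi; split_ifs <;> norm_num
        linarith
      · have hneg : -(2 * (w : ℤ)) ≤ Y x := by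
          by_contra hcon
          push Not at hcon
          apply hbad x hx hbx
          intro d _ hd2 hd3
          exfalso
          have e1 : (c + MvPolynomial.eval (fun i => (x i : ℤ)) F : ℤ) = Y x + w := by rw [hY]; ring
          rw [e1, ← hL] at hd3
          push_cast at hd3
          rw [abs_le] at hd3
          have e2 : ((Y x : ℤ) : ℝ) < -(2 * (w : ℝ)) := by exact_mod_cast hcon
          have e3 : (1 : ℝ) ≤ d := by exact_mod_cast (by omega : 1 ≤ d)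
          linarith [hd3.2]
        rw [if_pos (⟨hneg, not_le.1 hy⟩ : -(2 * (w : ℤ)) ≤ Y x ∧ Y x < 0), mul_one]
        apply le_add_of_nonneg_left
        split_ifs <;> positivity
    · rw [if_neg hbx]
      apply add_nonneg
      · split_ifs <;> positivity
      · apply mul_nonneg hi; split_ifs <;> norm_num
  have h4 : 1 / (K : ℝ) ^ (U + 1) + (2 * (w : ℝ)) * (1 / (K : ℝ) ^ (A + U + 3)) ≤ 1 / (K : ℝ) ^ U := by
    have e1 : 2 * (w : ℝ) ≤ (b : ℝ) ^ (A + 1) * (K : ℝ) ^ (A + 1) := by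
      refine hw2.trans ((pow_le_pow_left₀ hL0.le hlogK (A + 1)).trans (le_of_eq ?_))
      rw [mul_pow]; ring
    have e2 : (2 * (w : ℝ)) * (1 / (K : ℝ) ^ (A + U + 3)) ≤ (b : ℝ) ^ (A + 1) * (1 / (K : ℝ) ^ (U + 2)) := by
      refine (mul_le_mul_of_nonneg_right e1 (by positivity)).trans (le_of_eq ?_)
      rw [show A + U + 3 = (A + 1) + (U + 2) by ring, pow_add (K : ℝ) (A + 1)]
      field_simp
    have e3 : 2 * (b : ℝ) ^ (A + 1) ≤ K := by
      have : 4 * b ^ (A + 1) ≤ K := by omega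
      have e4 : 4 * (b : ℝ) ^ (A + 1) ≤ K := by exact_mod_cast this
      have e5 : (0 : ℝ) ≤ (b : ℝ) ^ (A + 1) := by positivity
      linarith
    have e4 : (4 : ℝ) ≤ K := by exact_mod_cast (by omega : 4 ≤ K)
    have e5 : 1 / (K : ℝ) ^ (U + 1) = (1 / K) * (1 / (K : ℝ) ^ U) := by rw [pow_succ]; field_simp
    have e6 : 1 / (K : ℝ) ^ (U + 2) = (1 / K) * ((1 / K) * (1 / (K : ℝ) ^ U)) := by rw [pow_add]; field_simp
    have e7 : 1 / (K : ℝ) ≤ 1 / 4 := one_div_le_one_div_of_le (by norm_num) e4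
    have e8 : (b : ℝ) ^ (A + 1) * (1 / K) ≤ 1 / 2 := by rw [mul_one_div, div_le_iff₀ hK0]; linarith
    have e9 : 0 < 1 / (K : ℝ) ^ U := by positivity
    rw [e5]
    rw [e6] at e2
    have e10 : (b : ℝ) ^ (A + 1) * ((1 / K) * ((1 / K) * (1 / (K : ℝ) ^ U))) = ((b : ℝ) ^ (A + 1) * (1 / K)) * (1 / K) * (1 / (K : ℝ) ^ U) := by ring
    have e11 : ((b : ℝ) ^ (A + 1) * (1 / K)) * (1 / K) ≤ 1 / 2 * (1 / 4) :=
      mul_le_mul e8 e7 (by positivity) (by norm_num)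
    have e12 : (2 * (w : ℝ)) * (1 / (K : ℝ) ^ (A + U + 3)) ≤ 1 / 2 * (1 / 4) * (1 / (K : ℝ) ^ U) := by
      refine e2.trans ?_
      rw [e10]
      exact mul_le_mul_of_nonneg_right e11 e9.le
    have e13 : 1 / (K : ℝ) * (1 / (K : ℝ) ^ U) ≤ 1 / 4 * (1 / (K : ℝ) ^ U) := mul_le_mul_of_nonneg_right e7 e9.le
    linarith
  have h5 := h3.trans h4
  rw [mul_inv_le_iff₀ hΩ0, one_div, inv_mul_eq_div] at h5
  refine h5.trans ?_
  apply div_le_div_of_nonneg_left hΩ0.le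
  · have : (0 : ℝ) < k := by exact_mod_cast (by omega : 0 < k)
    positivity
  · exact pow_le_pow_left₀ (Nat.cast_nonneg _) (by exact_mod_cast hkK) U

end Pool.Agent.H56.PD
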