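import Pool.Agent.H56.PD.Block

/-! Common popular differences for many frequencies. -/

set_option autoImplicit false

namespace Pool.Agent.H56.PD

open Finset
open Pool.Agent.H807R2.Dav
open Pool.Agent.Y885

variable {n k d : ℕ}

/-- the first position of the block `l` in the system `r` -/
def lo (k s r l : ℕ) : ℕ := if l < r then k - (l + 1) * s else l * s

/-- the last position of the block `l` in the system `r` -/
def hi (k s r l : ℕ) : ℕ := if l < r then k - l * s else (l + 1) * s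

lemma lo_hi (k s r l d : ℕ) (hl : l < d) (hk : 2 * (d * s) ≤ k) : lo k s r l + s = hi k s r l ∧ hi k s r l ≤ k := by
  have h1 : (l + 1) * s ≤ d * s := Nat.mul_le_mul_right s hl
  have h2 : (l + 1) * s = l * s + s := by ring
  unfold lo hi
  split_ifs <;> omega

lemma blk_disj (k s r d : ℕ) (hk : 2 * (d * s) ≤ k) (u : Fin d → Fin n) (l l' : Fin d) (hll : l < l') :
    Disjoint (blk (k := k) (u l) (lo k s r l) (hi k s r l)) (blk (u l') (lo k s r l') (hi k s r l')) := by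
  rw [disjoint_left]
  intro i h1 h2
  rw [mem_blk] at h1 h2
  have hl : (l : ℕ) + 1 ≤ l' := hll
  have e1 : ((l : ℕ) + 1) * s ≤ l' * s := Nat.mul_le_mul_right s hl
  have e2 : ((l' : ℕ) + 1) * s ≤ d * s := Nat.mul_le_mul_right s l'.2
  have e3 : ((l : ℕ) + 1) * s = l * s + s := by ring
  have e4 : ((l' : ℕ) + 1) * s = l' * s + s := by ring
  have e5 := i.2.2
  unfold lo hi at h1 h2
  split_ifs at h1 h2 <;> omega

/-- the positions of the last variable which are used -/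
def R1 (n k : ℕ) (v : Fin n) (d s : ℕ) : Finset (Fin n × Fin k) := blk v (d * s) (k - d * s)

lemma blk_R1 (k s r d : ℕ) (hk : 2 * (d * s) ≤ k) (u : Fin d → Fin n) (v : Fin n) (l : Fin d) :
    Disjoint (blk (k := k) (u l) (lo k s r l) (hi k s r l)) (R1 n k v d s) := by
  rw [disjoint_left]
  intro i h1 h2
  unfold R1 at h2
  rw [mem_blk] at h1 h2
  have e2 : ((l : ℕ) + 1) * s ≤ d * s := Nat.mul_le_mul_right s l.2
  have e4 : ((l : ℕ) + 1) * s = l * s + s := by ring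
  have e5 := i.2.2
  unfold lo hi at h1
  split_ifs at h1 <;> omega

lemma sum_lo (k s r d : ℕ) (hk : 2 * (d * s) ≤ k) (hr : r ≤ d) : r * k ≤ ∑ l : Fin d, lo k s r l + d * d * s := by
  have h1 : ∑ l : Fin d, (if (l : ℕ) < r then k else 0) = r * k := by
    rw [Fin.sum_univ_eq_sum_range (fun l => if l < r then k else 0) d, ← sum_filter, sum_const, smul_eq_mul]
    congr 1
    have : (range d).filter (fun l => l < r) = range r := by
      ext l; rw [mem_filter, mem_range, mem_range]; omega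
    rw [this, card_range]
  have h2 : ∑ l : Fin d, (if (l : ℕ) < r then k else 0) ≤ ∑ l : Fin d, (lo k s r l + d * s) := by
    apply sum_le_sum
    intro l _
    have e2 : ((l : ℕ) + 1) * s ≤ d * s := Nat.mul_le_mul_right s l.2
    unfold lo
    split_ifs <;> omega
  rw [sum_add_distrib, sum_const, card_univ, Fintype.card_fin, smul_eq_mul] at h2
  rw [h1] at h2
  calc r * k ≤ _ := h2
    _ = _ := by ring

lemma sum_hi (k s r d : ℕ) (hk : 2 * (d * s) ≤ k) (hr : r ≤ d) : ∑ l : Fin d, hi k s r l ≤ r * k + d * d * s := by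
  have h1 : ∑ l : Fin d, (if (l : ℕ) < r then k else 0) = r * k := by
    rw [Fin.sum_univ_eq_sum_range (fun l => if l < r then k else 0) d, ← sum_filter, sum_const, smul_eq_mul]
    congr 1
    have : (range d).filter (fun l => l < r) = range r := by
      ext l; rw [mem_filter, mem_range, mem_range]; omega
    rw [this, card_range]
  have h2 : ∑ l : Fin d, hi k s r l ≤ ∑ l : Fin d, ((if (l : ℕ) < r then k else 0) + d * s) := by
    apply sum_le_sum
    intro l _
    have e2 : ((l : ℕ) + 1) * s ≤ d * s := Nat.mul_le_mul_right s l.2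
    unfold hi
    split_ifs <;> omega
  rw [sum_add_distrib, sum_const, card_univ, Fintype.card_fin, smul_eq_mul, h1] at h2
  calc _ ≤ _ := h2
    _ = _ := by ring

open Classical in
/-- a popular difference for one system of blocks -/
lemma piece (b : ℕ) (hb : 2 ≤ b) (s : ℕ) (hk : 2 * (d * s) ≤ k) (A : Fin n × Fin k → Finset ℤ)
    (hA : ∀ i, ∀ x ∈ A i, 0 ≤ x ∧ x < b) (hA2 : ∀ i, 2 ≤ (A i).card) (F : (Fin n → ℤ) → ℤ) (hF : DegLE (d + 1) F)
    (u : Fin d → Fin n) (v : Fin n) (η : ℝ) (hsη : d * (1 / 2 : ℝ) ^ s ≤ η / 4) (r : ℕ) (hr : r ≤ d)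
    (θ : ℕ → ℝ) (T : Finset ℕ) (hT : ∀ t ∈ T, η ≤ ‖av (Fintype.piFinset A) (fun ω => ee (θ t * (F (val Prod.fst (wtb b) univ ω) : ℤ)))‖ ^ (2 ^ d)) :
    ∃ (z : ℤ) (T' : Finset ℕ), T' ⊆ T ∧ η / 2 * T.card ≤ T'.card ∧ (T'.Nonempty → (b : ℤ) ^ (r * k) ≤ |z| * (b : ℤ) ^ (d * d * s) ∧
      |z| ≤ (b : ℤ) ^ (r * k + d * d * s)) ∧ ∀ t ∈ T', η / 4 ≤ PR A (wtb b) (R1 n k v d s) (θ t) (z * itd (List.ofFn u ++ [v]) F 0) := by
  have hb0 : (0 : ℤ) < b := by exact_mod_cast (by omega : 0 < b)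
  have hAne : ∀ i, (A i).Nonempty := fun i => card_pos.1 (by have := hA2 i; omega)
  obtain ⟨c₀, hc₀⟩ : ∃ c₀, c₀ = itd (List.ofFn u ++ [v]) F 0 := ⟨_, rfl⟩
  rw [← hc₀]
  -- the blocks
  obtain ⟨bl, hbl⟩ : ∃ bl : List (Finset (Fin n × Fin k) × Fin n), bl = List.ofFn (fun l : Fin d => (blk (u l) (lo k s r l) (hi k s r l), u l)) := ⟨_, rfl⟩
  obtain ⟨bs, hbs⟩ : ∃ bs : List (Finset (Fin n × Fin k) × ℤ × ℤ), bs = List.ofFn (fun l : Fin d =>
      (blk (u l) (lo k s r l) (hi k s r l), (b : ℤ) ^ lo k s r l, (b : ℤ) ^ hi k s r l)) := ⟨_, rfl⟩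
  have hfst : bl.map Prod.fst = bs.map Prod.fst := by
    rw [hbl, hbs, List.map_ofFn, List.map_ofFn]; rfl
  have hsnd : bl.map Prod.snd = List.ofFn u := by
    rw [hbl, List.map_ofFn]; rfl
  have hlen : bl.length = d := by rw [hbl, List.length_ofFn]
  have hweyl : ∀ t ∈ T, η ≤ nest A (wtb b) (bs.map Prod.fst) (fun z => PR A (wtb b) (R1 n k v d s) (θ t) (z * c₀)) := by
    intro t ht
    have h1 := weyl A hAne (wtb b) Prod.fst v bl F (by rw [hlen]; exact hF) univ (R1 n k v d s) (subset_univ _)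
      (fun i hi => by unfold R1 at hi; rw [mem_blk] at hi; exact hi.1)
      (fun p hp => by
        rw [hbl, List.mem_ofFn] at hp
        obtain ⟨l, rfl⟩ := hp
        exact ⟨subset_univ _, blk_R1 k s r d hk u v l, fun i hi => ((mem_blk _ _ _ _).1 hi).1⟩)
      (by
        rw [hbl, List.pairwise_ofFn]
        intro l l' hll
        exact blk_disj k s r d hk u l l' hll) (θ t)
    rw [hlen, hsnd, hfst, ← hc₀] at h1
    exact (hT t ht).trans h1
  have hsize := nest_size A hAne (wtb b) ((1 / 2 : ℝ) ^ s) bs (by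
    intro p hp
    rw [hbs, List.mem_ofFn] at hp
    obtain ⟨l, rfl⟩ := hp
    obtain ⟨g1, g2⟩ := lo_hi k s r l d l.2 hk
    refine ⟨(pow_pos hb0 _).le, (pow_pos hb0 _).le, fun a ha a' ha' => ?_, ?_⟩
    · exact (ws_blk b hb A hA (u l) _ _ (by omega) g2 a ha a' ha').1
    · have h1 := prob_zero A hAne (wtb b) (blk (u l) (lo k s r l) (hi k s r l)) (fun i _ => hA2 i)
        (fun a ha a' ha' => (ws_blk b hb A hA (u l) _ _ (by omega) g2 a ha a' ha').2)
      rw [card_blk _ _ _ g2, show hi k s r l - lo k s r l = s by omega] at h1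
      exact h1)
  have hblen : bs.length = d := by rw [hbs, List.length_ofFn]
  rw [hblen] at hsize
  obtain ⟨Gd, hGd⟩ : ∃ Gd : ℤ → Prop, Gd = fun z => (bs.map (fun p => p.2.1)).prod ≤ |z| ∧ |z| ≤ (bs.map (fun p => p.2.2)).prod := ⟨_, rfl⟩
  obtain ⟨Gt, hGt⟩ : ∃ Gt : ℕ → ℤ → Prop, Gt = fun t z => η / 4 ≤ PR A (wtb b) (R1 n k v d s) (θ t) (z * c₀) := ⟨_, rfl⟩
  have hpop : ∀ t ∈ T, η / 2 ≤ nest A (wtb b) (bs.map Prod.fst) (fun z => if Gd z ∧ Gt t z then (1 : ℝ) else 0) := by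
    intro t ht
    have h1 := hweyl t ht
    have h2 : nest A (wtb b) (bs.map Prod.fst) (fun z => PR A (wtb b) (R1 n k v d s) (θ t) (z * c₀)) ≤
        nest A (wtb b) (bs.map Prod.fst) (fun z => (if Gd z ∧ Gt t z then (1 : ℝ) else 0) + (η / 4 + (if Gd z then (0 : ℝ) else 1))) := by
      apply nest_mono
      intro z
      have h3 : PR A (wtb b) (R1 n k v d s) (θ t) (z * c₀) ≤ 1 := prod_le_one (fun _ _ => norm_nonneg _) fun i _ => norm_phi_le _ _
      have h4 : 0 ≤ η / 4 := le_trans (by positivity) hsη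
      by_cases g1 : Gd z
      · by_cases g2 : Gt t z
        · rw [if_pos ⟨g1, g2⟩, if_pos g1]; linarith
        · rw [if_neg (fun h => g2 h.2), if_pos g1]
          rw [hGt] at g2
          simp only [not_le] at g2
          linarith
      · rw [if_neg (fun h => g1 h.1), if_neg g1]
        linarith
    rw [nest_add, nest_add, nest_const A hAne] at h2
    have h5 : nest A (wtb b) (bs.map Prod.fst) (fun z => if Gd z then (0 : ℝ) else 1) ≤ d * (1 / 2 : ℝ) ^ s := by
      rw [hGd]; convert hsize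
    linarith
  have hsum : η / 2 * T.card ≤ nest A (wtb b) (bs.map Prod.fst) (fun z => ∑ t ∈ T, if Gd z ∧ Gt t z then (1 : ℝ) else 0) := by
    rw [nest_sum A hAne]
    calc η / 2 * T.card = ∑ _t ∈ T, η / 2 := by rw [sum_const, nsmul_eq_mul]; ring
      _ ≤ _ := sum_le_sum hpop
  obtain ⟨z, hz⟩ := nest_exists A hAne (wtb b) _ _ _ hsum
  refine ⟨z, T.filter (fun t => Gd z ∧ Gt t z), filter_subset _ _, ?_, ?_, ?_⟩
  · rw [← sum_filter, sum_const, nsmul_eq_mul, mul_one] at hz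
    exact hz
  · rintro ⟨t, ht⟩
    have h1 := (mem_filter.1 ht).2.1
    rw [hGd] at h1
    obtain ⟨h1, h2⟩ := h1
    have hp1 : (bs.map (fun p => p.2.1)).prod = (b : ℤ) ^ (∑ l : Fin d, lo k s r l) := by
      rw [hbs, List.map_ofFn, List.prod_ofFn, ← prod_pow_eq_pow_sum]
      rfl
    have hp2 : (bs.map (fun p => p.2.2)).prod = (b : ℤ) ^ (∑ l : Fin d, hi k s r l) := by
      rw [hbs, List.map_ofFn, List.prod_ofFn, ← prod_pow_eq_pow_sum]
      rfl
    rw [hp1] at h1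
    rw [hp2] at h2
    have hb1 : (1 : ℤ) ≤ b := hb0
    constructor
    · calc (b : ℤ) ^ (r * k) ≤ (b : ℤ) ^ (∑ l : Fin d, lo k s r l + d * d * s) := pow_le_pow_right₀ hb1 (sum_lo k s r d hk hr)
        _ = (b : ℤ) ^ (∑ l : Fin d, lo k s r l) * (b : ℤ) ^ (d * d * s) := pow_add _ _ _
        _ ≤ _ := mul_le_mul_of_nonneg_right h1 (pow_pos hb0 _).le
    · exact h2.trans (pow_le_pow_right₀ hb1 (sum_hi k s r d hk hr))
  · intro t ht
    have h1 := (mem_filter.1 ht).2.2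
    rw [hGt] at h1
    exact h1

open Classical in
/-- popular differences for all the systems -/
lemma pieces (b : ℕ) (hb : 2 ≤ b) (s : ℕ) (hk : 2 * (d * s) ≤ k) (A : Fin n × Fin k → Finset ℤ)
    (hA : ∀ i, ∀ x ∈ A i, 0 ≤ x ∧ x < b) (hA2 : ∀ i, 2 ≤ (A i).card) (F : (Fin n → ℤ) → ℤ) (hF : DegLE (d + 1) F)
    (u : Fin d → Fin n) (v : Fin n) (η : ℝ) (hη : 0 < η) (hsη : d * (1 / 2 : ℝ) ^ s ≤ η / 4)
    (θ : ℕ → ℝ) (m : ℕ) (hm : m ≤ d + 1) (T : Finset ℕ)
    (hT : ∀ t ∈ T, η ≤ ‖av (Fintype.piFinset A) (fun ω => ee (θ t * (F (val Prod.fst (wtb b) univ ω) : ℤ)))‖ ^ (2 ^ d)) :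
    ∃ (z : ℕ → ℤ) (T' : Finset ℕ), T' ⊆ T ∧ (η / 2) ^ m * T.card ≤ T'.card ∧ (T'.Nonempty → ∀ r < m, (b : ℤ) ^ (r * k) ≤ |z r| * (b : ℤ) ^ (d * d * s) ∧
      |z r| ≤ (b : ℤ) ^ (r * k + d * d * s)) ∧ ∀ t ∈ T', ∀ r < m, η / 4 ≤ PR A (wtb b) (R1 n k v d s) (θ t) (z r * itd (List.ofFn u ++ [v]) F 0) := by
  induction m with
  | zero => exact ⟨fun _ => 0, T, Subset.refl _, by simp, fun _ r hr => by omega, fun _ _ r hr => by omega⟩
  | succ m ih =>
    obtain ⟨z, T₁, h1, h2, h3, h4⟩ := ih (by omega)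
    obtain ⟨w, T₂, g1, g2, g3, g4⟩ := piece b hb s hk A hA hA2 F hF u v η hsη m (by omega) θ T₁ (fun t ht => hT t (h1 ht))
    refine ⟨fun r => if r < m then z r else w, T₂, g1.trans h1, ?_, ?_, ?_⟩
    · calc (η / 2) ^ (m + 1) * T.card = η / 2 * ((η / 2) ^ m * T.card) := by ring
        _ ≤ η / 2 * T₁.card := mul_le_mul_of_nonneg_left h2 (by positivity)
        _ ≤ _ := g2
    · intro hne r hr
      by_cases hrm : r < m
      · simp only [if_pos hrm]
        exact h3 (hne.mono g1) r hrm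
      · simp only [if_neg hrm]
        rw [show r = m by omega]
        exact g3 hne
    · intro t ht r hr
      by_cases hrm : r < m
      · simp only [if_pos hrm]
        exact h4 t (g1 ht) r hrm
      · simp only [if_neg hrm]
        exact g4 t ht

end Pool.Agent.H56.PD
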