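import Pool.Agent.H56.PD.Vec
import Pool.Graph.R_seed8.Y885.TU1

/-! Prime tuples whose shifts are near the values of polynomials at integers with restricted digits. -/

set_option autoImplicit false

namespace Pool.Agent.H56.PD

open Finset
open Pool.Agent.Y885
open Pool.Agent.H373R2.T7
open Pool.Agent.W93.TD (HLs)

lemma tlaw_mono_c {b E c c' V K : ℕ} {ι : Type} {Ω : Finset ι} {p : ι → ℝ} {Y : ι → ℤ} (hK : 1 ≤ K) (hc : c ≤ c')
    (h : TLaw b E c V K Ω p Y) : TLaw b E c' V K Ω p Y :=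
  ⟨h.nonneg, h.le_one, thin_mono _ _ _ _ _ _ (Nat.pow_le_pow_right hK hc) _ h.thin⟩

/-- the scale -/
lemma scaleM (b W M N : ℕ) (hb : 2 ≤ b) (hM : 2 ≤ M) (hN : 1 ≤ N) : ∃ K : ℕ, M * N ≤ b ^ K ∧ b ^ K ≤ b * M * N ∧
      (1 ≤ Real.log N → Real.log N ≤ K * b) ∧
      ∀ m : ℕ, b ^ m ≤ M * N → (N : ℝ) ≤ (b : ℝ) ^ m * Real.log N ^ W →
        ∃ e : ℕ, K = m + e ∧ e ≤ (M + W + W * b) * (Nat.log 2 K + 1) := by
  obtain ⟨K, hK⟩ : ∃ K, K = Nat.clog b (M * N) := ⟨_, rfl⟩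
  have hMN : 1 < M * N := by nlinarith
  have h1 : M * N ≤ b ^ K := by rw [hK]; exact Nat.le_pow_clog (by omega) _
  have h2 : b ^ (K - 1) < M * N := by
    rw [hK]
    exact Nat.pow_pred_clog_lt_self (by omega) hMN
  have hKpos : 1 ≤ K := by
    by_contra hcon
    have : K = 0 := by omega
    rw [this, pow_zero] at h1
    omega
  have h3 : b ^ K ≤ b * M * N := by
    have : b ^ K = b ^ (K - 1) * b := by rw [← pow_succ]; congr 1; omega
    rw [this]
    nlinarith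
  have hNpos : (0 : ℝ) < N := by exact_mod_cast (by omega : 0 < N)
  have hlog : Real.log N ≤ K * b := by
    have e1 : Real.log N ≤ Real.log ((b ^ K : ℕ) : ℝ) := Real.log_le_log hNpos (by exact_mod_cast (by nlinarith : N ≤ b ^ K))
    rw [Nat.cast_pow, Real.log_pow] at e1
    refine e1.trans (mul_le_mul_of_nonneg_left ?_ (Nat.cast_nonneg _))
    have := Real.log_le_sub_one_of_pos (show (0 : ℝ) < b by exact_mod_cast (by omega : 0 < b))
    linarith
  have hlog0 : 0 ≤ Real.log N := Real.log_natCast_nonneg N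
  refine ⟨K, h1, h3, fun _ => hlog, fun m hm hN2 => ?_⟩
  have hmK : m ≤ K := by
    have : b ^ m ≤ b ^ K := by omega
    exact (Nat.pow_le_pow_iff_right (by omega)).1 this
  obtain ⟨e, he⟩ : ∃ e, K = m + e := ⟨K - m, by omega⟩
  refine ⟨e, he, ?_⟩
  rcases Nat.eq_zero_or_pos e with he0 | he1
  · rw [he0]; exact Nat.zero_le _
  have hbm0 : (0 : ℝ) < (b : ℝ) ^ m := by
    have : 0 < b ^ m := Nat.pow_pos (by omega)
    exact_mod_cast this
  have h4 : (b : ℝ) ^ (e - 1) * (b : ℝ) ^ m < M * ((b : ℝ) ^ m * Real.log N ^ W) := by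
    have e1 : (b : ℝ) ^ (e - 1) * (b : ℝ) ^ m = (b : ℝ) ^ (K - 1) := by rw [← pow_add]; congr 1; omega
    have e2 : (b : ℝ) ^ (K - 1) < M * N := by exact_mod_cast h2
    rw [e1]
    exact e2.trans_le (mul_le_mul_of_nonneg_left hN2 (Nat.cast_nonneg _))
  have h5 : (b : ℝ) ^ (e - 1) < M * Real.log N ^ W := by
    have : (b : ℝ) ^ (e - 1) * (b : ℝ) ^ m < (M * Real.log N ^ W) * (b : ℝ) ^ m := by linarith
    exact lt_of_mul_lt_mul_right this hbm0.le
  have h6 : (b : ℝ) ^ (e - 1) < M * ((K : ℝ) * b) ^ W := by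
    have := pow_le_pow_left₀ hlog0 hlog W
    exact h5.trans_le (mul_le_mul_of_nonneg_left this (Nat.cast_nonneg _))
  have h7 : b ^ (e - 1) < M * (K * b) ^ W := by exact_mod_cast h6
  have h8 : 2 ^ (e - 1) < 2 ^ (M + W * (Nat.log 2 K + 1 + b)) := by
    calc 2 ^ (e - 1) ≤ b ^ (e - 1) := Nat.pow_le_pow_left hb _
      _ < M * (K * b) ^ W := h7
      _ ≤ 2 ^ M * (2 ^ (Nat.log 2 K + 1) * 2 ^ b) ^ W := by
          apply Nat.mul_le_mul (Nat.lt_two_pow_self).le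
          apply Nat.pow_le_pow_left
          exact Nat.mul_le_mul (Nat.lt_pow_succ_log_self (by norm_num) K).le (Nat.lt_two_pow_self).le
      _ = _ := by
          rw [← pow_add, ← pow_mul, ← pow_add]
          congr 1
          ring
  have h9 := (Nat.pow_lt_pow_iff_right (by norm_num : 1 < 2)).1 h8
  have h10 : e ≤ M + W * (Nat.log 2 K + 1 + b) := by omega
  refine h10.trans ?_
  nlinarith [Nat.zero_le (W * b * Nat.log 2 K), Nat.zero_le (Nat.log 2 K), Nat.zero_le (M * Nat.log 2 K)]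

lemma HLs_mono {s : ℕ} (ε : ℝ) (U U' N : ℕ) (hU : U ≤ U') (hN : 1 ≤ Real.log N) (a : Fin s → ℕ) (h : HLs ε U' N a) : HLs ε U N a := by
  obtain ⟨S, h1, h2, h3⟩ := h
  refine ⟨S, h1, h2.trans ?_, h3⟩
  apply div_le_div_of_nonneg_left (Nat.cast_nonneg _) (by positivity)
  exact pow_le_pow_right₀ hN hU

/-- the main theorem on tuples -/
theorem tuples (s b n : ℕ) (hs : 1 ≤ s) (hb : 2 ≤ b) (F : Fin s → MvPolynomial (Fin n) ℤ) (hF : ∀ i, 1 ≤ (F i).totalDegree)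
    (B E U W : ℕ) (ε : ℝ) (hε : 0 < ε) :
    ∃ N₀ : ℕ, ∀ N : ℕ, N₀ ≤ N → ∀ k : Fin s → ℕ, (∀ i, b ^ ((F i).totalDegree * k i) ≤ B * N) →
      (∀ i, (N : ℝ) ≤ (b : ℝ) ^ ((F i).totalDegree * k i) * Real.log N ^ W) →
      ∀ Dg : Fin s → Fin n → ℕ → Finset ℕ, (∀ l i, ∀ j < k l, Dg l i j ⊆ range b ∧ 2 ≤ (Dg l i j).card) →
      ∀ c : Fin s → ℤ, (∀ i, |c i| ≤ (B : ℤ) * N) →
      ∀ Ω : Fin s → Finset (Fin n → ℕ), (∀ l, Ω l = Fintype.piFinset fun i => withDigits b (k l) (Dg l i)) →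
      ∀ bad : (Fin s → Fin n → ℕ) → Prop, ∀ _hd : DecidablePred bad,
      (∀ x ∈ Fintype.piFinset Ω, bad x → ¬ ∀ h : Fin s → ℕ,
        (∀ i, |(h i : ℝ) - ((c i + MvPolynomial.eval (fun j => (x i j : ℤ)) (F i) : ℤ) : ℝ)| ≤ Real.log N ^ E) → HLs ε U N h) →
      (((Fintype.piFinset Ω).filter bad).card : ℝ) ≤ ((Fintype.piFinset Ω).card : ℝ) / Real.log N ^ U := by
  classical
  obtain ⟨U', hU'⟩ : ∃ U', U' = U + s * (E + 1) + 1 := ⟨_, rfl⟩
  obtain ⟨V, hV⟩ : ∃ V, V = 2 * (2 * U' + 5 + s + 2) + 6 := ⟨_, rfl⟩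
  choose CF hCF using fun l => size_vec b n hb (F l)
  obtain ⟨M, hM⟩ : ∃ M, M = 3 + 2 * B + (∑ l, CF l) * B := ⟨_, rfl⟩
  choose cl K₁ hlaw using fun l => law_vec b n hb (F l) (hF l) (M + W + W * b) V
  obtain ⟨cc, hcc⟩ : ∃ cc, cc = ∑ l, cl l := ⟨_, rfl⟩
  obtain ⟨K₂, hgood⟩ := tl_tuples s b 8 cc (b * M) U' hs hb (by norm_num) ε hε
  obtain ⟨K₅, hK₅⟩ : ∃ K₅, K₅ = ∑ l, K₁ l := ⟨_, rfl⟩
  obtain ⟨n1, hn1⟩ := ev_L' (5 + b * ((K₅ + K₂ + b ^ (s * (E + 1) + U) + 2 : ℕ) : ℝ))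
  obtain ⟨n2, hn2⟩ := ev_log' (E + 1) 1
  refine ⟨n1 + n2 + 3, fun N hN k hk1 hk2 Dg hDg c hc Ω hΩ bad _ hbad => ?_⟩
  have hNpos : (0 : ℝ) < N := by exact_mod_cast (by omega : 0 < N)
  obtain ⟨K, hMK, hKM, hlogK, hscale⟩ := scaleM b W M N hb (by omega) (by omega)
  obtain ⟨L, hL⟩ : ∃ L, L = Real.log (N : ℝ) := ⟨_, rfl⟩
  have a1 := hn1 N (by omega)
  have a2 := hn2 N (by omega)
  rw [← hL] at a1 a2 hlogK
  rw [one_mul] at a2
  have hbK0 : (0 : ℝ) ≤ b * ((K₅ + K₂ + b ^ (s * (E + 1) + U) + 2 : ℕ) : ℝ) := by positivity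
  have hL5 : 5 ≤ L := by linarith
  have hL0 : 0 < L := by linarith
  have hL1 : 1 ≤ L := by linarith
  have hlogK := hlogK hL1
  have hb0 : (0 : ℝ) < b := by exact_mod_cast (by omega : 0 < b)
  have hKbig : K₅ + K₂ + b ^ (s * (E + 1) + U) + 2 ≤ K := by
    have e1 : b * ((K₅ + K₂ + b ^ (s * (E + 1) + U) + 2 : ℕ) : ℝ) ≤ b * K := by linarith
    have e2 := le_of_mul_le_mul_left e1 hb0
    exact_mod_cast e2
  have hK0 : (0 : ℝ) < K := by exact_mod_cast (by omega : 0 < K)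
  -- the window
  obtain ⟨w, hw⟩ : ∃ w : ℕ, w = ⌈L ^ E⌉₊ := ⟨_, rfl⟩
  have hw1 : L ^ E ≤ w := by rw [hw]; exact Nat.le_ceil _
  have hw2 : 2 * (w : ℝ) + 1 ≤ L ^ (E + 1) := by
    have e1 : (w : ℝ) < L ^ E + 1 := by rw [hw]; exact Nat.ceil_lt_add_one (by positivity)
    have e2 : 1 ≤ L ^ E := one_le_pow₀ hL1
    rw [pow_succ]
    nlinarith
  have hwN : (w : ℝ) ≤ N := by
    have e1 : L ^ (E + 1) ≤ N := by
      refine a2.trans ?_
      rw [Real.sqrt_le_left hNpos.le]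
      have : (1 : ℝ) ≤ N := by exact_mod_cast (by omega : 1 ≤ N)
      nlinarith
    have e4 : (0 : ℝ) ≤ w := Nat.cast_nonneg _
    linarith
  have hwN' : w ≤ N := by exact_mod_cast hwN
  obtain ⟨Sh, hSh⟩ : ∃ Sh : Finset (Fin s → ℤ), Sh = Fintype.piFinset (fun _ => Icc (-(w : ℤ)) w) := ⟨_, rfl⟩
  have hShc : (Sh.card : ℝ) ≤ ((K : ℝ) * b) ^ (s * (E + 1)) := by
    rw [hSh, Fintype.card_piFinset, prod_const, card_univ, Fintype.card_fin, Int.card_Icc]
    have e1 : ((w : ℤ) + 1 - -(w : ℤ)) = ((2 * w + 1 : ℕ) : ℤ) := by push_cast; ring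
    rw [e1, Int.toNat_natCast]
    push_cast
    rw [mul_comm s, pow_mul]
    apply pow_le_pow_left₀ (by positivity)
    exact hw2.trans (pow_le_pow_left₀ hL0.le hlogK _)
  -- the laws
  obtain ⟨FF, hFF⟩ : ∃ FF : Fin s → (Fin n → ℕ) → ℤ, FF = fun l x => MvPolynomial.eval (fun j => (x j : ℤ)) (F l) := ⟨_, rfl⟩
  have hΩc : ∀ l, 0 < (Ω l).card := by
    intro l
    obtain ⟨e, he1, he2⟩ := hscale ((F l).totalDegree * k l) ((hk1 l).trans (Nat.mul_le_mul_right _ (by omega))) (hk2 l)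
    have := (hlaw l (k l) K e (by have := single_le_sum (fun l _ => Nat.zero_le (K₁ l)) (mem_univ l); omega) he2 he1 (Dg l) (hDg l) 0).2
    rw [hΩ l]
    exact this
  have hlaw' : ∀ l, ∀ a : ℤ, TLaw b 8 cc V K (Ω l) (fun _ => ((Ω l).card : ℝ)⁻¹) (fun x => a + FF l x) := by
    intro l a
    obtain ⟨e, he1, he2⟩ := hscale ((F l).totalDegree * k l) ((hk1 l).trans (Nat.mul_le_mul_right _ (by omega))) (hk2 l)
    have := (hlaw l (k l) K e (by have := single_le_sum (fun l _ => Nat.zero_le (K₁ l)) (mem_univ l); omega) he2 he1 (Dg l) (hDg l) a).1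
    rw [hΩ l, hFF]
    refine tlaw_mono_c (by omega) ?_ this
    rw [hcc]
    exact single_le_sum (fun l _ => Nat.zero_le (cl l)) (mem_univ l)
  have hsize : ∀ l, ∀ x ∈ Ω l, |FF l x| ≤ ((∑ l, CF l) * B : ℕ) * (N : ℤ) := by
    intro l x hx
    have e1 := hCF l (k l) (Dg l) x (by rw [← hΩ l]; exact hx)
    rw [hFF]
    refine e1.trans ?_
    have e2 : CF l * b ^ ((F l).totalDegree * k l) ≤ ((∑ l, CF l) * B) * N := by
      calc CF l * b ^ ((F l).totalDegree * k l) ≤ (∑ l, CF l) * (B * N) :=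
            Nat.mul_le_mul (single_le_sum (fun l _ => Nat.zero_le (CF l)) (mem_univ l)) (hk1 l)
        _ = _ := by ring
    exact_mod_cast e2
  obtain ⟨pr, hpr⟩ : ∃ pr : Fin s → (Fin n → ℕ) → ℝ, pr = fun l _ => ((Ω l).card : ℝ)⁻¹ := ⟨_, rfl⟩
  have hpr1 : ∀ l, ∑ v ∈ Ω l, pr l v = 1 := by
    intro l
    rw [hpr]
    have : ((Ω l).card : ℝ) ≠ 0 := by exact_mod_cast (hΩc l).ne'
    simp only [sum_const, nsmul_eq_mul]
    exact mul_inv_cancel₀ this
  have hprod : ∀ ω : Fin s → Fin n → ℕ, ∏ i, pr i (ω i) = ((Fintype.piFinset Ω).card : ℝ)⁻¹ := by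
    intro ω
    rw [hpr, Fintype.card_piFinset]
    push_cast
    rw [prod_inv_distrib]
  have hone : ∀ δ ∈ Sh, ∑ ω ∈ Fintype.piFinset Ω, (if (∀ i, 0 ≤ (c i + δ i) + FF i (ω i)) ∧
      ¬ HLs ε U' N (fun i => ((c i + δ i) + FF i (ω i)).toNat) then ∏ i, pr i (ω i) else 0) ≤ 1 / (K : ℝ) ^ U' := by
    intro δ hδ
    rw [hSh, Fintype.mem_piFinset] at hδ
    have hY : ∀ i, ∀ v ∈ Ω i, |(c i + δ i) + FF i v| ≤ ((2 * B + 1 + (∑ l, CF l) * B : ℕ) : ℤ) * N := by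
      intro i v hv
      have e1 := hsize i v hv
      have e2 := hc i
      have e3 := hδ i
      rw [mem_Icc] at e3
      have e4 : (w : ℤ) ≤ N := by exact_mod_cast hwN'
      have e5 : (0 : ℤ) ≤ (B : ℤ) * N := by positivity
      rw [abs_le] at e1 e2 ⊢
      push_cast at e1 ⊢
      constructor <;> nlinarith [e1.1, e1.2, e2.1, e2.2, e3.1, e3.2]
    have hNz : (1 : ℤ) ≤ N := by exact_mod_cast (by omega : 1 ≤ N)
    have hMKz : ((3 + 2 * B + (∑ l, CF l) * B : ℕ) : ℤ) * N ≤ (b : ℤ) ^ K := by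
      rw [← hM]
      exact_mod_cast hMK
    refine hgood K (by omega) (Fin n → ℕ) inferInstance Ω pr (fun i v => (c i + δ i) + FF i v) (fun i => by
        rw [hpr, ← hV]; exact hlaw' i _) hpr1 N hKM ((Nat.le_mul_of_pos_left _ (by omega)).trans hMK) (fun i v hv => by
          have e1 := hY i v hv
          rw [abs_le] at e1
          push_cast at e1 hMKz
          constructor <;> nlinarith [e1.1, e1.2]) (fun ω => (∀ i, 0 ≤ (c i + δ i) + FF i (ω i)) ∧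
      ¬ HLs ε U' N (fun i => ((c i + δ i) + FF i (ω i)).toNat)) _ (fun ω _ h => h)
  have htot : (((Fintype.piFinset Ω).filter bad).card : ℝ) * ((Fintype.piFinset Ω).card : ℝ)⁻¹ ≤ Sh.card * (1 / (K : ℝ) ^ U') := by
    rw [← nsmul_eq_mul, ← sum_const]
    have e1 : ∑ _ω ∈ (Fintype.piFinset Ω).filter bad, ((Fintype.piFinset Ω).card : ℝ)⁻¹ ≤
        ∑ ω ∈ Fintype.piFinset Ω, ∑ δ ∈ Sh, (if (∀ i, 0 ≤ (c i + δ i) + FF i (ω i)) ∧
          ¬ HLs ε U' N (fun i => ((c i + δ i) + FF i (ω i)).toNat) then ∏ i, pr i (ω i) else 0) := by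
      rw [sum_filter]
      apply sum_le_sum
      intro ω hω
      have hnn : ∀ δ ∈ Sh, 0 ≤ (if (∀ i, 0 ≤ (c i + δ i) + FF i (ω i)) ∧
          ¬ HLs ε U' N (fun i => ((c i + δ i) + FF i (ω i)).toNat) then ∏ i, pr i (ω i) else 0) := by
        intro δ _
        rw [hprod]
        split_ifs <;> positivity
      by_cases hb1 : bad ω
      · rw [if_pos hb1]
        have e2 := hbad ω hω hb1
        push Not at e2
        obtain ⟨h, hh1, hh2⟩ := e2
        have e3 : (fun i => (h i : ℤ) - (c i + FF i (ω i))) ∈ Sh := by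
          rw [hSh, Fintype.mem_piFinset]
          intro i
          have e4 := hh1 i
          rw [← hL] at e4
          have e5 : |(((h i : ℤ) - (c i + FF i (ω i)) : ℤ) : ℝ)| ≤ w := by
            refine le_trans (le_of_eq ?_) (e4.trans hw1)
            rw [hFF]
            push_cast
            rfl
          have e6 : |(h i : ℤ) - (c i + FF i (ω i))| ≤ (w : ℤ) := by exact_mod_cast e5
          rw [mem_Icc]
          exact abs_le.1 e6
        refine le_trans (le_of_eq ?_) (single_le_sum hnn e3)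
        have e7 : ∀ i, (c i + ((h i : ℤ) - (c i + FF i (ω i)))) + FF i (ω i) = h i := by intro i; ring
        simp only [e7, Int.toNat_natCast]
        rw [if_pos, hprod]
        refine ⟨fun i => Int.natCast_nonneg _, fun hcon => hh2 (HLs_mono ε U U' N (by rw [hU']; omega) (by rw [← hL]; exact hL1) h hcon)⟩
      · rw [if_neg hb1]
        exact sum_nonneg hnn
    refine e1.trans ?_
    rw [sum_comm]
    refine (sum_le_sum hone).trans (le_of_eq ?_)
    rw [sum_const, nsmul_eq_mul]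
  have hfin : (Sh.card : ℝ) * (1 / (K : ℝ) ^ U') ≤ 1 / L ^ U := by
    have e1 : (Sh.card : ℝ) * (1 / (K : ℝ) ^ U') ≤ ((K : ℝ) * b) ^ (s * (E + 1)) * (1 / (K : ℝ) ^ U') :=
      mul_le_mul_of_nonneg_right hShc (by positivity)
    refine e1.trans ?_
    rw [mul_one_div, div_le_div_iff₀ (by positivity) (by positivity), one_mul]
    calc ((K : ℝ) * b) ^ (s * (E + 1)) * L ^ U ≤ ((K : ℝ) * b) ^ (s * (E + 1)) * ((K : ℝ) * b) ^ U := by
          apply mul_le_mul_of_nonneg_left _ (by positivity)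
          exact pow_le_pow_left₀ hL0.le hlogK _
      _ = (b : ℝ) ^ (s * (E + 1) + U) * (K : ℝ) ^ (s * (E + 1) + U) := by rw [← pow_add, mul_pow]; ring
      _ ≤ K * (K : ℝ) ^ (s * (E + 1) + U) := by
          apply mul_le_mul_of_nonneg_right _ (by positivity)
          exact_mod_cast (by omega : b ^ (s * (E + 1) + U) ≤ K)
      _ = (K : ℝ) ^ U' := by rw [hU', ← pow_succ']; congr 1; ring
  have hcard0 : (0 : ℝ) < (Fintype.piFinset Ω).card := by
    rw [Fintype.card_piFinset]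
    exact_mod_cast prod_pos fun i _ => hΩc i
  have h5 := htot.trans hfin
  rw [mul_inv_le_iff₀ hcard0, one_div, inv_mul_eq_div] at h5
  rw [← hL]
  exact h5

end Pool.Agent.H56.PD
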