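import Pool.Agent.H56.PD.ML
import Pool.Agent.H56.PD.Tup

/-! Linear forms on arbitrary sets whose constants are near the values of polynomials at integers with restricted digits. -/

set_option autoImplicit false

namespace Pool.Agent.H56.PD

open Finset
open Pool.Agent.Y885
open Pool.Agent.H373R2.T7
open Pool.Agent.V11251.DS

/-- the main theorem on arbitrary sets -/
theorem sets (s b n : ℕ) (hb : 2 ≤ b) (F : Fin s → MvPolynomial (Fin n) ℤ) (hF : ∀ i, 1 ≤ (F i).totalDegree)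
    (q : Fin s → ℤ) (hq : ∀ i, q i ≠ 0) (B D T U W : ℕ) :
    ∃ E₀ : ℕ, ∀ E : ℕ, E₀ ≤ E → ∃ N₀ : ℕ, ∀ N : ℕ, N₀ ≤ N → ∀ k : Fin s → ℕ, (∀ i, b ^ ((F i).totalDegree * k i) ≤ B * N) →
      (∀ i, (N : ℝ) ≤ (b : ℝ) ^ ((F i).totalDegree * k i) * Real.log N ^ W) →
      ∀ Dg : Fin s → Fin n → ℕ → Finset ℕ, (∀ l i, ∀ j < k l, Dg l i j ⊆ range b ∧ 2 ≤ (Dg l i j).card) →
      ∀ c : Fin s → ℤ, (∀ i, |c i| ≤ (B : ℤ) * N) →
      ∀ z : ℕ, Real.log N ^ E ≤ z → (z : ℝ) ≤ Real.log N ^ (E + 1) →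
      ∀ L : ℕ, (L : ℝ) ≤ Real.log N ^ T → ∀ A : ℕ → Set ℕ,
      ∀ Ω : Fin s → Finset (Fin n → ℕ), (∀ l, Ω l = Fintype.piFinset fun i => withDigits b (k l) (Dg l i)) →
      ∀ bad : (Fin s → Fin n → ℕ) → Prop, ∀ _hd : DecidablePred bad,
      (∀ x ∈ Fintype.piFinset Ω, bad x → ¬ ∀ h : Fin s → ℤ,
        (∀ i, |(h i : ℝ) - ((c i + MvPolynomial.eval (fun j => (x i j : ℤ)) (F i) : ℤ) : ℝ)| ≤ Real.log N ^ D) →
        ∀ l < L, ∀ X ≤ N, DC X z (ind (A l)) q h ≤ N / Real.log N ^ U) →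
      (((Fintype.piFinset Ω).filter bad).card : ℝ) ≤ ((Fintype.piFinset Ω).card : ℝ) / Real.log N ^ U := by
  classical
  obtain ⟨U', hU'⟩ : ∃ U', U' = U + s * (D + 1) + 1 := ⟨_, rfl⟩
  obtain ⟨U2, hU2⟩ : ∃ U2, U2 = U' + T + 3 := ⟨_, rfl⟩
  obtain ⟨T2, hT2⟩ : ∃ T2, T2 = 2 * s + 1 + T := ⟨_, rfl⟩
  obtain ⟨V, hV⟩ : ∃ V, V = 4 * (U2 + 1) + 3 * (T2 + 1) + 7 + 6 := ⟨_, rfl⟩
  choose CF hCF using fun l => size_vec b n hb (F l)
  obtain ⟨M, hM⟩ : ∃ M, M = 3 + 2 * B + (∑ l, CF l) * B + ∑ l, (q l).natAbs := ⟨_, rfl⟩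
  choose cl K₁ hlaw using fun l => law_vec b n hb (F l) (hF l) (M + W + W * b) V
  obtain ⟨cc, hcc⟩ : ∃ cc, cc = ∑ l, cl l := ⟨_, rfl⟩
  choose B0 hml using fun i => ml_of_tlaw b 8 cc hb (by norm_num) T2 U2 0 (b * M) (q i) (hq i)
  obtain ⟨K₃, hpoint⟩ := tl_point b hb 8 cc (U2 + 1) (by norm_num)
  refine ⟨∑ i, (B0 i + 1), fun E hE => ?_⟩
  choose K₂ hml using fun i => hml i (E + 1)
  obtain ⟨n3, hcnt⟩ := arb_cnt s T U' q hq (fun _ => b ^ 0 * (b * M)) (fun i => B0 i + 1) E (fun i => by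
    have := single_le_sum (f := fun i => B0 i + 1) (fun _ _ => Nat.zero_le _) (mem_univ i)
    omega)
  obtain ⟨K₅, hK₅⟩ : ∃ K₅, K₅ = ∑ l, (K₁ l + K₂ l) := ⟨_, rfl⟩
  have hK₅' : ∀ l, K₁ l + K₂ l ≤ K₅ := fun l => by
    rw [hK₅]; exact single_le_sum (f := fun l => K₁ l + K₂ l) (fun _ _ => Nat.zero_le _) (mem_univ l)
  obtain ⟨n1, hn1⟩ := ev_L' (5 + b * ((K₅ + K₃ + 2 : ℕ) : ℝ))
  obtain ⟨n2, hn2⟩ := ev_log' (D + 1) 1
  refine ⟨n1 + n2 + n3 + 3, fun N hN k hk1 hk2 Dg hDg c hc z hz1 hz2 Lc hLc A Ω hΩ bad _ hbad => ?_⟩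
  have hNpos : (0 : ℝ) < N := by exact_mod_cast (by omega : 0 < N)
  obtain ⟨K, hMK, hKM, hlogK, hscale⟩ := scaleM b W M N hb (by omega) (by omega)
  obtain ⟨L, hL⟩ : ∃ L, L = Real.log (N : ℝ) := ⟨_, rfl⟩
  have a1 := hn1 N (by omega)
  have a2 := hn2 N (by omega)
  rw [← hL] at a1 a2 hlogK
  rw [one_mul] at a2
  have hbK0 : (0 : ℝ) ≤ b * ((K₅ + K₃ + 2 : ℕ) : ℝ) := by positivity
  have hL5 : 5 ≤ L := by linarith
  have hL0 : 0 < L := by linarith
  have hL1 : 1 ≤ L := by linarith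
  have hlogK := hlogK hL1
  have hb0 : (0 : ℝ) < b := by exact_mod_cast (by omega : 0 < b)
  have hKbig : K₅ + K₃ + 2 ≤ K := by
    have e1 : b * ((K₅ + K₃ + 2 : ℕ) : ℝ) ≤ b * K := by linarith
    have e2 := le_of_mul_le_mul_left e1 hb0
    exact_mod_cast e2
  have hK0 : (0 : ℝ) < K := by exact_mod_cast (by omega : 0 < K)
  -- the window
  obtain ⟨w, hw⟩ : ∃ w : ℕ, w = ⌈L ^ D⌉₊ := ⟨_, rfl⟩
  have hw1 : L ^ D ≤ w := by rw [hw]; exact Nat.le_ceil _
  have hw2 : 2 * (w : ℝ) + 1 ≤ L ^ (D + 1) := by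
    have e1 : (w : ℝ) < L ^ D + 1 := by rw [hw]; exact Nat.ceil_lt_add_one (by positivity)
    have e2 : 1 ≤ L ^ D := one_le_pow₀ hL1
    rw [pow_succ]
    nlinarith
  have hwN : (w : ℝ) ≤ N := by
    have e1 : L ^ (D + 1) ≤ N := by
      refine a2.trans ?_
      rw [Real.sqrt_le_left hNpos.le]
      have : (1 : ℝ) ≤ N := by exact_mod_cast (by omega : 1 ≤ N)
      nlinarith
    have e4 : (0 : ℝ) ≤ w := Nat.cast_nonneg _
    linarith
  have hwN' : w ≤ N := by exact_mod_cast hwN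
  obtain ⟨Sh, hSh⟩ : ∃ Sh : Finset (Fin s → ℤ), Sh = Fintype.piFinset (fun _ => Icc (-(w : ℤ)) w) := ⟨_, rfl⟩
  have hShc : (Sh.card : ℝ) ≤ L ^ (s * (D + 1)) := by
    rw [hSh, Fintype.card_piFinset, prod_const, card_univ, Fintype.card_fin, Int.card_Icc]
    have e1 : ((w : ℤ) + 1 - -(w : ℤ)) = ((2 * w + 1 : ℕ) : ℤ) := by push_cast; ring
    rw [e1, Int.toNat_natCast]
    push_cast
    rw [mul_comm s, pow_mul]
    exact pow_le_pow_left₀ (by positivity) hw2 _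
  -- the laws
  obtain ⟨FF, hFF⟩ : ∃ FF : Fin s → (Fin n → ℕ) → ℤ, FF = fun l x => MvPolynomial.eval (fun j => (x j : ℤ)) (F l) := ⟨_, rfl⟩
  have hΩc : ∀ l, 0 < (Ω l).card := by
    intro l
    obtain ⟨e, he1, he2⟩ := hscale ((F l).totalDegree * k l) ((hk1 l).trans (Nat.mul_le_mul_right _ (by omega))) (hk2 l)
    have := (hlaw l (k l) K e (by have := hK₅' l; omega) he2 he1 (Dg l) (hDg l) 0).2
    rw [hΩ l]
    exact this
  have hlaw' : ∀ l, ∀ a : ℤ, TLaw b 8 cc V K (Ω l) (fun _ => ((Ω l).card : ℝ)⁻¹) (fun x => a + FF l x) := by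
    intro l a
    obtain ⟨e, he1, he2⟩ := hscale ((F l).totalDegree * k l) ((hk1 l).trans (Nat.mul_le_mul_right _ (by omega))) (hk2 l)
    have := (hlaw l (k l) K e (by have := hK₅' l; omega) he2 he1 (Dg l) (hDg l) a).1
    rw [hΩ l, hFF]
    refine tlaw_mono_c (by omega) ?_ this
    rw [hcc]
    exact single_le_sum (fun l _ => Nat.zero_le (cl l)) (mem_univ l)
  have hsize : ∀ l, ∀ x ∈ Ω l, |FF l x| ≤ ((∑ l, CF l) * B : ℕ) * (N : ℤ) := by
    intro l x hx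
    have e1 := hCF l (k l) (Dg l) x (by rw [← hΩ l]; exact hx)
    rw [hFF]
    refine e1.trans ?_
    have e2 : CF l * b ^ ((F l).totalDegree * k l) ≤ ((∑ l, CF l) * B) * N := by
      calc CF l * b ^ ((F l).totalDegree * k l) ≤ (∑ l, CF l) * (B * N) :=
            Nat.mul_le_mul (single_le_sum (fun l _ => Nat.zero_le (CF l)) (mem_univ l)) (hk1 l)
        _ = _ := by ring
    exact_mod_cast e2
  obtain ⟨pr, hpr⟩ : ∃ pr : Fin s → (Fin n → ℕ) → ℝ, pr = fun l _ => ((Ω l).card : ℝ)⁻¹ := ⟨_, rfl⟩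
  have hpr1 : ∀ l, ∑ v ∈ Ω l, pr l v = 1 := by
    intro l
    rw [hpr]
    have : ((Ω l).card : ℝ) ≠ 0 := by exact_mod_cast (hΩc l).ne'
    simp only [sum_const, nsmul_eq_mul]
    exact mul_inv_cancel₀ this
  have hprod : ∀ ω : Fin s → Fin n → ℕ, ∏ i, pr i (ω i) = ((Fintype.piFinset Ω).card : ℝ)⁻¹ := by
    intro ω
    rw [hpr, Fintype.card_piFinset]
    push_cast
    rw [prod_inv_distrib]
  have hone : ∀ δ ∈ Sh, ∑ ω ∈ Fintype.piFinset Ω, (if BC N z U' Lc (fun l => ind (A l)) q (fun i => (c i + δ i) + FF i (ω i))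
      then ∏ i, pr i (ω i) else 0) ≤ 1 / L ^ (U' + 2) := by
    intro δ hδ
    rw [hSh, Fintype.mem_piFinset] at hδ
    have hY : ∀ i, ∀ v ∈ Ω i, |(c i + δ i) + FF i v| ≤ ((2 * B + 1 + (∑ l, CF l) * B : ℕ) : ℤ) * N := by
      intro i v hv
      have e1 := hsize i v hv
      have e2 := hc i
      have e3 := hδ i
      rw [mem_Icc] at e3
      have e4 : (w : ℤ) ≤ N := by exact_mod_cast hwN'
      have e5 : (0 : ℤ) ≤ (B : ℤ) * N := by positivity
      rw [abs_le] at e1 e2 ⊢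
      push_cast at e1 ⊢
      constructor <;> nlinarith [e1.1, e1.2, e2.1, e2.2, e3.1, e3.2]
    have hNz : (1 : ℤ) ≤ N := by exact_mod_cast (by omega : 1 ≤ N)
    have hMKz : ((3 + 2 * B + (∑ l, CF l) * B + ∑ l, (q l).natAbs : ℕ) : ℤ) * N ≤ (b : ℤ) ^ K := by
      rw [← hM]
      exact_mod_cast hMK
    have hNK : N ≤ b ^ K := (Nat.le_mul_of_pos_left _ (by omega)).trans hMK
    have hNK2 : N ≤ b * M * b ^ K := hNK.trans (Nat.le_mul_of_pos_left _ (Nat.mul_pos (by omega) (by omega)))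
    have hMLi : ∀ i, ML N (b ^ 0 * (b * M)) (B0 i + 1) (E + 1) T2 U2 (q i) ((Ω i).image (fun v => (c i + δ i) + FF i v))
        (fun x => ∑ ω ∈ (Ω i).filter (fun ω => (c i + δ i) + FF i ω = x), pr i ω) := by
      intro i
      have g1 : TLaw b 8 cc V K (Ω i) (pr i) (fun v => (c i + δ i) + FF i v) := by rw [hpr]; exact hlaw' i _
      refine hml i K (by have := hK₅' i; omega) N hKM hNK2 _ (Ω i) (pr i) (fun v => (c i + δ i) + FF i v) ?_ ?_ (hpr1 i) ?_
      · intro v hv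
        have e1 := hY i v hv
        have e2 : ((q i).natAbs : ℤ) ≤ ((∑ l, (q l).natAbs : ℕ) : ℤ) := by
          exact_mod_cast single_le_sum (f := fun l => (q l).natAbs) (fun _ _ => Nat.zero_le _) (mem_univ i)
        have e3 : |q i| = ((q i).natAbs : ℤ) := Int.abs_eq_natAbs _
        rw [e3, add_zero]
        have e4 : ((q i).natAbs : ℤ) * N ≤ ((∑ l, (q l).natAbs : ℕ) : ℤ) * N := mul_le_mul_of_nonneg_right e2 (by linarith)
        push_cast at e1 e4 hMKz ⊢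
        nlinarith
      · rw [add_zero, ← hV]
        exact g1
      · intro x
        have e1 := hpoint K (by omega) _ (Ω i) (pr i) _ (g1.mono (by omega) (by omega)) x
        refine le_trans (le_of_eq ?_) e1
        rw [sum_filter]
        apply sum_congr rfl
        intro ω _
        split_ifs <;> simp
    have key := hcnt N (by omega) z hz1 hz2 (fun i => (Ω i).image (fun v => (c i + δ i) + FF i v))
      (fun i x => ∑ ω ∈ (Ω i).filter (fun ω => (c i + δ i) + FF i ω = x), pr i ω) (fun i => by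
        have := hMLi i
        rw [hT2, hU2] at this
        exact this) Lc hLc (fun l => ind (A l)) (fun l _ n _ => (ind_le _ _).trans (one_le_pow₀ (by rw [← hL]; exact hL1)))
    have key2 := pushZ (fun _ : Fin s => Fin n → ℕ) Ω pr (fun i v => (c i + δ i) + FF i v) (fun m => BC N z U' Lc (fun l => ind (A l)) q m)
    rw [← hL] at key
    exact (le_of_eq key2.symm).trans key
  have htot : (((Fintype.piFinset Ω).filter bad).card : ℝ) * ((Fintype.piFinset Ω).card : ℝ)⁻¹ ≤ Sh.card * (1 / L ^ (U' + 2)) := by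
    rw [← nsmul_eq_mul, ← sum_const]
    have e1 : ∑ _ω ∈ (Fintype.piFinset Ω).filter bad, ((Fintype.piFinset Ω).card : ℝ)⁻¹ ≤
        ∑ ω ∈ Fintype.piFinset Ω, ∑ δ ∈ Sh, (if BC N z U' Lc (fun l => ind (A l)) q (fun i => (c i + δ i) + FF i (ω i))
          then ∏ i, pr i (ω i) else 0) := by
      rw [sum_filter]
      apply sum_le_sum
      intro ω hω
      have hnn : ∀ δ ∈ Sh, 0 ≤ (if BC N z U' Lc (fun l => ind (A l)) q (fun i => (c i + δ i) + FF i (ω i))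
          then ∏ i, pr i (ω i) else 0) := by
        intro δ _
        rw [hprod]
        split_ifs <;> positivity
      by_cases hb1 : bad ω
      · rw [if_pos hb1]
        have e2 := hbad ω hω hb1
        push Not at e2
        obtain ⟨h, hh1, l, hl, X, hX, hh2⟩ := e2
        have e3 : (fun i => h i - (c i + FF i (ω i))) ∈ Sh := by
          rw [hSh, Fintype.mem_piFinset]
          intro i
          have e4 := hh1 i
          rw [← hL] at e4
          have e5 : |((h i - (c i + FF i (ω i)) : ℤ) : ℝ)| ≤ w := by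
            refine le_trans (le_of_eq ?_) (e4.trans hw1)
            rw [hFF]
            push_cast
            rfl
          have e6 : |h i - (c i + FF i (ω i))| ≤ (w : ℤ) := by exact_mod_cast e5
          rw [mem_Icc]
          exact abs_le.1 e6
        refine le_trans (le_of_eq ?_) (single_le_sum hnn e3)
        have e7 : (fun i => (c i + (h i - (c i + FF i (ω i)))) + FF i (ω i)) = h := by funext i; ring
        simp only [e7]
        rw [if_pos, hprod]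
        refine BC_mono N z U U' Lc _ q h (by rw [← hL]; exact hL1) (by rw [hU']; omega) ⟨l, hl, X, hX, hh2⟩
      · rw [if_neg hb1]
        exact sum_nonneg hnn
    refine e1.trans ?_
    rw [sum_comm]
    refine (sum_le_sum hone).trans (le_of_eq ?_)
    rw [sum_const, nsmul_eq_mul]
  have hfin : (Sh.card : ℝ) * (1 / L ^ (U' + 2)) ≤ 1 / L ^ U := by
    have e1 : (Sh.card : ℝ) * (1 / L ^ (U' + 2)) ≤ L ^ (s * (D + 1)) * (1 / L ^ (U' + 2)) :=
      mul_le_mul_of_nonneg_right hShc (by positivity)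
    refine e1.trans ?_
    rw [mul_one_div, div_le_div_iff₀ (by positivity) (by positivity), one_mul, ← pow_add]
    apply pow_le_pow_right₀ hL1
    rw [hU']
    omega
  have hcard0 : (0 : ℝ) < (Fintype.piFinset Ω).card := by
    rw [Fintype.card_piFinset]
    exact_mod_cast prod_pos fun i _ => hΩc i
  have h5 := htot.trans hfin
  rw [mul_inv_le_iff₀ hcard0, one_div, inv_mul_eq_div] at h5
  rw [← hL]
  exact h5

end Pool.Agent.H56.PD
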