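import Pool.Agent.H56.PD.Diff
import Pool.Graph.R_seed8.Y885.RS1

/-! Weyl differencing for integer valued polynomials of independent random digits. -/

set_option autoImplicit false

namespace Pool.Agent.H56.PD

open Finset
open Pool.Agent.H807R2.Dav

/-- the mean value over a finite set -/
noncomputable def av {α M : Type*} [AddCommGroup M] [Module ℝ M] (s : Finset α) (f : α → M) : M :=
  (s.card : ℝ)⁻¹ • ∑ x ∈ s, f x

section av
variable {α β : Type*}

lemma av_const {M : Type*} [AddCommGroup M] [Module ℝ M] (s : Finset α) (hs : s.Nonempty) (c : M) : av s (fun _ => c) = c := by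
  unfold av
  rw [sum_const, ← Nat.cast_smul_eq_nsmul ℝ, smul_smul, inv_mul_cancel₀, one_smul]
  exact_mod_cast (card_pos.2 hs).ne'

lemma av_comm {M : Type*} [AddCommGroup M] [Module ℝ M] (s : Finset α) (t : Finset β) (f : α → β → M) :
    av s (fun x => av t (fun y => f x y)) = av t (fun y => av s (fun x => f x y)) := by
  unfold av
  rw [← smul_sum, ← smul_sum, smul_smul, smul_smul, mul_comm, sum_comm]

lemma av_congr {M : Type*} [AddCommGroup M] [Module ℝ M] (s : Finset α) (f g : α → M) (h : ∀ x ∈ s, f x = g x) : av s f = av s g := by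
  unfold av
  rw [sum_congr rfl h]

lemma av_le (s : Finset α) (f g : α → ℝ) (h : ∀ x ∈ s, f x ≤ g x) : av s f ≤ av s g := by
  unfold av
  rw [smul_eq_mul, smul_eq_mul]
  exact mul_le_mul_of_nonneg_left (sum_le_sum h) (by positivity)

lemma av_nonneg (s : Finset α) (f : α → ℝ) (h : ∀ x ∈ s, 0 ≤ f x) : 0 ≤ av s f := by
  unfold av
  rw [smul_eq_mul]
  exact mul_nonneg (by positivity) (sum_nonneg h)

lemma av_le_const (s : Finset α) (f : α → ℝ) (c : ℝ) (hc : 0 ≤ c) (h : ∀ x ∈ s, f x ≤ c) : av s f ≤ c := by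
  rcases s.eq_empty_or_nonempty with h0 | h0
  · subst h0; unfold av; simpa using hc
  · exact (av_le s f (fun _ => c) h).trans (av_const s h0 c).le

lemma av_add {M : Type*} [AddCommGroup M] [Module ℝ M] (s : Finset α) (f g : α → M) : av s (fun x => f x + g x) = av s f + av s g := by
  unfold av
  rw [sum_add_distrib, smul_add]

lemma av_mul (s : Finset α) (c : ℝ) (f : α → ℝ) : av s (fun x => c * f x) = c * av s f := by
  unfold av
  rw [smul_eq_mul, smul_eq_mul, ← mul_sum]; ring

lemma norm_av (s : Finset α) (f : α → ℂ) : ‖av s f‖ ≤ av s (fun x => ‖f x‖) := by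
  unfold av
  rw [norm_smul, smul_eq_mul, norm_inv, Real.norm_natCast]
  exact mul_le_mul_of_nonneg_left (norm_sum_le _ _) (by positivity)

lemma av_pow (s : Finset α) (f : α → ℝ) (hf : ∀ x ∈ s, 0 ≤ f x) (m : ℕ) (hm : 1 ≤ m) : (av s f) ^ m ≤ av s (fun x => f x ^ m) := by
  rcases s.eq_empty_or_nonempty with h0 | h0
  · subst h0; unfold av; simp [Nat.pos_iff_ne_zero.1 hm]
  · have hc : (0 : ℝ) < s.card := by exact_mod_cast card_pos.2 h0
    have h1 := Real.pow_arith_mean_le_arith_mean_pow s (fun _ => (s.card : ℝ)⁻¹) f (fun _ _ => by positivity)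
      (by rw [sum_const, nsmul_eq_mul, mul_inv_cancel₀ hc.ne']) hf m
    unfold av
    rw [smul_eq_mul, smul_eq_mul, mul_sum, mul_sum]
    exact h1

lemma norm_av_sq (s : Finset α) (f : α → ℂ) : ‖av s f‖ ^ 2 ≤ av s (fun x => ‖f x‖ ^ 2) :=
  (pow_le_pow_left₀ (norm_nonneg _) (norm_av s f) 2).trans (av_pow s _ (fun _ _ => norm_nonneg _) 2 (by norm_num))

end av

variable {I : Type} [Fintype I] [DecidableEq I]

/-- take the coordinates in `S` from `b` -/
def mix (S : Finset I) (a b : I → ℤ) : I → ℤ := fun i => if i ∈ S then b i else a i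

lemma mix_mem {A : I → Finset ℤ} {S : Finset I} {a b : I → ℤ} (ha : a ∈ Fintype.piFinset A) (hb : b ∈ Fintype.piFinset A) :
    mix S a b ∈ Fintype.piFinset A := by
  rw [Fintype.mem_piFinset] at *
  intro i
  unfold mix
  split_ifs
  · exact hb i
  · exact ha i

lemma av_mix {M : Type*} [AddCommGroup M] [Module ℝ M] (A : I → Finset ℤ) (hA : ∀ i, (A i).Nonempty) (S : Finset I) (g : (I → ℤ) → M) :
    av (Fintype.piFinset A) (fun a => av (Fintype.piFinset A) (fun b => g (mix S a b))) = av (Fintype.piFinset A) g := by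
  obtain ⟨Ω, hΩ⟩ : ∃ Ω, Ω = Fintype.piFinset A := ⟨_, rfl⟩
  rw [← hΩ]
  have hne : Ω.Nonempty := by rw [hΩ]; exact Fintype.piFinset_nonempty.2 hA
  have hc : (Ω.card : ℝ) ≠ 0 := by exact_mod_cast (card_pos.2 hne).ne'
  have h1 : ∑ a ∈ Ω, ∑ b ∈ Ω, g (mix S a b) = ∑ a ∈ Ω, ∑ _b ∈ Ω, g a := by
    rw [← sum_product', ← sum_product']
    apply sum_nbij' (fun x => (mix S x.1 x.2, mix S x.2 x.1)) (fun x => (mix S x.1 x.2, mix S x.2 x.1))
    · intro x hx
      rw [mem_product, hΩ] at *
      exact ⟨mix_mem hx.1 hx.2, mix_mem hx.2 hx.1⟩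
    · intro x hx
      rw [mem_product, hΩ] at *
      exact ⟨mix_mem hx.1 hx.2, mix_mem hx.2 hx.1⟩
    · intro x _
      refine Prod.ext ?_ ?_ <;> (funext i; simp only [mix]; split_ifs <;> rfl)
    · intro x _
      refine Prod.ext ?_ ?_ <;> (funext i; simp only [mix]; split_ifs <;> rfl)
    · intro x _
      rfl
  unfold av
  rw [← smul_sum, smul_smul, h1]
  simp only [sum_const]
  rw [← smul_sum, ← Nat.cast_smul_eq_nsmul ℝ, smul_smul]
  congr 1
  field_simp

/-- Cauchy-Schwarz -/
lemma cs_mix (A : I → Finset ℤ) (hA : ∀ i, (A i).Nonempty) (S : Finset I) (g : (I → ℤ) → ℂ) :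
    ‖av (Fintype.piFinset A) g‖ ^ 2 ≤ av (Fintype.piFinset A) (fun b => av (Fintype.piFinset A) (fun b' =>
      ‖av (Fintype.piFinset A) (fun a => g (mix S a b) * (starRingEnd ℂ) (g (mix S a b')))‖)) := by
  obtain ⟨Ω, hΩ⟩ : ∃ Ω, Ω = Fintype.piFinset A := ⟨_, rfl⟩
  have h0 := av_mix A hA S g
  rw [← hΩ] at h0 ⊢
  rw [← h0]
  refine (norm_av_sq _ _).trans ?_
  have h1 : ∀ a, ‖av Ω (fun b => g (mix S a b))‖ ^ 2 = (av Ω (fun b => av Ω (fun b' => g (mix S a b) * (starRingEnd ℂ) (g (mix S a b'))))).re := by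
    intro a
    have h2 : av Ω (fun b => av Ω (fun b' => g (mix S a b) * (starRingEnd ℂ) (g (mix S a b')))) =
        av Ω (fun b => g (mix S a b)) * (starRingEnd ℂ) (av Ω (fun b => g (mix S a b))) := by
      unfold av
      rw [Complex.real_smul, Complex.real_smul, map_mul, Complex.conj_ofReal, map_sum]
      have : ∀ b, (((Ω.card : ℝ)⁻¹ : ℝ) • ∑ b' ∈ Ω, g (mix S a b) * (starRingEnd ℂ) (g (mix S a b'))) =
        g (mix S a b) * ((((Ω.card : ℝ)⁻¹ : ℝ) : ℂ) * ∑ b' ∈ Ω, (starRingEnd ℂ) (g (mix S a b'))) := by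
        intro b
        rw [Complex.real_smul, ← mul_sum]; ring
      simp only [this]
      rw [← sum_mul]; ring
    rw [h2, Complex.mul_conj']
    norm_cast
  simp only [h1]
  have h3 : av Ω (fun a => (av Ω (fun b => av Ω (fun b' => g (mix S a b) * (starRingEnd ℂ) (g (mix S a b'))))).re) =
      (av Ω (fun b => av Ω (fun b' => av Ω (fun a => g (mix S a b) * (starRingEnd ℂ) (g (mix S a b')))))).re := by
    have h4 : ∀ f : (I → ℤ) → ℂ, av Ω (fun a => (f a).re) = (av Ω f).re := by
      intro f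
      unfold av
      rw [Complex.real_smul, Complex.re_ofReal_mul, Complex.re_sum, smul_eq_mul]
    rw [h4, av_comm]
    congr 1
    apply av_congr
    intro b _
    rw [av_comm]
  rw [h3]
  refine (Complex.re_le_norm _).trans ((norm_av _ _).trans (av_le _ _ _ fun b _ => norm_av _ _))

lemma av_prod (A : I → Finset ℤ) (f : I → ℤ → ℂ) :
    av (Fintype.piFinset A) (fun ω => ∏ i, f i (ω i)) = ∏ i, av (A i) (f i) := by
  unfold av
  simp only [Complex.real_smul]
  rw [prod_mul_distrib, Finset.prod_univ_sum, Fintype.card_piFinset]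
  congr 1
  push_cast
  rw [prod_inv_distrib]

variable {n : ℕ}

/-- the contribution of the digits in `S` -/
def val (var : I → Fin n) (wt : I → ℤ) (S : Finset I) (ω : I → ℤ) : Fin n → ℤ := ∑ i ∈ S, Pi.single (var i) (ω i * wt i)

/-- the contribution of the digits in `S`, as a number -/
def ws (wt : I → ℤ) (S : Finset I) (ω : I → ℤ) : ℤ := ∑ i ∈ S, ω i * wt i

omit [Fintype I] in
lemma val_mix (var : I → Fin n) (wt : I → ℤ) (R S : Finset I) (hS : S ⊆ R) (a b : I → ℤ) :
    val var wt R (mix S a b) = val var wt (R \ S) a + val var wt S b := by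
  unfold val
  rw [← sum_sdiff hS]
  congr 1
  · apply sum_congr rfl
    intro i hi
    rw [mem_sdiff] at hi
    unfold mix
    rw [if_neg hi.2]
  · apply sum_congr rfl
    intro i hi
    unfold mix
    rw [if_pos hi]

omit [Fintype I] in
lemma val_single (var : I → Fin n) (wt : I → ℤ) (S : Finset I) (v : Fin n) (hS : ∀ i ∈ S, var i = v) (ω : I → ℤ) :
    val var wt S ω = Pi.single v (ws wt S ω) := by
  classical
  unfold val ws
  induction S using Finset.induction_on with
  | empty => simp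
  | insert i S hi ih =>
    rw [sum_insert hi, sum_insert hi, ih fun j hj => hS j (mem_insert_of_mem hj), hS i (mem_insert_self _ _), ← Pi.single_add]

omit [Fintype I] in
/-- a function of degree one -/
lemma deg_one (H : (Fin n → ℤ) → ℤ) (hH : DegLE 1 H) (var : I → Fin n) (wt : I → ℤ) (S : Finset I) (ω : I → ℤ) :
    H (val var wt S ω) = H 0 + ∑ i ∈ S, ω i * wt i * itd [var i] H 0 := by
  classical
  unfold val
  induction S using Finset.induction_on with
  | empty => simp
  | insert i S hi ih =>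
    rw [sum_insert hi, sum_insert hi]
    have h1 := itd_diff (var i) [] H hH (∑ i ∈ S, Pi.single (var i) (ω i * wt i)) (ω i * wt i)
    unfold itd at h1
    simp only [zero_add] at h1
    rw [ih] at h1
    have h3 : itd [] (fun x => H (x + Pi.single (var i) 1) - H x) 0 = itd [var i] H 0 := rfl
    rw [h3] at h1
    rw [add_comm]
    linarith

/-- the product of the characteristic functions of the digits in `R₁` -/
noncomputable def PR (A : I → Finset ℤ) (wt : I → ℤ) (R₁ : Finset I) (θ : ℝ) (c : ℤ) : ℝ :=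
  ∏ i ∈ R₁, ‖av (A i) (fun x : ℤ => ee ((x : ℝ) * (θ * c * wt i)))‖

/-- nested mean values over differences of the digits in blocks -/
noncomputable def nest (A : I → Finset ℤ) (wt : I → ℤ) : List (Finset I) → (ℤ → ℝ) → ℝ
  | [], f => f 1
  | S :: bl, f => av (Fintype.piFinset A) (fun b => av (Fintype.piFinset A) (fun b' => nest A wt bl (fun z => f ((ws wt S b - ws wt S b') * z))))

lemma norm_phi_le (s : Finset ℤ) (f : ℤ → ℝ) : ‖av s (fun x => ee (f x))‖ ≤ 1 := by
  refine (norm_av _ _).trans (av_le_const _ _ 1 zero_le_one fun x _ => (norm_ee _).le)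

lemma weyl_zero (A : I → Finset ℤ) (wt : I → ℤ) (var : I → Fin n) (v : Fin n) (H : (Fin n → ℤ) → ℤ) (hH : DegLE 1 H)
    (R R₁ : Finset I) (hR : R₁ ⊆ R) (hv : ∀ i ∈ R₁, var i = v) (θ : ℝ) :
    ‖av (Fintype.piFinset A) (fun ω => ee (θ * (H (val var wt R ω) : ℤ)))‖ ≤ PR A wt R₁ θ (itd [v] H 0) := by
  have h1 : ∀ ω, ee (θ * (H (val var wt R ω) : ℤ)) = ee (θ * (H 0 : ℤ)) * ∏ i, (if i ∈ R then ee ((ω i : ℝ) * (θ * (itd [var i] H 0 : ℤ) * wt i)) else 1) := by
    intro ω
    rw [deg_one H hH, ← prod_filter]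
    have h2 : ∀ S : Finset I, ee (∑ i ∈ S, (ω i : ℝ) * (θ * (itd [var i] H 0 : ℤ) * wt i)) = ∏ i ∈ S, ee ((ω i : ℝ) * (θ * (itd [var i] H 0 : ℤ) * wt i)) := by
      intro S
      induction S using Finset.induction_on with
      | empty => simp [ee_zero]
      | insert i S hi ih => rw [sum_insert hi, prod_insert hi, ee_add, ih]
    rw [filter_mem_eq_inter, univ_inter, ← h2, ← ee_add]
    congr 1
    push_cast
    rw [mul_add, mul_sum]
    congr 1
    apply sum_congr rfl
    intro i _
    ring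
  simp only [h1]
  have h3 : av (Fintype.piFinset A) (fun ω => ee (θ * (H 0 : ℤ)) * ∏ i, (if i ∈ R then ee ((ω i : ℝ) * (θ * (itd [var i] H 0 : ℤ) * wt i)) else 1)) =
      ee (θ * (H 0 : ℤ)) * ∏ i, av (A i) (fun x : ℤ => if i ∈ R then ee ((x : ℝ) * (θ * (itd [var i] H 0 : ℤ) * wt i)) else 1) := by
    rw [← av_prod A (fun i x => if i ∈ R then ee ((x : ℝ) * (θ * (itd [var i] H 0 : ℤ) * wt i)) else 1)]
    unfold av
    rw [← mul_sum, Complex.real_smul, Complex.real_smul]
    ring
  rw [h3, norm_mul, norm_ee, one_mul, norm_prod]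
  unfold PR
  rw [← prod_sdiff (subset_univ R₁)]
  refine (mul_le_mul_of_nonneg_right (b := _) (c := 1) ?_ (prod_nonneg fun _ _ => norm_nonneg _)).trans ?_
  · apply prod_le_one (fun _ _ => norm_nonneg _)
    intro i _
    split_ifs
    · exact norm_phi_le _ _
    · refine (norm_av _ _).trans (av_le_const _ _ 1 zero_le_one fun x _ => by simp)
  · rw [one_mul]
    apply le_of_eq
    apply prod_congr rfl
    intro i hi
    simp only [if_pos (hR hi), hv i hi]

/-- Weyl differencing -/
theorem weyl (A : I → Finset ℤ) (hA : ∀ i, (A i).Nonempty) (wt : I → ℤ) (var : I → Fin n) (v : Fin n) (bl : List (Finset I × Fin n)) :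
    ∀ (H : (Fin n → ℤ) → ℤ), DegLE (bl.length + 1) H → ∀ (R R₁ : Finset I), R₁ ⊆ R → (∀ i ∈ R₁, var i = v) →
    (∀ p ∈ bl, p.1 ⊆ R ∧ Disjoint p.1 R₁ ∧ ∀ i ∈ p.1, var i = p.2) → bl.Pairwise (fun p q => Disjoint p.1 q.1) → ∀ θ : ℝ,
    ‖av (Fintype.piFinset A) (fun ω => ee (θ * (H (val var wt R ω) : ℤ)))‖ ^ (2 ^ bl.length) ≤
      nest A wt (bl.map Prod.fst) (fun z => PR A wt R₁ θ (z * itd (bl.map Prod.snd ++ [v]) H 0)) := by
  induction bl with
  | nil =>
    intro H hH R R₁ hR hv _ _ θ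
    simp only [List.length_nil, pow_zero, pow_one, List.map_nil, List.nil_append, nest, one_mul]
    exact weyl_zero A wt var v H hH R R₁ hR hv θ
  | cons p bl ih =>
    intro H hH R R₁ hR hv hbl hpw θ
    obtain ⟨S, i⟩ := p
    rw [List.pairwise_cons] at hpw
    obtain ⟨hSR, hSd, hSv⟩ := hbl (S, i) (List.mem_cons_self)
    simp only at hSR hSd hSv
    simp only [List.length_cons, List.map_cons, List.cons_append, nest]
    rw [pow_succ' 2, pow_mul]
    have h1 := cs_mix A hA S (fun ω => ee (θ * (H (val var wt R ω) : ℤ)))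
    refine (pow_le_pow_left₀ (by positivity) h1 _).trans ?_
    refine (av_pow _ _ (fun _ _ => av_nonneg _ _ fun _ _ => norm_nonneg _) _ (Nat.one_le_two_pow)).trans ?_
    apply av_le
    intro b _
    refine (av_pow _ _ (fun _ _ => norm_nonneg _) _ (Nat.one_le_two_pow)).trans ?_
    apply av_le
    intro b' _
    obtain ⟨H', hH'⟩ : ∃ H' : (Fin n → ℤ) → ℤ, H' = fun x => H (x + (Pi.single i (ws wt S b') + Pi.single i (ws wt S b - ws wt S b'))) - H (x + Pi.single i (ws wt S b')) := ⟨_, rfl⟩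
    have h2 : ∀ a, ee (θ * (H (val var wt R (mix S a b)) : ℤ)) * (starRingEnd ℂ) (ee (θ * (H (val var wt R (mix S a b')) : ℤ))) =
        ee (θ * (H' (val var wt (R \ S) a) : ℤ)) := by
      intro a
      have h3 : (starRingEnd ℂ) (ee (θ * (H (val var wt R (mix S a b')) : ℤ))) = ee (-(θ * (H (val var wt R (mix S a b')) : ℤ))) := by
        unfold ee
        rw [← Complex.exp_conj]
        congr 1
        simp only [map_mul, Complex.conj_ofReal, Complex.conj_I, map_ofNat]
        push_cast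
        ring
      rw [h3, ← ee_add, val_mix var wt R S hSR, val_mix var wt R S hSR, val_single var wt S i hSv, val_single var wt S i hSv, hH']
      congr 1
      simp only
      rw [← Pi.single_add, add_sub_cancel]
      push_cast
      ring
    simp only [h2]
    have hdeg : DegLE (bl.length + 1) H' := by
      have h4 := hH (Pi.single i (ws wt S b - ws wt S b'))
      have h5 := DegLE.shift h4 (Pi.single i (ws wt S b'))
      refine (congrArg (DegLE _) ?_).mp h5
      rw [hH']
      funext x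
      rw [add_assoc]
    have h6 := ih H' hdeg (R \ S) R₁ (fun j hj => mem_sdiff.2 ⟨hR hj, fun hjS => (disjoint_left.1 hSd hjS) hj⟩) hv
      (fun q hq => ⟨fun j hj => mem_sdiff.2 ⟨(hbl q (List.mem_cons_of_mem _ hq)).1 hj, fun hjS => (disjoint_left.1 (hpw.1 q hq) hjS) hj⟩,
        (hbl q (List.mem_cons_of_mem _ hq)).2⟩) hpw.2 θ
    refine h6.trans (le_of_eq ?_)
    congr 1
    funext z
    congr 1
    have h7 : (bl.map Prod.snd ++ [v]).length + 1 = bl.length + 1 + 1 := by simp
    have h8 := itd_diff i (bl.map Prod.snd ++ [v]) H (by rw [h7]; exact hH) (Pi.single i (ws wt S b')) (ws wt S b - ws wt S b')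
    rw [← hH'] at h8
    rw [h8]; ring

end Pool.Agent.H56.PD
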